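import Pool.Agent.Helper59.BE.Cover

/-!
# Hausdorff measure of a limsup set, by cells
-/

set_option autoImplicit false

namespace Pool.Agent.Helper82.FK

open MeasureTheory Set Filter Topology Finset
open Pool.Agent.Helper59.BE (cell cell_cover cell_ediam cell_sub)

theorem limsup_null {a b : ℝ} (hab : a < b) {E E' : ℕ → Set ℝ} {q : ℕ → ℕ} (hq : ∀ N, N + 1 ≤ q N)
    (hE : ∀ N, E N ⊆ Icc a b)
    (hcell : ∀ N, ∀ x ∈ E N, ∀ y ∈ Icc a b, |x - y| ≤ (b - a) / q N → y ∈ E' N)
    {d : ℝ} (hd : 0 < d)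
    (hsum : ∑' N, volume (E' N) * ENNReal.ofReal (((b - a) / q N) ^ (d - 1)) ≠ ⊤) :
    Measure.hausdorffMeasure d {x | ∃ᶠ N in atTop, x ∈ E N} = 0 := by
  have hba : 0 < b - a := by linarith
  have hq0 : ∀ N, 0 < q N := fun N => by have := hq N; omega
  have hqr : ∀ N, (0 : ℝ) < q N := fun N => by exact_mod_cast hq0 N
  set S : Set ℝ := {x | ∃ᶠ N in atTop, x ∈ E N} with hS
  set w : ℕ → ENNReal := fun N => volume (E' N) * ENNReal.ofReal (((b - a) / q N) ^ (d - 1)) with hw
  have hr : Tendsto (fun M : ℕ => ENNReal.ofReal ((b - a) / (M + 1))) atTop (𝓝 0) := by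
    rw [← ENNReal.ofReal_zero]
    apply ENNReal.tendsto_ofReal
    exact Tendsto.div_atTop tendsto_const_nhds (tendsto_atTop_add_const_right _ _ tendsto_natCast_atTop_atTop)
  set t : (M : ℕ) → ℕ × ℕ → Set ℝ := fun M p => if p.2 < q (p.1 + M) then cell a b (q (p.1 + M)) p.2 ∩ E (p.1 + M) else ∅ with ht
  have hdiam : ∀ M (p : ℕ × ℕ), Metric.ediam (t M p) ≤ ENNReal.ofReal ((b - a) / (M + 1)) := by
    intro M p
    rw [ht]
    simp only
    split_ifs with h
    · refine (Metric.ediam_mono inter_subset_left).trans ?_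
      rw [cell_ediam]
      apply ENNReal.ofReal_le_ofReal
      apply div_le_div_of_nonneg_left hba.le (by positivity)
      have h1 := hq (p.1 + M)
      have h2 : M + 1 ≤ q (p.1 + M) := by omega
      exact_mod_cast h2
    · simp
  have hcov : ∀ M, S ⊆ ⋃ p, t M p := by
    intro M x hx
    obtain ⟨N, hN, hxN⟩ := (Filter.frequently_atTop.1 hx) M
    obtain ⟨k, rfl⟩ := Nat.exists_eq_add_of_le' hN
    obtain ⟨i, hi, hxi⟩ := cell_cover hab (hq0 (k + M)) (hE _ hxN)
    refine mem_iUnion.2 ⟨(k, i), ?_⟩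
    rw [ht]
    simp only
    rw [if_pos hi]
    exact ⟨hxi, hxN⟩
  have hmain := Measure.hausdorffMeasure_le_liminf_tsum (X := ℝ) d S (l := (atTop : Filter ℕ))
    (fun M => ENNReal.ofReal ((b - a) / (M + 1))) hr t (Eventually.of_forall hdiam) (Eventually.of_forall hcov)
  -- one level
  have hone : ∀ N, ∑' i : ℕ, Metric.ediam (if i < q N then cell a b (q N) i ∩ E N else ∅) ^ d ≤ w N := by
    intro N
    classical
    set h : ℝ := (b - a) / q N with hh
    have hh0 : 0 < h := div_pos hba (hqr N)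
    set B : Finset ℕ := (range (q N)).filter (fun i => (cell a b (q N) i ∩ E N).Nonempty) with hB
    have h1 : ∑' i : ℕ, Metric.ediam (if i < q N then cell a b (q N) i ∩ E N else ∅) ^ d ≤
        ∑ i ∈ B, ENNReal.ofReal h ^ d := by
      rw [tsum_eq_sum (s := B)]
      · refine sum_le_sum fun i hi => ?_
        rw [hB, Finset.mem_filter, Finset.mem_range] at hi
        rw [if_pos hi.1]
        apply ENNReal.rpow_le_rpow _ hd.le
        rw [hh, ← cell_ediam a b (q N) i]
        exact Metric.ediam_mono inter_subset_left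
      · intro i hi
        rw [hB, Finset.mem_filter, Finset.mem_range, not_and] at hi
        by_cases hiq : i < q N
        · rw [if_pos hiq, Set.not_nonempty_iff_eq_empty.1 (hi hiq), Metric.ediam_empty, ENNReal.zero_rpow_of_pos hd]
        · rw [if_neg hiq, Metric.ediam_empty, ENNReal.zero_rpow_of_pos hd]
    refine h1.trans ?_
    rw [sum_const, nsmul_eq_mul]
    -- the number of cells
    have h2 : (B.card : ENNReal) * ENNReal.ofReal h ≤ volume (E' N) := by
      have hmono : Monotone fun n : ℕ => a + n * h := fun m n hmn => by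
        have : (m : ℝ) ≤ n := by exact_mod_cast hmn
        have := mul_le_mul_of_nonneg_right this hh0.le
        show a + m * h ≤ a + n * h
        linarith
      have hdisj := hmono.pairwise_disjoint_on_Ico_succ
      have h3 : volume (⋃ i ∈ B, Ico (a + (i : ℕ) * h) (a + ((i : ℕ) + 1 : ℕ) * h)) = ∑ i ∈ B, volume (Ico (a + (i : ℕ) * h) (a + ((i : ℕ) + 1 : ℕ) * h)) := by
        rw [measure_biUnion_finset]
        · intro i _ j _ hij
          exact hdisj hij
        · intro i _
          exact measurableSet_Ico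
      have h4 : ∑ i ∈ B, volume (Ico (a + (i : ℕ) * h) (a + ((i : ℕ) + 1 : ℕ) * h)) = (B.card : ENNReal) * ENNReal.ofReal h := by
        rw [sum_congr rfl (g := fun _ => ENNReal.ofReal h) fun i _ => by
          rw [Real.volume_Ico]
          congr 1
          push_cast
          ring, sum_const, nsmul_eq_mul]
      rw [← h4, ← h3]
      apply measure_mono
      intro x hx
      rw [mem_iUnion₂] at hx
      obtain ⟨i, hi, hxi⟩ := hx
      rw [hB, Finset.mem_filter, Finset.mem_range] at hi
      obtain ⟨y, hy1, hy2⟩ := hi.2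
      have hxc : x ∈ cell a b (q N) i := ⟨hxi.1, hxi.2.le⟩
      refine hcell N y hy2 x (cell_sub hab hi.1 hxc) ?_
      have h5 : y ∈ Icc (a + i * h) (a + ((i : ℕ) + 1 : ℕ) * h) := hy1
      have h6 := h5.1
      have h7 := h5.2
      have h8 := hxi.1
      have h9 := hxi.2.le
      push_cast at h7 h9
      rw [← hh, abs_le]
      constructor <;> linarith
    have h3 : ENNReal.ofReal h ^ d = ENNReal.ofReal h * ENNReal.ofReal (h ^ (d - 1)) := by
      rw [ENNReal.ofReal_rpow_of_pos hh0, ← ENNReal.ofReal_mul hh0.le]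
      congr 1
      rw [mul_comm, ← Real.rpow_add_one hh0.ne']
      congr 1
      ring
    rw [h3, ← mul_assoc]
    exact mul_le_mul' h2 le_rfl
  have htail : ∀ M, ∑' p : ℕ × ℕ, Metric.ediam (t M p) ^ d ≤ ∑' k, w (k + M) := by
    intro M
    rw [ENNReal.tsum_prod']
    exact ENNReal.tsum_le_tsum fun k => hone (k + M)
  have hlim := ENNReal.tendsto_sum_nat_add w hsum
  have h0 : liminf (fun M => ∑' p : ℕ × ℕ, Metric.ediam (t M p) ^ d) atTop ≤ 0 := by
    rw [← hlim.liminf_eq]
    exact liminf_le_liminf (Eventually.of_forall htail)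
  exact le_antisymm (hmain.trans h0) zero_le

end Pool.Agent.Helper82.FK
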