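import Pool.Agent.Helper82.FK.Ld2
import Pool.Agent.Helper82.FK.Cells

/-!
# Hausdorff dimension of the set of large exponential sums
-/

set_option autoImplicit false

namespace Pool.Agent.Helper82.FK

open MeasureTheory Set Filter Topology Finset Polynomial

theorem norm_e_sub (u v : ℝ) : ‖e u - e v‖ ≤ 2 * Real.pi * |u - v| := by
  have h : e u - e v = e v * (e (u - v) - 1) := by
    rw [mul_sub, mul_one, ← e_add]
    congr 2
    ring
  rw [h, norm_mul, norm_e, one_mul]
  have h1 := Real.norm_exp_I_mul_ofReal_sub_one_le (x := 2 * Real.pi * (u - v))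
  have h2 : e (u - v) = Complex.exp (Complex.I * ((2 * Real.pi * (u - v) : ℝ) : ℂ)) := by
    unfold e
    rw [mul_comm]
  rw [h2]
  refine h1.trans (le_of_eq ?_)
  rw [Real.norm_eq_abs, abs_mul, abs_of_pos (by have := Real.pi_pos; positivity)]

/-- Lipschitz bound of one term -/
theorem term_lip {a b : ℝ} (ha : 1 ≤ a) (P : ℝ[X]) :
    ∃ D : ℝ, 0 < D ∧ ∀ t : ℕ, ∀ x ∈ Icc a b, ∀ y ∈ Icc a b,
      |P.eval x * x ^ t - P.eval y * y ^ t| ≤ D * (1 + t) * b ^ t * |x - y| := by
  obtain ⟨D, hD⟩ := isCompact_Icc.exists_bound_of_continuousOn (s := Icc a b)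
    (f := fun x => |P.eval x| + |P.derivative.eval x|) (P.continuous.abs.add P.derivative.continuous.abs).continuousOn
  refine ⟨|D| + 1, by positivity, fun t x hx y hy => ?_⟩
  have h := (convex_Icc a b).norm_image_sub_le_of_norm_hasDerivWithin_le (f := fun x : ℝ => P.eval x * x ^ t)
    (f' := fun x => d1 P t x) (C := (|D| + 1) * (1 + t) * b ^ t)
    (fun z hz => (hasDerivAt_term (by linarith [hz.1]) P t).hasDerivWithinAt) (fun z hz => by
      have hz0 : 0 < z := by linarith [hz.1]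
      have hz1 : 1 ≤ z := ha.trans hz.1
      have h1 := hD z hz
      rw [Real.norm_eq_abs, abs_of_nonneg (by positivity)] at h1
      have h2 : |P.eval z| ≤ |D| + 1 := by linarith [abs_nonneg (P.derivative.eval z), le_abs_self D]
      have h3 : |P.derivative.eval z| ≤ |D| + 1 := by linarith [abs_nonneg (P.eval z), le_abs_self D]
      have h4 : z ^ t ≤ b ^ t := pow_le_pow_left₀ hz0.le hz.2 t
      unfold d1
      rw [Real.norm_eq_abs]
      refine (abs_add_le _ _).trans ?_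
      rw [abs_mul, abs_mul, abs_of_pos (pow_pos hz0 t), abs_of_nonneg (by positivity : 0 ≤ (t : ℝ) * z ^ t / z)]
      have h5 : (t : ℝ) * z ^ t / z ≤ t * b ^ t := by
        refine (div_le_self (by positivity) hz1).trans ?_
        gcongr
      calc |P.derivative.eval z| * z ^ t + |P.eval z| * (t * z ^ t / z) ≤ (|D| + 1) * b ^ t + (|D| + 1) * (t * b ^ t) := by
            gcongr
        _ = _ := by ring) hy hx
  simpa [Real.norm_eq_abs] using h

theorem sum_lip {a b : ℝ} (ha : 1 ≤ a) (hab : a ≤ b) (P : ℝ[X]) :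
    ∃ D : ℝ, 0 < D ∧ ∀ (s : ℕ → ℕ) (A : ℝ), 1 ≤ A → (∀ k, (s k : ℝ) ≤ A * (k + 1)) → ∀ (c : ℕ → ℝ) (N : ℕ),
      ∀ x ∈ Icc a b, ∀ y ∈ Icc a b, ‖∑ k ∈ range N, e (P.eval x * x ^ s k + c k) - ∑ k ∈ range N, e (P.eval y * y ^ s k + c k)‖ ≤
        N * (D * (A * (N + 1)) * b ^ (A * N) * |x - y|) := by
  obtain ⟨D, hD0, hD⟩ := term_lip ha P (b := b)
  have hb1 : 1 ≤ b := ha.trans hab
  refine ⟨2 * Real.pi * D, by have := Real.pi_pos; positivity, ?_⟩
  intro s A hA hs c N x hx y hy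
  rw [← sum_sub_distrib]
  refine (norm_sum_le _ _).trans ?_
  have h1 : ∀ k ∈ range N, ‖e (P.eval x * x ^ s k + c k) - e (P.eval y * y ^ s k + c k)‖ ≤
      2 * Real.pi * D * (A * (N + 1)) * b ^ (A * N) * |x - y| := by
    intro k hk
    have hk' : (k : ℝ) + 1 ≤ N := by exact_mod_cast Finset.mem_range.1 hk
    have h2 : (s k : ℝ) ≤ A * N := (hs k).trans (by gcongr)
    refine (norm_e_sub _ _).trans ?_
    have h3 : P.eval x * x ^ s k + c k - (P.eval y * y ^ s k + c k) = P.eval x * x ^ s k - P.eval y * y ^ s k := by ring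
    rw [h3]
    have h4 := hD (s k) x hx y hy
    have h5 : (b : ℝ) ^ (s k) ≤ b ^ (A * N) := by
      rw [← Real.rpow_natCast]
      exact Real.rpow_le_rpow_of_exponent_le hb1 h2
    have h6 : (1 : ℝ) + s k ≤ A * (N + 1) := by linarith
    calc 2 * Real.pi * |P.eval x * x ^ s k - P.eval y * y ^ s k| ≤ 2 * Real.pi * (D * (1 + s k) * b ^ s k * |x - y|) := by
          have := Real.pi_pos
          gcongr
      _ ≤ 2 * Real.pi * (D * (A * (N + 1)) * b ^ (A * N) * |x - y|) := by
          have := Real.pi_pos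
          gcongr
      _ = _ := by ring
  refine (sum_le_card_nsmul _ _ _ h1).trans (le_of_eq ?_)
  rw [card_range, nsmul_eq_mul]

/-- summability for the covering -/
theorem summable_aux {η : ℝ} (hη : 0 < η) : Summable fun N : ℕ => ((N : ℝ) + 1) * Real.exp (-(η * N)) := by
  have h1 : ‖Real.exp (-η)‖ < 1 := by
    rw [Real.norm_eq_abs, abs_of_pos (Real.exp_pos _), Real.exp_lt_one_iff]
    linarith
  have h2 := summable_pow_mul_geometric_of_norm_lt_one 1 h1
  have h3 := summable_pow_mul_geometric_of_norm_lt_one 0 h1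
  refine (h2.add h3).congr fun N => ?_
  rw [pow_one, pow_zero, one_mul, ← Real.exp_nat_mul, add_mul, one_mul]
  congr 2
  · congr 1
    ring
  · ring

theorem dim_large {a : ℝ} (ha : 1 < a) : ∃ κ : ℝ, 0 < κ ∧ ∀ b : ℝ, a < b → ∀ P : ℝ[X], (∀ x ∈ Icc a b, P.eval x ≠ 0) →
    ∀ (s : ℕ → ℕ), StrictMono s → ∀ A : ℝ, 1 ≤ A → (∀ k, (s k : ℝ) ≤ A * (k + 1)) → ∀ (c : ℕ → ℝ) (δ : ℝ), 0 < δ → δ ≤ 1 →
      dimH {x | x ∈ Icc a b ∧ ∃ᶠ N : ℕ in atTop, δ * N ≤ ‖∑ k ∈ range N, e (P.eval x * x ^ s k + c k)‖} ≤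
        ENNReal.ofReal (1 - κ * δ ^ 2 / (A * Real.log b)) := by
  obtain ⟨κ₀, hκ₀, hld⟩ := ld ha
  refine ⟨κ₀ / 4, by positivity, ?_⟩
  intro b hab P hP s hs A hA hsA c δ hδ hδ1
  have hb1 : 1 < b := ha.trans hab
  have hlb : 0 < Real.log b := Real.log_pos hb1
  have hba : 0 < b - a := by linarith
  obtain ⟨C, hC0, hC⟩ := hld b hab.le P hP
  obtain ⟨D, hD0, hD⟩ := sum_lip ha.le hab.le P
  set S : ℕ → ℝ → ℂ := fun N x => ∑ k ∈ range N, e (P.eval x * x ^ s k + c k) with hS
  set G : Set ℝ := {x | x ∈ Icc a b ∧ ∃ᶠ N : ℕ in atTop, δ * N ≤ ‖S N x‖} with hG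
  have hmain : ∀ d : ℝ, 0 < d → 1 - κ₀ / 4 * δ ^ 2 / (A * Real.log b) < d → dimH G ≤ ENNReal.ofReal d := by
    intro d hd0 hd
    rcases le_or_gt 1 d with hd1 | hd1
    · refine (dimH_mono (subset_univ G)).trans ?_
      rw [Real.dimH_univ, ENNReal.one_le_ofReal]
      exact hd1
    -- the exponent
    set η : ℝ := κ₀ / 4 * δ ^ 2 - (1 - d) * (A * Real.log b) with hη
    have hη0 : 0 < η := by
      have hAl : 0 < A * Real.log b := by positivity
      have h1 : 1 - d < κ₀ / 4 * δ ^ 2 / (A * Real.log b) := by linarith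
      rw [lt_div_iff₀ hAl] at h1
      linarith
    set M₀ : ℝ := (b - a) * (2 * D * A) / δ + 2 with hM₀
    have hM₀0 : 0 < M₀ := by positivity
    set q : ℕ → ℕ := fun N => ⌈(b - a) * (2 * (D * (A * (N + 1)) * b ^ (A * N))) / δ⌉₊ + (N + 1) with hq
    have hq1 : ∀ N, N + 1 ≤ q N := fun N => Nat.le_add_left _ _
    have hqlow : ∀ N : ℕ, (b - a) * (2 * (D * (A * ((N : ℝ) + 1)) * b ^ (A * (N : ℝ)))) / δ ≤ (q N : ℝ) := by
      intro N
      have h1 := Nat.le_ceil ((b - a) * (2 * (D * (A * ((N : ℝ) + 1)) * b ^ (A * N))) / δ)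
      have h2 : ((⌈(b - a) * (2 * (D * (A * ((N : ℝ) + 1)) * b ^ (A * N))) / δ⌉₊ : ℕ) : ℝ) ≤ q N := by
        exact Nat.cast_le.2 (Nat.le_add_right _ _)
      exact h1.trans h2
    have hbA : ∀ N : ℕ, (1 : ℝ) ≤ b ^ (A * N) := fun N => Real.one_le_rpow hb1.le (by positivity)
    have hqup : ∀ N : ℕ, (q N : ℝ) ≤ M₀ * ((N + 1) * b ^ (A * N)) := by
      intro N
      have h1 := (Nat.ceil_lt_add_one (show 0 ≤ (b - a) * (2 * (D * (A * ((N : ℝ) + 1)) * b ^ (A * N))) / δ by positivity)).le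
      have h2 : (q N : ℝ) = (⌈(b - a) * (2 * (D * (A * ((N : ℝ) + 1)) * b ^ (A * N))) / δ⌉₊ : ℕ) + ((N : ℝ) + 1) := by
        rw [hq]
        push_cast
        ring
      rw [h2]
      have h3 : (1 : ℝ) ≤ (N + 1) * b ^ (A * N) := by
        have := hbA N
        have h4 : (0 : ℝ) ≤ N := by positivity
        nlinarith
      have h4 : (N : ℝ) + 1 ≤ (N + 1) * b ^ (A * N) := by
        have := hbA N
        have h5 : (0 : ℝ) ≤ N := by positivity
        nlinarith
      have h5 : (b - a) * (2 * (D * (A * ((N : ℝ) + 1)) * b ^ (A * N))) / δ = (b - a) * (2 * D * A) / δ * ((N + 1) * b ^ (A * N)) := by ring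
      rw [h5] at h1 ⊢
      rw [hM₀]
      linarith
    have hqr : ∀ N, (0 : ℝ) < q N := fun N => by
      have := hq1 N
      have : 0 < q N := by omega
      exact_mod_cast this
    set E : ℕ → Set ℝ := fun N => {x | x ∈ Icc a b ∧ 1 ≤ N ∧ δ * N ≤ ‖S N x‖} with hE
    set E' : ℕ → Set ℝ := fun N => {x ∈ Icc a b | δ / 2 * N ≤ ‖S N x‖} with hE'
    have hGE : G ⊆ {x | ∃ᶠ N in atTop, x ∈ E N} := by
      rintro x ⟨hx, hfr⟩
      exact (hfr.and_eventually (eventually_ge_atTop 1)).mono fun N hN => ⟨hx, hN.2, hN.1⟩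
    have hnull := limsup_null hab (E := E) (E' := E') hq1 (fun N x hx => hx.1) (fun N x hx y hy hxy => ?_) hd0 ?_
    · have hd' : ((Real.toNNReal d : NNReal) : ℝ) = d := Real.coe_toNNReal d hd0.le
      have h0 : Measure.hausdorffMeasure ((Real.toNNReal d : NNReal) : ℝ) G = 0 := by
        rw [hd']
        exact measure_mono_null hGE hnull
      have h1 := dimH_le_of_hausdorffMeasure_ne_top (d := Real.toNNReal d) (s := G) (by rw [h0]; exact ENNReal.zero_ne_top)
      exact h1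
    · -- cells
      refine ⟨hy, ?_⟩
      have hNr : (1 : ℝ) ≤ N := by exact_mod_cast hx.2.1
      have h1 := hD s A hA hsA c N x hx.1 y hy
      have h2 : (D * (A * ((N : ℝ) + 1)) * b ^ (A * N) * |x - y|) ≤ δ / 2 := by
        have h3 := hqlow N
        have h4 : |x - y| * q N ≤ b - a := by
          rwa [le_div_iff₀ (hqr N)] at hxy
        have h5 : (b - a) * (2 * (D * (A * ((N : ℝ) + 1)) * b ^ (A * N))) ≤ q N * δ := by
          rwa [div_le_iff₀ hδ] at h3
        have h6 : |x - y| * ((b - a) * (2 * (D * (A * ((N : ℝ) + 1)) * b ^ (A * N)))) ≤ (b - a) * δ := by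
          calc |x - y| * ((b - a) * (2 * (D * (A * ((N : ℝ) + 1)) * b ^ (A * N)))) ≤ |x - y| * (q N * δ) := by gcongr
            _ = (|x - y| * q N) * δ := by ring
            _ ≤ (b - a) * δ := by gcongr
        have h7 : (b - a) * (|x - y| * (2 * (D * (A * ((N : ℝ) + 1)) * b ^ (A * N)))) ≤ (b - a) * δ := by linarith
        have h8 := le_of_mul_le_mul_left h7 hba
        linarith
      have h3 : ‖S N x - S N y‖ ≤ N * (δ / 2) := h1.trans (by gcongr)
      have h4 := norm_sub_norm_le (S N x) (S N y)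
      have h5 := hx.2.2
      show δ / 2 * N ≤ ‖S N y‖
      linarith
    · -- summability
      have hb : ∀ N, volume (E' N) * ENNReal.ofReal (((b - a) / q N) ^ (d - 1)) ≤
          ENNReal.ofReal (C * (M₀ / (b - a)) ^ (1 - d) * (((N : ℝ) + 1) * Real.exp (-(η * N)))) := by
        intro N
        have h1 := hC s hs c (δ / 2) (by positivity) (by linarith) N
        refine (mul_le_mul' h1 le_rfl).trans ?_
        rw [← ENNReal.ofReal_mul (by positivity)]
        apply ENNReal.ofReal_le_ofReal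
        have h2 : ((b - a) / (q N : ℝ)) ^ (d - 1) = ((q N : ℝ) / (b - a)) ^ (1 - d) := by
          rw [show d - 1 = -(1 - d) by ring, Real.rpow_neg (by positivity), ← Real.inv_rpow (by positivity), inv_div]
        have h3 : ((q N : ℝ) / (b - a)) ^ (1 - d) ≤ (M₀ / (b - a)) ^ (1 - d) * (((N : ℝ) + 1) * Real.exp ((1 - d) * (A * Real.log b) * N)) := by
          have h4 : (q N : ℝ) / (b - a) ≤ M₀ / (b - a) * ((N + 1) * b ^ (A * N)) := by
            rw [div_mul_eq_mul_div]
            apply div_le_div_of_nonneg_right (hqup N) hba.le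
          have h5 : ((q N : ℝ) / (b - a)) ^ (1 - d) ≤ (M₀ / (b - a) * ((N + 1) * b ^ (A * N))) ^ (1 - d) :=
            Real.rpow_le_rpow (by positivity) h4 (by linarith)
          refine h5.trans ?_
          rw [Real.mul_rpow (by positivity) (by positivity), Real.mul_rpow (by positivity) (by positivity)]
          have h6 : ((N : ℝ) + 1) ^ (1 - d) ≤ (N : ℝ) + 1 := by
            have : ((N : ℝ) + 1) ^ (1 - d) ≤ ((N : ℝ) + 1) ^ (1 : ℝ) :=
              Real.rpow_le_rpow_of_exponent_le (by linarith [(Nat.cast_nonneg N : (0 : ℝ) ≤ N)]) (by linarith)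
            rwa [Real.rpow_one] at this
          have h7 : (b ^ (A * (N : ℝ))) ^ (1 - d) = Real.exp ((1 - d) * (A * Real.log b) * N) := by
            rw [← Real.rpow_mul (by linarith), Real.rpow_def_of_pos (by linarith)]
            congr 1
            ring
          rw [h7]
          gcongr
        rw [h2]
        have h8 : Real.exp (-(κ₀ * (δ / 2) ^ 2 * N)) * Real.exp ((1 - d) * (A * Real.log b) * N) = Real.exp (-(η * N)) := by
          rw [← Real.exp_add]
          congr 1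
          rw [hη]
          ring
        calc C * Real.exp (-(κ₀ * (δ / 2) ^ 2 * N)) * ((q N : ℝ) / (b - a)) ^ (1 - d) ≤
            C * Real.exp (-(κ₀ * (δ / 2) ^ 2 * N)) * ((M₀ / (b - a)) ^ (1 - d) * (((N : ℝ) + 1) * Real.exp ((1 - d) * (A * Real.log b) * N))) := by
              gcongr
          _ = C * (M₀ / (b - a)) ^ (1 - d) * (((N : ℝ) + 1) * (Real.exp (-(κ₀ * (δ / 2) ^ 2 * N)) * Real.exp ((1 - d) * (A * Real.log b) * N))) := by ring
          _ = _ := by rw [h8]
      refine ne_top_of_le_ne_top ?_ (ENNReal.tsum_le_tsum hb)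
      rw [← ENNReal.ofReal_tsum_of_nonneg (fun N => by positivity) ((summable_aux hη0).mul_left _)]
      exact ENNReal.ofReal_ne_top
  apply ENNReal.le_of_forall_pos_le_add
  intro ε hε _
  have hε' : (0 : ℝ) < ε := hε
  set D₀ : ℝ := 1 - κ₀ / 4 * δ ^ 2 / (A * Real.log b) with hD₀
  refine (hmain (max D₀ 0 + ε) (by positivity) (by linarith [le_max_left D₀ 0])).trans ?_
  rw [ENNReal.ofReal_add (le_max_right _ _) hε'.le]
  apply add_le_add
  · rcases le_total D₀ 0 with h | h
    · rw [max_eq_right h]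
      simp
    · rw [max_eq_left h]
  · rw [ENNReal.ofReal_coe_nnreal]

end Pool.Agent.Helper82.FK
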