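import Mathlib

/-!
# The first-derivative test for oscillatory integrals
-/

set_option autoImplicit false

namespace Pool.Agent.Helper82.FK

open MeasureTheory Set intervalIntegral

/-- `e(y) = exp(2πiy)` -/
noncomputable def e (y : ℝ) : ℂ := Complex.exp ((2 * Real.pi * y : ℝ) * Complex.I)

theorem norm_e (y : ℝ) : ‖e y‖ = 1 := Complex.norm_exp_ofReal_mul_I _

theorem e_add (x y : ℝ) : e (x + y) = e x * e y := by
  unfold e
  rw [← Complex.exp_add]
  congr 1
  push_cast
  ring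

theorem e_zero : e 0 = 1 := by
  unfold e
  simp

theorem continuous_e : Continuous e := by
  unfold e
  fun_prop

theorem hasDerivAt_e {G : ℝ → ℝ} {G' x : ℝ} (h : HasDerivAt G G' x) :
    HasDerivAt (fun x => e (G x)) (((2 * Real.pi * G' : ℝ) : ℂ) * Complex.I * e (G x)) x := by
  have h1 : HasDerivAt (fun x : ℝ => ((2 * Real.pi * G x : ℝ) : ℂ) * Complex.I)
      (((2 * Real.pi * G' : ℝ) : ℂ) * Complex.I) x :=
    ((h.const_mul (2 * Real.pi)).ofReal_comp).mul_const Complex.I
  have h2 := h1.cexp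
  have h3 : Complex.exp (((2 * Real.pi * G x : ℝ) : ℂ) * Complex.I) * (((2 * Real.pi * G' : ℝ) : ℂ) * Complex.I)
      = ((2 * Real.pi * G' : ℝ) : ℂ) * Complex.I * e (G x) := by
    unfold e
    ring
  rw [h3] at h2
  exact h2

/-- first-derivative test -/
theorem vc1 {a b : ℝ} (hab : a ≤ b) {G G' G'' : ℝ → ℝ} (h1 : ∀ x ∈ Icc a b, HasDerivAt G (G' x) x)
    (h2 : ∀ x ∈ Icc a b, HasDerivAt G' (G'' x) x) (hc : ContinuousOn G'' (Icc a b)) {m V : ℝ}
    (hm : 0 < m) (hG' : ∀ x ∈ Icc a b, m ≤ |G' x|) (hV : ∀ x ∈ Icc a b, |G'' x| ≤ V * (G' x) ^ 2) :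
    ‖∫ x in a..b, e (G x)‖ ≤ (2 / m + V * (b - a)) / (2 * Real.pi) := by
  have hpi := Real.pi_pos
  have hne : ∀ x ∈ Icc a b, G' x ≠ 0 := fun x hx h0 => by
    have := hG' x hx
    rw [h0, abs_zero] at this
    linarith
  have hu : uIcc a b = Icc a b := uIcc_of_le hab
  set u : ℝ → ℂ := fun x => (((2 * Real.pi * G' x)⁻¹ : ℝ) : ℂ) * (-Complex.I) with hu_def
  set u' : ℝ → ℂ := fun x => ((-(2 * Real.pi * G'' x) / (2 * Real.pi * G' x) ^ 2 : ℝ) : ℂ) * (-Complex.I) with hu'_def
  set v' : ℝ → ℂ := fun x => ((2 * Real.pi * G' x : ℝ) : ℂ) * Complex.I * e (G x) with hv'_def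
  have hGc : ContinuousOn G (Icc a b) := fun x hx => (h1 x hx).continuousAt.continuousWithinAt
  have hG'c : ContinuousOn G' (Icc a b) := fun x hx => (h2 x hx).continuousAt.continuousWithinAt
  have hdu : ∀ x ∈ uIcc a b, HasDerivAt u (u' x) x := by
    intro x hx
    rw [hu] at hx
    have h3 : HasDerivAt (fun x => (2 * Real.pi * G' x)⁻¹) (-(2 * Real.pi * G'' x) / (2 * Real.pi * G' x) ^ 2) x :=
      ((h2 x hx).const_mul (2 * Real.pi)).inv (by
        have := hne x hx
        positivity)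
    exact h3.ofReal_comp.mul_const _
  have hdv : ∀ x ∈ uIcc a b, HasDerivAt (fun x => e (G x)) (v' x) x := by
    intro x hx
    rw [hu] at hx
    exact hasDerivAt_e (h1 x hx)
  have hcu' : IntervalIntegrable u' volume a b := by
    apply ContinuousOn.intervalIntegrable
    rw [hu]
    refine ContinuousOn.mul ?_ continuousOn_const
    refine Complex.continuous_ofReal.comp_continuousOn ?_
    refine ContinuousOn.div (by fun_prop) (by fun_prop) fun x hx => ?_
    have := hne x hx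
    positivity
  have hcv' : IntervalIntegrable v' volume a b := by
    apply ContinuousOn.intervalIntegrable
    rw [hu]
    refine ContinuousOn.mul (ContinuousOn.mul ?_ continuousOn_const) ?_
    · exact Complex.continuous_ofReal.comp_continuousOn (by fun_prop)
    · exact continuous_e.comp_continuousOn hGc
  have hI := integral_mul_deriv_eq_deriv_mul hdu hdv hcu' hcv'
  have h3 : ∫ x in a..b, u x * v' x = ∫ x in a..b, e (G x) := by
    apply integral_congr
    intro x hx
    rw [hu] at hx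
    have h4 := hne x hx
    have h5 : ((2 * Real.pi * G' x : ℝ) : ℂ) ≠ 0 := by
      rw [Complex.ofReal_ne_zero]
      positivity
    show (((2 * Real.pi * G' x)⁻¹ : ℝ) : ℂ) * (-Complex.I) * (((2 * Real.pi * G' x : ℝ) : ℂ) * Complex.I * e (G x)) = e (G x)
    rw [Complex.ofReal_inv]
    calc (((2 * Real.pi * G' x : ℝ) : ℂ))⁻¹ * (-Complex.I) * (((2 * Real.pi * G' x : ℝ) : ℂ) * Complex.I * e (G x))
        = ((((2 * Real.pi * G' x : ℝ) : ℂ))⁻¹ * ((2 * Real.pi * G' x : ℝ) : ℂ)) * (-(Complex.I * Complex.I)) * e (G x) := by ring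
      _ = e (G x) := by rw [inv_mul_cancel₀ h5, Complex.I_mul_I]; ring
  rw [h3] at hI
  rw [hI]
  have hub : ∀ x ∈ Icc a b, ‖u x‖ ≤ 1 / (2 * Real.pi * m) := by
    intro x hx
    show ‖(((2 * Real.pi * G' x)⁻¹ : ℝ) : ℂ) * (-Complex.I)‖ ≤ _
    rw [norm_mul, norm_neg, Complex.norm_I, mul_one, Complex.norm_real, Real.norm_eq_abs, abs_inv, abs_mul,
      abs_of_pos (by positivity : (0 : ℝ) < 2 * Real.pi), one_div]
    apply inv_anti₀ (by positivity)
    have := hG' x hx
    gcongr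
  have h4 : ‖∫ x in a..b, u' x * e (G x)‖ ≤ V / (2 * Real.pi) * |b - a| := by
    apply intervalIntegral.norm_integral_le_of_norm_le_const
    intro x hx
    rw [uIoc_of_le hab] at hx
    have hx' : x ∈ Icc a b := Ioc_subset_Icc_self hx
    rw [norm_mul, norm_e, mul_one]
    show ‖((-(2 * Real.pi * G'' x) / (2 * Real.pi * G' x) ^ 2 : ℝ) : ℂ) * (-Complex.I)‖ ≤ _
    rw [norm_mul, norm_neg, Complex.norm_I, mul_one, Complex.norm_real, Real.norm_eq_abs, abs_div, abs_neg, abs_mul,
      abs_of_pos (by positivity : (0 : ℝ) < 2 * Real.pi), abs_of_nonneg (sq_nonneg (2 * Real.pi * G' x))]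
    have h5 := hV x hx'
    have h6 := hne x hx'
    have h7 : 0 < (G' x) ^ 2 := by positivity
    rw [mul_pow, div_le_div_iff₀ (by positivity) (by positivity)]
    nlinarith [mul_le_mul_of_nonneg_left h5 (by positivity : (0 : ℝ) ≤ (2 * Real.pi) ^ 2)]
  have ha' : a ∈ Icc a b := left_mem_Icc.2 hab
  have hb' : b ∈ Icc a b := right_mem_Icc.2 hab
  have h5 : ‖u b * e (G b)‖ ≤ 1 / (2 * Real.pi * m) := by
    rw [norm_mul, norm_e, mul_one]
    exact hub b hb'
  have h6 : ‖u a * e (G a)‖ ≤ 1 / (2 * Real.pi * m) := by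
    rw [norm_mul, norm_e, mul_one]
    exact hub a ha'
  refine (norm_sub_le _ _).trans ?_
  refine (add_le_add (norm_sub_le _ _) h4).trans ?_
  rw [abs_of_nonneg (sub_nonneg.2 hab)]
  refine (add_le_add (add_le_add h5 h6) le_rfl).trans (le_of_eq ?_)
  field_simp
  ring

end Pool.Agent.Helper82.FK
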