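import Pool.Agent.Helper82.FK.VC

/-!
# The second-derivative test
-/

set_option autoImplicit false

namespace Pool.Agent.Helper82.FK

open MeasureTheory Set intervalIntegral

/-- first-derivative test for a monotone derivative -/
theorem vc1m {a b : ℝ} (hab : a ≤ b) {G G' G'' : ℝ → ℝ} (h1 : ∀ x ∈ Icc a b, HasDerivAt G (G' x) x)
    (h2 : ∀ x ∈ Icc a b, HasDerivAt G' (G'' x) x) (hc : ContinuousOn G'' (Icc a b)) {m : ℝ}
    (hm : 0 < m) (hG' : ∀ x ∈ Icc a b, m ≤ |G' x|) (hV : ∀ x ∈ Icc a b, 0 ≤ G'' x) :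
    ‖∫ x in a..b, e (G x)‖ ≤ 4 / m / (2 * Real.pi) := by
  have hpi := Real.pi_pos
  have hne : ∀ x ∈ Icc a b, G' x ≠ 0 := fun x hx h0 => by
    have := hG' x hx
    rw [h0, abs_zero] at this
    linarith
  have hu : uIcc a b = Icc a b := uIcc_of_le hab
  set u : ℝ → ℂ := fun x => (((2 * Real.pi * G' x)⁻¹ : ℝ) : ℂ) * (-Complex.I) with hu_def
  set u' : ℝ → ℂ := fun x => ((-(2 * Real.pi * G'' x) / (2 * Real.pi * G' x) ^ 2 : ℝ) : ℂ) * (-Complex.I) with hu'_def
  set v' : ℝ → ℂ := fun x => ((2 * Real.pi * G' x : ℝ) : ℂ) * Complex.I * e (G x) with hv'_def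
  have hGc : ContinuousOn G (Icc a b) := fun x hx => (h1 x hx).continuousAt.continuousWithinAt
  have hG'c : ContinuousOn G' (Icc a b) := fun x hx => (h2 x hx).continuousAt.continuousWithinAt
  have hdr : ∀ x ∈ uIcc a b, HasDerivAt (fun x => (2 * Real.pi * G' x)⁻¹) (-(2 * Real.pi * G'' x) / (2 * Real.pi * G' x) ^ 2) x := by
    intro x hx
    rw [hu] at hx
    exact ((h2 x hx).const_mul (2 * Real.pi)).inv (by
        have := hne x hx
        positivity)
  have hdu : ∀ x ∈ uIcc a b, HasDerivAt u (u' x) x := fun x hx => (hdr x hx).ofReal_comp.mul_const _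
  have hdv : ∀ x ∈ uIcc a b, HasDerivAt (fun x => e (G x)) (v' x) x := by
    intro x hx
    rw [hu] at hx
    exact hasDerivAt_e (h1 x hx)
  have hcr : ContinuousOn (fun x => -(2 * Real.pi * G'' x) / (2 * Real.pi * G' x) ^ 2) (uIcc a b) := by
    rw [hu]
    refine ContinuousOn.div (by fun_prop) (by fun_prop) fun x hx => ?_
    have := hne x hx
    positivity
  have hcu' : IntervalIntegrable u' volume a b := by
    apply ContinuousOn.intervalIntegrable
    exact ContinuousOn.mul (Complex.continuous_ofReal.comp_continuousOn hcr) continuousOn_const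
  have hcv' : IntervalIntegrable v' volume a b := by
    apply ContinuousOn.intervalIntegrable
    rw [hu]
    refine ContinuousOn.mul (ContinuousOn.mul ?_ continuousOn_const) ?_
    · exact Complex.continuous_ofReal.comp_continuousOn (by fun_prop)
    · exact continuous_e.comp_continuousOn hGc
  have hI := integral_mul_deriv_eq_deriv_mul hdu hdv hcu' hcv'
  have h3 : ∫ x in a..b, u x * v' x = ∫ x in a..b, e (G x) := by
    apply integral_congr
    intro x hx
    rw [hu] at hx
    have h4 := hne x hx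
    have h5 : ((2 * Real.pi * G' x : ℝ) : ℂ) ≠ 0 := by
      rw [Complex.ofReal_ne_zero]
      positivity
    show (((2 * Real.pi * G' x)⁻¹ : ℝ) : ℂ) * (-Complex.I) * (((2 * Real.pi * G' x : ℝ) : ℂ) * Complex.I * e (G x)) = e (G x)
    rw [Complex.ofReal_inv]
    calc (((2 * Real.pi * G' x : ℝ) : ℂ))⁻¹ * (-Complex.I) * (((2 * Real.pi * G' x : ℝ) : ℂ) * Complex.I * e (G x))
        = ((((2 * Real.pi * G' x : ℝ) : ℂ))⁻¹ * ((2 * Real.pi * G' x : ℝ) : ℂ)) * (-(Complex.I * Complex.I)) * e (G x) := by ring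
      _ = e (G x) := by rw [inv_mul_cancel₀ h5, Complex.I_mul_I]; ring
  rw [h3] at hI
  rw [hI]
  have hrb : ∀ x ∈ Icc a b, |(2 * Real.pi * G' x)⁻¹| ≤ 1 / (2 * Real.pi * m) := by
    intro x hx
    rw [abs_inv, abs_mul, abs_of_pos (by positivity : (0 : ℝ) < 2 * Real.pi), one_div]
    apply inv_anti₀ (by positivity)
    have := hG' x hx
    gcongr
  have hub : ∀ x ∈ Icc a b, ‖u x‖ ≤ 1 / (2 * Real.pi * m) := by
    intro x hx
    show ‖(((2 * Real.pi * G' x)⁻¹ : ℝ) : ℂ) * (-Complex.I)‖ ≤ _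
    rw [norm_mul, norm_neg, Complex.norm_I, mul_one, Complex.norm_real, Real.norm_eq_abs]
    exact hrb x hx
  have ha' : a ∈ Icc a b := left_mem_Icc.2 hab
  have hb' : b ∈ Icc a b := right_mem_Icc.2 hab
  have h4 : ‖∫ x in a..b, u' x * e (G x)‖ ≤ 1 / (2 * Real.pi * m) + 1 / (2 * Real.pi * m) := by
    have h41 : ‖∫ x in a..b, u' x * e (G x)‖ ≤ ∫ x in a..b, -(-(2 * Real.pi * G'' x) / (2 * Real.pi * G' x) ^ 2) := by
      apply norm_integral_le_of_norm_le hab
      · filter_upwards with x hx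
        have hx' : x ∈ Icc a b := Ioc_subset_Icc_self hx
        rw [norm_mul, norm_e, mul_one]
        show ‖((-(2 * Real.pi * G'' x) / (2 * Real.pi * G' x) ^ 2 : ℝ) : ℂ) * (-Complex.I)‖ ≤ _
        rw [norm_mul, norm_neg, Complex.norm_I, mul_one, Complex.norm_real, Real.norm_eq_abs, neg_div, abs_neg, neg_neg]
        rw [abs_of_nonneg]
        have := hV x hx'
        positivity
      · exact hcr.neg.intervalIntegrable
    refine h41.trans ?_
    rw [intervalIntegral.integral_neg, integral_eq_sub_of_hasDerivAt hdr hcr.intervalIntegrable]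
    have h5 := abs_le.1 (hrb a ha')
    have h6 := abs_le.1 (hrb b hb')
    linarith [h5.1, h5.2, h6.1, h6.2]
  have h5 : ‖u b * e (G b)‖ ≤ 1 / (2 * Real.pi * m) := by
    rw [norm_mul, norm_e, mul_one]
    exact hub b hb'
  have h6 : ‖u a * e (G a)‖ ≤ 1 / (2 * Real.pi * m) := by
    rw [norm_mul, norm_e, mul_one]
    exact hub a ha'
  refine (norm_sub_le _ _).trans ?_
  refine (add_le_add (norm_sub_le _ _) h4).trans ?_
  refine (add_le_add (add_le_add h5 h6) le_rfl).trans (le_of_eq ?_)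
  field_simp
  ring

/-- trivial bound -/
theorem norm_integral_e_le (G : ℝ → ℝ) {a b : ℝ} (hab : a ≤ b) : ‖∫ x in a..b, e (G x)‖ ≤ b - a := by
  have h : ‖∫ x in a..b, e (G x)‖ ≤ 1 * |b - a| := by
    apply intervalIntegral.norm_integral_le_of_norm_le_const
    intro x _
    rw [norm_e]
  rwa [one_mul, abs_of_nonneg (sub_nonneg.2 hab)] at h

/-- second-derivative test, positive case -/
theorem vc2p {a b : ℝ} (hab : a ≤ b) {G G' G'' : ℝ → ℝ} (h1 : ∀ x ∈ Icc a b, HasDerivAt G (G' x) x)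
    (h2 : ∀ x ∈ Icc a b, HasDerivAt G' (G'' x) x) (hc : ContinuousOn G'' (Icc a b)) {lam : ℝ}
    (hl : 0 < lam) (hG'' : ∀ x ∈ Icc a b, lam ≤ G'' x) :
    ‖∫ x in a..b, e (G x)‖ ≤ 4 / Real.sqrt lam := by
  have hsl : 0 < Real.sqrt lam := Real.sqrt_pos.2 hl
  have hGc : ContinuousOn G (Icc a b) := fun x hx => (h1 x hx).continuousAt.continuousWithinAt
  have hG'c : ContinuousOn G' (Icc a b) := fun x hx => (h2 x hx).continuousAt.continuousWithinAt
  -- growth of the derivative
  have hgrow : ∀ x ∈ Icc a b, ∀ y ∈ Icc a b, x ≤ y → lam * (y - x) ≤ G' y - G' x := by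
    intro x hx y hy hxy
    rcases hxy.eq_or_lt with rfl | hlt
    · simp
    obtain ⟨z, hz, hz2⟩ := exists_hasDerivAt_eq_slope G' G'' hlt
      (hG'c.mono (Icc_subset_Icc hx.1 hy.2)) (fun z hz => h2 z ⟨hx.1.trans hz.1.le, hz.2.le.trans hy.2⟩)
    have h3 : lam ≤ G'' z := hG'' z ⟨hx.1.trans hz.1.le, hz.2.le.trans hy.2⟩
    rw [hz2, le_div_iff₀ (sub_pos.2 hlt)] at h3
    exact h3
  -- the turning point
  obtain ⟨c, hc1, hc2, hc3⟩ : ∃ c ∈ Icc a b, (∀ x ∈ Icc a b, c < x → lam * (x - c) ≤ G' x) ∧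
      (∀ x ∈ Icc a b, x < c → G' x ≤ -(lam * (c - x))) := by
    by_cases ha0 : 0 ≤ G' a
    · refine ⟨a, left_mem_Icc.2 hab, fun x hx _ => ?_, fun x hx h => absurd hx.1 (not_le.2 h)⟩
      have := hgrow a (left_mem_Icc.2 hab) x hx hx.1
      linarith
    · push Not at ha0
      by_cases hb0 : G' b ≤ 0
      · refine ⟨b, right_mem_Icc.2 hab, fun x hx h => absurd hx.2 (not_le.2 h), fun x hx _ => ?_⟩
        have := hgrow x hx b (right_mem_Icc.2 hab) hx.2
        linarith
      · push Not at hb0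
        obtain ⟨c, hcI, hc0⟩ := intermediate_value_Icc hab hG'c (show (0 : ℝ) ∈ Icc (G' a) (G' b) from ⟨ha0.le, hb0.le⟩)
        refine ⟨c, hcI, fun x hx h => ?_, fun x hx h => ?_⟩
        · have := hgrow c hcI x hx h.le
          linarith
        · have := hgrow x hx c hcI h.le
          linarith
  set h : ℝ := 1 / Real.sqrt lam with hh
  have hh0 : 0 < h := by positivity
  have hlh : lam * h = Real.sqrt lam := by
    rw [hh, mul_one_div, div_eq_iff hsl.ne']
    exact (Real.mul_self_sqrt hl.le).symm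
  set p : ℝ := max a (c - h) with hp
  set q : ℝ := min b (c + h) with hq
  have hap : a ≤ p := le_max_left _ _
  have hpq : p ≤ q := by
    rw [hp, hq]
    refine max_le (le_min hab (by linarith [hc1.1])) (le_min (by linarith [hc1.2]) (by linarith))
  have hqb : q ≤ b := min_le_left _ _
  have hint : ∀ x y, x ∈ Icc a b → y ∈ Icc a b → IntervalIntegrable (fun x => e (G x)) volume x y := by
    intro x y hx hy
    apply ContinuousOn.intervalIntegrable
    exact (continuous_e.comp_continuousOn hGc).mono (uIcc_subset_Icc hx hy)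
  have hpI : p ∈ Icc a b := ⟨hap, hpq.trans hqb⟩
  have hqI : q ∈ Icc a b := ⟨hap.trans hpq, hqb⟩
  have haI : a ∈ Icc a b := left_mem_Icc.2 hab
  have hbI : b ∈ Icc a b := right_mem_Icc.2 hab
  rw [← intervalIntegral.integral_add_adjacent_intervals (hint a p haI hpI) (hint p b hpI hbI),
    ← intervalIntegral.integral_add_adjacent_intervals (hint p q hpI hqI) (hint q b hqI hbI)]
  have hpi := Real.pi_gt_three
  have hfin : 4 / Real.sqrt lam / (2 * Real.pi) ≤ 1 / Real.sqrt lam := by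
    rw [div_div, div_le_div_iff₀ (by positivity) (by positivity)]
    nlinarith
  have i1 : ‖∫ x in a..p, e (G x)‖ ≤ 1 / Real.sqrt lam := by
    rcases le_total a (c - h) with hcase | hcase
    · have hpe : p = c - h := max_eq_right hcase
      refine le_trans (vc1m hap (fun x hx => h1 x ⟨hx.1, hx.2.trans hpI.2⟩) (fun x hx => h2 x ⟨hx.1, hx.2.trans hpI.2⟩)
        (hc.mono (Icc_subset_Icc le_rfl hpI.2)) hsl (fun x hx => ?_) (fun x hx => ?_)) hfin
      · have hxI : x ∈ Icc a b := ⟨hx.1, hx.2.trans hpI.2⟩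
        have hx2 : x ≤ c - h := hpe ▸ hx.2
        have h3 := hc3 x hxI (by linarith)
        have h4 : Real.sqrt lam ≤ lam * (c - x) := by
          rw [← hlh]
          exact mul_le_mul_of_nonneg_left (by linarith) hl.le
        rw [abs_of_nonpos (by linarith)]
        linarith
      · exact hl.le.trans (hG'' x ⟨hx.1, hx.2.trans hpI.2⟩)
    · have hpe : p = a := max_eq_left hcase
      rw [hpe, intervalIntegral.integral_same, norm_zero]
      positivity
  have i3 : ‖∫ x in q..b, e (G x)‖ ≤ 1 / Real.sqrt lam := by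
    rcases le_total b (c + h) with hcase | hcase
    · have hqe : q = b := min_eq_left hcase
      rw [hqe, intervalIntegral.integral_same, norm_zero]
      positivity
    · have hqe : q = c + h := min_eq_right hcase
      refine le_trans (vc1m hqb (fun x hx => h1 x ⟨hqI.1.trans hx.1, hx.2⟩) (fun x hx => h2 x ⟨hqI.1.trans hx.1, hx.2⟩)
        (hc.mono (Icc_subset_Icc hqI.1 le_rfl)) hsl (fun x hx => ?_) (fun x hx => ?_)) hfin
      · have hxI : x ∈ Icc a b := ⟨hqI.1.trans hx.1, hx.2⟩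
        have hx2 : c + h ≤ x := hqe ▸ hx.1
        have h3 := hc2 x hxI (by linarith)
        have h4 : Real.sqrt lam ≤ lam * (x - c) := by
          rw [← hlh]
          exact mul_le_mul_of_nonneg_left (by linarith) hl.le
        rw [abs_of_nonneg (by linarith)]
        linarith
      · exact hl.le.trans (hG'' x ⟨hqI.1.trans hx.1, hx.2⟩)
  have i2 : ‖∫ x in p..q, e (G x)‖ ≤ 2 * h := by
    refine (norm_integral_e_le G hpq).trans ?_
    have : q ≤ c + h := min_le_right _ _
    have : c - h ≤ p := le_max_right _ _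
    linarith
  refine (norm_add_le _ _).trans ((add_le_add i1 ((norm_add_le _ _).trans (add_le_add i2 i3))).trans (le_of_eq ?_))
  rw [hh]
  ring

theorem e_neg (y : ℝ) : e (-y) = (starRingEnd ℂ) (e y) := by
  unfold e
  rw [← Complex.exp_conj]
  congr 1
  rw [map_mul, Complex.conj_I, Complex.conj_ofReal]
  push_cast
  ring

theorem norm_integral_e_neg (G : ℝ → ℝ) (a b : ℝ) : ‖∫ x in a..b, e (-G x)‖ = ‖∫ x in a..b, e (G x)‖ := by
  have h : ∫ x in a..b, e (-G x) = (starRingEnd ℂ) (∫ x in a..b, e (G x)) := by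
    simp_rw [e_neg, intervalIntegral.intervalIntegral_eq_integral_uIoc]
    rw [integral_conj]
    split_ifs <;> simp
  rw [h]
  exact Complex.norm_conj _

/-- second-derivative test -/
theorem vc2 {a b : ℝ} (hab : a ≤ b) {G G' G'' : ℝ → ℝ} (h1 : ∀ x ∈ Icc a b, HasDerivAt G (G' x) x)
    (h2 : ∀ x ∈ Icc a b, HasDerivAt G' (G'' x) x) (hc : ContinuousOn G'' (Icc a b)) {lam : ℝ}
    (hl : 0 < lam) (hG'' : (∀ x ∈ Icc a b, lam ≤ G'' x) ∨ (∀ x ∈ Icc a b, lam ≤ -G'' x)) :
    ‖∫ x in a..b, e (G x)‖ ≤ 4 / Real.sqrt lam := by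
  rcases hG'' with h | h
  · exact vc2p hab h1 h2 hc hl h
  · rw [← norm_integral_e_neg]
    exact vc2p (G := fun x => -G x) (G' := fun x => -G' x) (G'' := fun x => -G'' x) hab
      (fun x hx => (h1 x hx).neg) (fun x hx => (h2 x hx).neg) hc.neg hl h

end Pool.Agent.Helper82.FK
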