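import Mathlib

/-!
# Limits of probability measures on a compact interval
-/

set_option autoImplicit false

namespace Pool.Agent.Helper82.FK

open MeasureTheory Set Filter Topology BoundedContinuousFunction

theorem exists_lim {a b : ℝ} (ν : ℕ → ProbabilityMeasure ℝ) (hν : ∀ J, (ν J : Measure ℝ) (Icc a b)ᶜ = 0) :
    ∃ (μ : ProbabilityMeasure ℝ) (l : Filter ℕ), l.NeBot ∧ l ≤ atTop ∧ Tendsto ν l (𝓝 μ) := by
  have ht : IsTightMeasureSet {((μ : ProbabilityMeasure ℝ) : Measure ℝ) | μ ∈ range ν} := by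
    rw [isTightMeasureSet_iff_exists_isCompact_measure_compl_le]
    intro ε _
    refine ⟨Icc a b, isCompact_Icc, ?_⟩
    rintro _ ⟨_, ⟨J, rfl⟩, rfl⟩
    rw [hν J]
    exact zero_le
  have hc := isCompact_closure_of_isTightMeasureSet ht
  obtain ⟨μ, -, hμ⟩ := hc.ultrafilter_le_nhds ((hyperfilter ℕ).map ν) (by
    rw [le_principal_iff]
    exact mem_of_superset (range_mem_map) subset_closure)
  refine ⟨μ, (hyperfilter ℕ : Filter ℕ), inferInstance, ?_, hμ⟩
  rw [← Nat.cofinite_eq_atTop]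
  exact hyperfilter_le_cofinite

section
variable {μ : ProbabilityMeasure ℝ} {ν : ℕ → ProbabilityMeasure ℝ} {l : Filter ℕ} [l.NeBot]

omit [l.NeBot] in
theorem lim_integral (h : Tendsto ν l (𝓝 μ)) {g : ℝ → ℂ} (hg : Continuous g) {B : ℝ} (hB : ∀ x, ‖g x‖ ≤ B) :
    Tendsto (fun J => ∫ x, g x ∂(ν J : Measure ℝ)) l (𝓝 (∫ x, g x ∂(μ : Measure ℝ))) := by
  have := (ProbabilityMeasure.tendsto_iff_forall_integral_rclike_tendsto ℂ).1 h
    (BoundedContinuousFunction.ofNormedAddCommGroup g hg B hB)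
  simpa using this

theorem lim_norm_le (h : Tendsto ν l (𝓝 μ)) (hl : l ≤ atTop) {g : ℝ → ℂ} (hg : Continuous g) {B : ℝ} (hB : ∀ x, ‖g x‖ ≤ B)
    {c : ℝ} (hc : ∀ᶠ J in atTop, ‖∫ x, g x ∂(ν J : Measure ℝ)‖ ≤ c) : ‖∫ x, g x ∂(μ : Measure ℝ)‖ ≤ c :=
  le_of_tendsto (lim_integral h hg hB).norm (hl hc)

theorem lim_open (h : Tendsto ν l (𝓝 μ)) (hl : l ≤ atTop) {U : Set ℝ} (hU : IsOpen U) {c : ENNReal}
    (hc : ∀ᶠ J in atTop, (ν J : Measure ℝ) U ≤ c) : (μ : Measure ℝ) U ≤ c := by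
  refine (ProbabilityMeasure.le_liminf_measure_open_of_tendsto h hU).trans ?_
  refine (liminf_le_liminf (hl hc)).trans ?_
  rw [liminf_const]

theorem lim_closed (h : Tendsto ν l (𝓝 μ)) (hl : l ≤ atTop) {K : Set ℝ} (hK : IsClosed K) {c : ENNReal}
    (hc : ∀ᶠ J in atTop, c ≤ (ν J : Measure ℝ) K) : c ≤ (μ : Measure ℝ) K := by
  refine le_trans ?_ (ProbabilityMeasure.limsup_measure_closed_le_of_tendsto h hK)
  refine le_trans ?_ (limsup_le_limsup (hl hc))
  rw [limsup_const]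

theorem lim_support (h : Tendsto ν l (𝓝 μ)) (hl : l ≤ atTop) {a b : ℝ} (hν : ∀ J, (ν J : Measure ℝ) (Icc a b)ᶜ = 0) :
    (μ : Measure ℝ) (Icc a b)ᶜ = 0 :=
  le_antisymm (lim_open h hl isClosed_Icc.isOpen_compl (Eventually.of_forall fun J => (hν J).le)) zero_le

end

/-- the probability measure with density proportional to `f` on `[a, b]` -/
noncomputable def dn (a b : ℝ) (f : ℝ → ℝ) : Measure ℝ :=
  ENNReal.ofReal (∫ x in a..b, f x)⁻¹ • (volume.restrict (Icc a b)).withDensity (fun x => ENNReal.ofReal (f x))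

section
variable {a b : ℝ} {f : ℝ → ℝ}

theorem dn_apply (hf : Continuous f) (hf0 : ∀ x, 0 < f x) {A : Set ℝ} (hA : MeasurableSet A) :
    dn a b f A = ENNReal.ofReal (∫ x in a..b, f x)⁻¹ * ENNReal.ofReal (∫ x in A ∩ Icc a b, f x) := by
  unfold dn
  rw [Measure.smul_apply, smul_eq_mul, withDensity_apply _ hA, Measure.restrict_restrict hA]
  congr 1
  rw [ofReal_integral_eq_lintegral_ofReal]
  · exact (hf.integrableOn_Icc (a := a) (b := b)).mono_set inter_subset_right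
  · exact Eventually.of_forall fun x => (hf0 x).le

theorem dn_Icc (hf : Continuous f) (hf0 : ∀ x, 0 < f x) (hab : a < b) {p q : ℝ} (hap : a ≤ p) (hpq : p ≤ q) (hqb : q ≤ b) :
    dn a b f (Icc p q) = ENNReal.ofReal ((∫ x in a..b, f x)⁻¹ * ∫ x in p..q, f x) := by
  rw [dn_apply hf hf0 measurableSet_Icc]
  have h1 : Icc p q ∩ Icc a b = Icc p q := inter_eq_left.2 (Icc_subset_Icc hap hqb)
  have hm : 0 < ∫ x in a..b, f x := intervalIntegral.intervalIntegral_pos_of_pos (hf.intervalIntegrable a b) hf0 hab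
  rw [h1, integral_Icc_eq_integral_Ioc, ← intervalIntegral.integral_of_le hpq, ← ENNReal.ofReal_mul (by positivity)]

theorem dn_support (hf : Continuous f) (hf0 : ∀ x, 0 < f x) : dn a b f (Icc a b)ᶜ = 0 := by
  rw [dn_apply hf hf0 measurableSet_Icc.compl]
  simp

theorem dn_prob (hf : Continuous f) (hf0 : ∀ x, 0 < f x) (hab : a < b) : IsProbabilityMeasure (dn a b f) := by
  refine ⟨?_⟩
  have hm : 0 < ∫ x in a..b, f x := intervalIntegral.intervalIntegral_pos_of_pos (hf.intervalIntegrable a b) hf0 hab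
  rw [dn_apply hf hf0 MeasurableSet.univ, univ_inter, integral_Icc_eq_integral_Ioc, ← intervalIntegral.integral_of_le hab.le,
    ← ENNReal.ofReal_mul (by positivity), inv_mul_cancel₀ hm.ne', ENNReal.ofReal_one]

theorem integral_dn (hf : Continuous f) (hf0 : ∀ x, 0 < f x) (hab : a < b) (g : ℝ → ℂ) :
    ∫ x, g x ∂(dn a b f) = ((∫ x in a..b, f x)⁻¹ : ℝ) * ∫ x in a..b, (f x : ℂ) * g x := by
  unfold dn
  have hm : 0 < ∫ x in a..b, f x := intervalIntegral.intervalIntegral_pos_of_pos (hf.intervalIntegrable a b) hf0 hab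
  have h2 : ∫ x in a..b, (f x : ℂ) * g x = ∫ x in Icc a b, (f x : ℂ) * g x := by
    rw [intervalIntegral.integral_of_le hab.le, integral_Icc_eq_integral_Ioc]
  rw [integral_smul_measure, ENNReal.toReal_ofReal (by positivity), integral_withDensity_eq_integral_toReal_smul
    (by fun_prop) (Eventually.of_forall fun x => ENNReal.ofReal_lt_top), h2, Complex.real_smul]
  congr 1
  apply integral_congr_ae
  filter_upwards with x
  rw [ENNReal.toReal_ofReal (hf0 x).le, Complex.real_smul]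

end

end Pool.Agent.Helper82.FK
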