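import Pool.Agent.Helper82.FK.VC
import Pool.Agent.Helper59.RE.ArcCount

/-!
# Weyl's criterion, both directions
-/

set_option autoImplicit false

namespace Pool.Agent.Helper82.FK

open Filter Topology Finset

theorem e_eq (y : ℝ) : Pool.Agent.Helper59.RE.e y = e y := by
  unfold Pool.Agent.Helper59.RE.e e
  congr 1
  push_cast
  ring

/-- equidistribution modulo one -/
def Equi (x : ℕ → ℝ) : Prop := ∀ α β : ℝ, 0 ≤ α → α < β → β ≤ 1 →
  Tendsto (fun N : ℕ => (((range N).filter (fun n => α ≤ Int.fract (x n) ∧ Int.fract (x n) < β)).card : ℝ) / N)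
    atTop (𝓝 (β - α))

theorem equi_of_weyl (x : ℕ → ℝ)
    (hx : ∀ h : ℕ, 1 ≤ h → ∀ δ : ℝ, 0 < δ → ∀ᶠ N : ℕ in atTop, ‖∑ n ∈ range N, e (h * x n)‖ ≤ δ * N) : Equi x := by
  intro α β hα hαβ hβ
  rw [Metric.tendsto_atTop]
  intro ε hε
  obtain ⟨H, hH⟩ := exists_nat_gt ((16 / ε) ^ 2 + 1)
  have hH1 : 1 ≤ H := by
    have : (1 : ℝ) < H := lt_of_le_of_lt (by nlinarith [sq_nonneg (16 / ε)]) hH
    exact_mod_cast this.le
  have hH0 : (0 : ℝ) < H := by exact_mod_cast hH1
  have hsq : 16 / ε < Real.sqrt H := by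
    rw [Real.lt_sqrt (by positivity)]
    linarith
  set δ : ℝ := ε / (16 * H) with hδ
  have hδ0 : 0 < δ := by positivity
  have hall : ∀ᶠ N : ℕ in atTop, ∀ h ∈ Icc 1 H, ‖∑ n ∈ range N, e ((h : ℕ) * x n)‖ ≤ δ * N := by
    rw [eventually_all_finset]
    intro h hh
    exact hx h (mem_Icc.1 hh).1 δ hδ0
  obtain ⟨N₀, hN₀⟩ := eventually_atTop.1 hall
  refine ⟨max N₀ 1, fun N hN => ?_⟩
  have hN1 : 1 ≤ N := le_trans (le_max_right _ _) hN
  have hNr : (0 : ℝ) < N := by exact_mod_cast hN1
  have h1 := Pool.Agent.Helper59.RE.arc_count_w (range N) x H hH1 α β hα hαβ hβ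
  rw [card_range] at h1
  have h2 : ∑ h ∈ Icc 1 H, 1 / (h : ℝ) * ‖∑ n ∈ range N, Pool.Agent.Helper59.RE.e (h * x n)‖ ≤ H * (δ * N) := by
    have h3 : ∀ h ∈ Icc 1 H, 1 / (h : ℝ) * ‖∑ n ∈ range N, Pool.Agent.Helper59.RE.e (h * x n)‖ ≤ δ * N := by
      intro h hh
      have h4 : (1 : ℝ) ≤ h := by exact_mod_cast (mem_Icc.1 hh).1
      have h5 := hN₀ N (le_trans (le_max_left _ _) hN) h hh
      simp_rw [e_eq]
      have h6 : 1 / (h : ℝ) ≤ 1 := by
        rw [div_le_one (by linarith)]
        exact h4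
      calc 1 / (h : ℝ) * ‖∑ n ∈ range N, e (h * x n)‖ ≤ 1 * (δ * N) := by gcongr
        _ = δ * N := one_mul _
    refine (sum_le_card_nsmul _ _ _ h3).trans (le_of_eq ?_)
    rw [Nat.card_Icc, nsmul_eq_mul]
    simp
  rw [Real.dist_eq]
  have h3 : (((range N).filter (fun n => α ≤ Int.fract (x n) ∧ Int.fract (x n) < β)).card : ℝ) / N - (β - α) =
      ((((range N).filter (fun n => α ≤ Int.fract (x n) ∧ Int.fract (x n) < β)).card : ℝ) - (β - α) * N) / N := by
    field_simp
  rw [h3, abs_div, abs_of_pos hNr, div_lt_iff₀ hNr]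
  refine lt_of_le_of_lt h1 ?_
  have hs0 : 0 < Real.sqrt H := Real.sqrt_pos.2 hH0
  have h4 : (N : ℝ) / Real.sqrt H < ε / 16 * N := by
    rw [div_lt_iff₀ hs0]
    have h5 : 1 < ε / 16 * Real.sqrt H := by
      rw [div_lt_iff₀ hε] at hsq
      linarith
    nlinarith
  have h5 : H * (δ * N) = ε / 16 * N := by
    rw [hδ]
    field_simp
  rw [h5] at h2
  have h6 : 0 < ε * N := by positivity
  linarith

/-- the mean of the cosine of an equidistributed sequence is zero -/
theorem cos_mean_of_equi (x : ℕ → ℝ) (hx : Equi x) {c : ℝ}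
    (hc : Tendsto (fun N : ℕ => (∑ n ∈ range N, Real.cos (2 * Real.pi * x n)) / N) atTop (𝓝 c)) : c = 0 := by
  -- partition into m arcs
  have hpi := Real.pi_pos
  have hkey : ∀ m : ℕ, 2 ≤ m → |c| ≤ 2 * Real.pi / m := by
    intro m hm
    have hm0 : (0 : ℝ) < m := by positivity
    set A : ℕ → ℕ → Finset ℕ := fun N j => (range N).filter (fun n => (j : ℝ) / m ≤ Int.fract (x n) ∧ Int.fract (x n) < ((j : ℝ) + 1) / m) with hA
    have hlim : Tendsto (fun N : ℕ => ∑ j ∈ range m, Real.cos (2 * Real.pi * (j / m)) * ((A N j).card / (N : ℝ))) atTop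
        (𝓝 (∑ j ∈ range m, Real.cos (2 * Real.pi * (j / m)) * (1 / m))) := by
      refine tendsto_finsetSum _ fun j hj => Tendsto.const_mul _ ?_
      have hj' : (j : ℝ) + 1 ≤ m := by exact_mod_cast (Finset.mem_range.1 hj)
      have h1 := hx ((j : ℝ) / m) (((j : ℝ) + 1) / m) (by positivity) (by gcongr; linarith) (by
        rw [div_le_one hm0]
        exact hj')
      have h2 : ((j : ℝ) + 1) / m - (j : ℝ) / m = 1 / m := by
        field_simp
        ring
      rwa [h2] at h1
    have hzero : ∑ j ∈ range m, Real.cos (2 * Real.pi * (j / m)) * (1 / (m : ℝ)) = 0 := by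
      rw [← sum_mul]
      have h1 : ∑ j ∈ range m, Real.cos (2 * Real.pi * ((j : ℝ) / m)) = 0 := by
        have hprim := (Complex.isPrimitiveRoot_exp m (by omega)).geom_sum_eq_zero (by omega)
        have h2 : ∀ j ∈ range m, Real.cos (2 * Real.pi * ((j : ℝ) / m)) = (Complex.exp (2 * Real.pi * Complex.I / m) ^ j).re := by
          intro j _
          rw [← Complex.exp_nat_mul]
          have h3 : (j : ℂ) * (2 * Real.pi * Complex.I / m) = ((2 * Real.pi * ((j : ℝ) / m) : ℝ) : ℂ) * Complex.I := by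
            push_cast
            ring
          rw [h3, Complex.exp_ofReal_mul_I_re]
        rw [sum_congr rfl h2, ← Complex.re_sum, hprim, Complex.zero_re]
      rw [h1, zero_mul]
    rw [hzero] at hlim
    have hdiff := (hc.sub hlim).abs
    rw [sub_zero] at hdiff
    refine le_of_tendsto hdiff ?_
    filter_upwards [eventually_ge_atTop 1] with N hN
    have hNr : (0 : ℝ) < N := by exact_mod_cast hN
    have hsplit : ∀ f : ℕ → ℝ, ∑ n ∈ range N, f n = ∑ j ∈ range m, ∑ n ∈ A N j, f n := by
      intro f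
      have hmap : ∀ n ∈ range N, ⌊(m : ℝ) * Int.fract (x n)⌋₊ ∈ range m := by
        intro n _
        rw [Finset.mem_range]
        apply (Nat.floor_lt (by have := Int.fract_nonneg (x n); positivity)).2
        have := Int.fract_lt_one (x n)
        nlinarith
      rw [← Finset.sum_fiberwise_of_maps_to hmap]
      refine sum_congr rfl fun j _ => ?_
      refine sum_congr ?_ fun _ _ => rfl
      ext n
      simp only [hA, Finset.mem_filter]
      have h0 := Int.fract_nonneg (x n)
      have h1 : ⌊(m : ℝ) * Int.fract (x n)⌋₊ = j ↔ (j : ℝ) / m ≤ Int.fract (x n) ∧ Int.fract (x n) < ((j : ℝ) + 1) / m := by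
        rw [Nat.floor_eq_iff (by positivity), div_le_iff₀ hm0, lt_div_iff₀ hm0]
        constructor <;> rintro ⟨h2, h3⟩ <;> constructor <;> linarith
      rw [h1]
    have hbound : |∑ n ∈ range N, Real.cos (2 * Real.pi * x n) - ∑ j ∈ range m, Real.cos (2 * Real.pi * (j / m)) * (A N j).card| ≤
        2 * Real.pi / m * N := by
      rw [hsplit (fun n => Real.cos (2 * Real.pi * x n)), ← sum_sub_distrib]
      have h1 : ∀ j ∈ range m, |∑ n ∈ A N j, Real.cos (2 * Real.pi * x n) - Real.cos (2 * Real.pi * (j / m)) * (A N j).card| ≤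
          2 * Real.pi / m * (A N j).card := by
        intro j _
        have h2 : ∑ n ∈ A N j, Real.cos (2 * Real.pi * x n) - Real.cos (2 * Real.pi * (j / m)) * (A N j).card =
            ∑ n ∈ A N j, (Real.cos (2 * Real.pi * x n) - Real.cos (2 * Real.pi * (j / m))) := by
          rw [sum_sub_distrib, sum_const, nsmul_eq_mul, mul_comm ((A N j).card : ℝ)]
        rw [h2]
        refine (abs_sum_le_sum_abs _ _).trans ?_
        have h3 : ∀ n ∈ A N j, |Real.cos (2 * Real.pi * x n) - Real.cos (2 * Real.pi * (j / m))| ≤ 2 * Real.pi / m := by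
          intro n hn
          simp only [hA, Finset.mem_filter] at hn
          have h4 : Real.cos (2 * Real.pi * x n) = Real.cos (2 * Real.pi * Int.fract (x n)) := by
            have h5 : 2 * Real.pi * Int.fract (x n) = 2 * Real.pi * x n - (⌊x n⌋ : ℝ) * (2 * Real.pi) := by
              rw [Int.fract]
              ring
            rw [h5, Real.cos_sub_int_mul_two_pi]
          rw [h4]
          have h6 := Real.abs_cos_sub_cos_le (2 * Real.pi * Int.fract (x n)) (2 * Real.pi * (j / m))
          refine h6.trans ?_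
          rw [← mul_sub, abs_mul, abs_of_pos (by positivity)]
          have h7 : |Int.fract (x n) - (j : ℝ) / m| ≤ 1 / m := by
            rw [abs_of_nonneg (by linarith [hn.2.1])]
            have h8 : ((j : ℝ) + 1) / m = (j : ℝ) / m + 1 / m := by ring
            linarith [hn.2.2]
          calc 2 * Real.pi * |Int.fract (x n) - (j : ℝ) / m| ≤ 2 * Real.pi * (1 / m) := by gcongr
            _ = 2 * Real.pi / m := by ring
        refine (sum_le_card_nsmul _ _ _ h3).trans (le_of_eq ?_)
        rw [nsmul_eq_mul]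
        ring
      refine (abs_sum_le_sum_abs _ _).trans ((sum_le_sum h1).trans ?_)
      rw [← mul_sum (range m) (fun j => ((A N j).card : ℝ)) (2 * Real.pi / m)]
      have h9 : ∑ j ∈ range m, ((A N j).card : ℝ) = N := by
        have h10 := hsplit (fun _ => (1 : ℝ))
        simp only [sum_const, card_range, nsmul_eq_mul, mul_one] at h10
        rw [← h10]
      rw [h9]
    have h11 : (∑ n ∈ range N, Real.cos (2 * Real.pi * x n)) / N - ∑ j ∈ range m, Real.cos (2 * Real.pi * (j / m)) * ((A N j).card / (N : ℝ)) =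
        (∑ n ∈ range N, Real.cos (2 * Real.pi * x n) - ∑ j ∈ range m, Real.cos (2 * Real.pi * (j / m)) * (A N j).card) / N := by
      have h12 : ∑ j ∈ range m, Real.cos (2 * Real.pi * (j / m)) * ((A N j).card / (N : ℝ)) =
          (∑ j ∈ range m, Real.cos (2 * Real.pi * (j / m)) * (A N j).card) / N := by
        rw [sum_div]
        exact sum_congr rfl fun j _ => by ring
      rw [h12, sub_div]
    rw [h11, abs_div, abs_of_pos hNr, div_le_iff₀ hNr]
    exact hbound
  by_contra hne
  have hc0 : 0 < |c| := abs_pos.2 hne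
  obtain ⟨m, hm⟩ := exists_nat_gt (2 * Real.pi / |c| + 2)
  have hm2 : 2 ≤ m := by
    have : (2 : ℝ) < m := lt_of_le_of_lt (by have : 0 < 2 * Real.pi / |c| := by positivity
                                             linarith) hm
    exact_mod_cast this.le
  have h1 := hkey m hm2
  have hm0 : (0 : ℝ) < m := by positivity
  rw [le_div_iff₀ hm0] at h1
  have h2 : 2 * Real.pi / |c| < m := by linarith
  rw [div_lt_iff₀ hc0] at h2
  linarith

end Pool.Agent.Helper82.FK
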