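import Pool.Agent.Helper82.FK.Mu
import Pool.Agent.Helper82.FK.Weyl
import Pool.Agent.Helper46.TD.BF

/-!
# Below the threshold: final form
-/

set_option autoImplicit false

namespace Pool.Agent.Helper82.FK

open MeasureTheory Set Filter Topology Finset Polynomial Pool.Agent.Helper46.TC

theorem charFun_eq_e (μ : Measure ℝ) (t : ℝ) : charFun μ t = ∫ x, e (t / (2 * Real.pi) * x) ∂μ := by
  rw [charFun_apply_real]
  refine integral_congr_ae (Eventually.of_forall fun x => ?_)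
  simp only
  unfold e
  have := Real.pi_ne_zero
  congr 1
  have h : (2 * Real.pi * (t / (2 * Real.pi) * x) : ℝ) = t * x := by
    field_simp
  rw [h]
  push_cast
  ring

theorem charFun_decay (μ : Measure ℝ) [IsProbabilityMeasure μ] {β C : ℝ} (hβ : 0 ≤ β)
    (h : ∀ τ : ℝ, 1 ≤ |τ| → ‖∫ x, e (τ * x) ∂μ‖ ≤ C * |τ| ^ (-β)) :
    ∃ C' : ℝ, ∀ t : ℝ, 1 ≤ |t| → ‖charFun μ t‖ ≤ C' * |t| ^ (-β) := by
  have hpi : 0 < 2 * Real.pi := by positivity
  refine ⟨max C 1 * (2 * Real.pi) ^ β, fun t ht => ?_⟩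
  have ht0 : 0 < |t| := by linarith
  have hkey : |t / (2 * Real.pi)| ^ (-β) = (2 * Real.pi) ^ β * |t| ^ (-β) := by
    rw [abs_div, abs_of_pos hpi, Real.div_rpow ht0.le hpi.le, Real.rpow_neg hpi.le]
    field_simp
  rcases le_or_gt 1 |t / (2 * Real.pi)| with h1 | h1
  · rw [charFun_eq_e]
    refine (h _ h1).trans ?_
    rw [hkey, mul_assoc]
    have h2 : 0 ≤ (2 * Real.pi) ^ β * |t| ^ (-β) := by positivity
    exact mul_le_mul_of_nonneg_right (le_max_left _ _) h2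
  · refine (norm_charFun_le_one t).trans ?_
    have h2 : 1 ≤ |t / (2 * Real.pi)| ^ (-β) := by
      apply Real.one_le_rpow_of_pos_of_le_one_of_nonpos
      · rw [abs_div]
        positivity
      · exact h1.le
      · linarith
    rw [hkey] at h2
    calc (1 : ℝ) = 1 * 1 := (one_mul 1).symm
      _ ≤ max C 1 * ((2 * Real.pi) ^ β * |t| ^ (-β)) := by
          apply mul_le_mul (le_max_right _ _) h2 zero_le_one (le_trans zero_le_one (le_max_right _ _))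
      _ = _ := by ring

theorem shift_mean {x ρ : ℝ}
    (h : Tendsto (fun N : ℕ => (∑ n ∈ range N, Real.cos (2 * Real.pi * x ^ n)) / N) atTop (𝓝 ρ)) :
    Tendsto (fun N : ℕ => (∑ n ∈ range N, Real.cos (2 * Real.pi * x ^ (n + 1))) / N) atTop (𝓝 ρ) := by
  have h1 := (tendsto_add_atTop_iff_nat 1).2 h
  have h2 : Tendsto (fun N : ℕ => ((N : ℝ) + 1) / N) atTop (𝓝 1) := by
    have h3 : Tendsto (fun N : ℕ => 1 + 1 / (N : ℝ)) atTop (𝓝 (1 + 0)) :=
      tendsto_const_nhds.add tendsto_one_div_atTop_nhds_zero_nat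
    rw [add_zero] at h3
    refine h3.congr' ?_
    filter_upwards [eventually_ge_atTop 1] with N hN
    have : (N : ℝ) ≠ 0 := by positivity
    field_simp
  have h4 : Tendsto (fun N : ℕ => Real.cos (2 * Real.pi * x ^ 0) / (N : ℝ)) atTop (𝓝 0) :=
    tendsto_const_nhds.div_atTop tendsto_natCast_atTop_atTop
  have h5 := (h1.mul h2).sub h4
  rw [mul_one, sub_zero] at h5
  refine h5.congr' ?_
  filter_upwards [eventually_ge_atTop 1] with N hN
  have hN0 : (N : ℝ) ≠ 0 := by positivity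
  have hN1 : (N : ℝ) + 1 ≠ 0 := by positivity
  rw [sum_range_succ']
  push_cast
  field_simp
  ring

theorem params {a b β : ℝ} (ha : 1 < a) (hab : a < b) (hβ' : β < 1 / 2) :
    ∃ b' : ℝ, a < b' ∧ b' ≤ b ∧ ∃ L j₀ : ℕ, 17 ≤ a ^ L ∧ 1 + 8 * (a / (a - 1)) ≤ a ^ L ∧
      (b' ^ β / Real.sqrt a) ^ L ≤ 1 / 3 ∧ b' ^ β / Real.sqrt a ≤ 1 ∧ 2 ≤ L * j₀ ∧
      2 * (b' / (L * j₀) + (b' - a)) / a ^ (L * j₀) ≤ (b' - a) / 2 := by
  have ha0 : 0 < a := by linarith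
  have hsa : 0 < Real.sqrt a := Real.sqrt_pos.2 ha0
  have h1 : a ^ β < Real.sqrt a := by
    rw [Real.sqrt_eq_rpow]
    exact Real.rpow_lt_rpow_of_exponent_lt ha hβ'
  have hc : ContinuousAt (fun x : ℝ => x ^ β) a := Real.continuousAt_rpow_const _ _ (Or.inl ha0.ne')
  have h2 : ∀ᶠ x in 𝓝[>] a, x ^ β < Real.sqrt a := (hc.mono_left nhdsWithin_le_nhds).eventually (gt_mem_nhds h1) |>.mono fun x hx => hx
  have h3 : ∀ᶠ x in 𝓝[>] a, x ≤ b := by
    have : ∀ᶠ x in 𝓝[>] a, x < b := (gt_mem_nhds hab).filter_mono nhdsWithin_le_nhds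
    exact this.mono fun x hx => hx.le
  obtain ⟨b', ⟨hb1, hb2⟩, hb3⟩ := ((h2.and h3).and self_mem_nhdsWithin).exists
  have hb3' : a < b' := hb3
  refine ⟨b', hb3', hb2, ?_⟩
  have hb0 : 0 < b' := by linarith
  set θ : ℝ := b' ^ β / Real.sqrt a with hθ
  have hθ0 : 0 ≤ θ := by positivity
  have hθ1 : θ < 1 := (div_lt_one hsa).2 hb1
  have hpa : Tendsto (fun n : ℕ => a ^ n) atTop atTop := tendsto_pow_atTop_atTop_of_one_lt ha
  have hpt : Tendsto (fun n : ℕ => θ ^ n) atTop (𝓝 0) := tendsto_pow_atTop_nhds_zero_of_lt_one hθ0 hθ1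
  obtain ⟨L, ⟨⟨hL1, hL2⟩, hL3⟩, hL4⟩ := (((hpa.eventually_ge_atTop 17).and (hpa.eventually_ge_atTop (1 + 8 * (a / (a - 1))))).and
    (hpt.eventually (gt_mem_nhds (show (0 : ℝ) < 1 / 3 by norm_num)))).and (eventually_ge_atTop 1) |>.exists
  -- the starting block
  have hkey : ∀ᶠ n : ℕ in atTop, 2 * (b' + (b' - a)) / ((b' - a) / 2) ≤ a ^ n := hpa.eventually_ge_atTop _
  have hmul : Tendsto (fun j : ℕ => L * j) atTop atTop :=
    tendsto_id.const_mul_atTop' (by omega)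
  obtain ⟨j₀, hj1, hj2⟩ := ((hmul.eventually hkey).and (hmul.eventually_ge_atTop 2)).exists
  refine ⟨L, j₀, hL1, hL2, hL3.le, hθ1.le, hj2, ?_⟩
  have hba : 0 < b' - a := by linarith
  have hpow : 0 < a ^ (L * j₀) := by positivity
  rw [div_le_iff₀ (by linarith)] at hj1
  rw [div_le_iff₀ hpow]
  have h4 : b' / ((L : ℝ) * j₀) ≤ b' := by
    apply div_le_self hb0.le
    have : (2 : ℝ) ≤ (L : ℝ) * j₀ := by exact_mod_cast hj2
    linarith
  calc 2 * (b' / ((L : ℝ) * j₀) + (b' - a)) ≤ 2 * (b' + (b' - a)) := by linarith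
    _ ≤ a ^ (L * j₀) * ((b' - a) / 2) := hj1
    _ = _ := by ring

theorem below {a b β : ℝ} (ha : 1 < a) (hab : a < b) (hβ : β < 1 / 2) :
    ∃ μ : Measure ℝ, IsProbabilityMeasure μ ∧ μ (Icc a b)ᶜ = 0 ∧
      (∃ C : ℝ, ∀ t : ℝ, 1 ≤ |t| → ‖charFun μ t‖ ≤ C * |t| ^ (-β)) ∧
      ∃ ρ : ℝ, 0 < ρ ∧ ∀ᵐ x ∂μ, 1 < x ∧
        Tendsto (fun N : ℕ => (∑ n ∈ range N, Real.cos (2 * Real.pi * x ^ (n + 1))) / N) atTop (𝓝 ρ) ∧
        ¬ Equi (fun n => x ^ (n + 1)) ∧ (∀ S : Finset ℕ, HasW (unitFam S) x) ∧ HasUnif x := by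
  obtain ⟨b', hab', hb', L, j₀, h17, hLa, hθ, hθ1, hj, hm⟩ := params (β := max β 0) ha hab (max_lt hβ (by norm_num))
  obtain ⟨μ, hμ, hsupp, ⟨C, hC0, hC⟩, hcos, ⟨C', hC'0, hdec⟩⟩ :=
    exists_mu ha hab' (le_max_right β 0) (max_lt hβ (by norm_num)).le h17 hLa hθ hθ1 hj hm
  have hL1 : 1 ≤ L := by
    rcases Nat.eq_zero_or_pos L with h | h
    · rw [h, pow_zero] at h17
      norm_num at h17
    · exact h
  refine ⟨μ, hμ, ?_, ?_, 1 / (4 * L), by positivity, ?_⟩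
  · refine measure_mono_null (compl_subset_compl.2 ?_) hsupp
    intro x hx
    exact ⟨hx.1, hx.2.le.trans hb'⟩
  · obtain ⟨D, hD⟩ := charFun_decay μ (le_max_right β 0) hC
    refine ⟨max D 0, fun t ht => (hD t ht).trans ?_⟩
    have h1 : |t| ^ (-max β 0) ≤ |t| ^ (-β) :=
      Real.rpow_le_rpow_of_exponent_le ht (neg_le_neg (le_max_left _ _))
    calc D * |t| ^ (-max β 0) ≤ max D 0 * |t| ^ (-max β 0) := mul_le_mul_of_nonneg_right (le_max_left _ _) (by positivity)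
      _ ≤ max D 0 * |t| ^ (-β) := mul_le_mul_of_nonneg_left h1 (le_max_right _ _)
  · have hall := Pool.Agent.Helper46.TD.ae_all_of_decay μ a b' (by linarith) hab' hsupp (1 / 2) C' (by norm_num) hC'0 hdec
    have hs : ∀ᵐ x ∂μ, x ∈ Ico a b' := by
      rw [ae_iff]
      exact hsupp
    filter_upwards [hcos, hall, hs] with x h1 h2 h3
    have h4 := shift_mean h1
    refine ⟨ha.trans_le h3.1, h4, fun hE => ?_, h2.1, h2.2⟩
    have h5 := cos_mean_of_equi _ hE h4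
    have h6 : (0 : ℝ) < 1 / (4 * L) := by positivity
    linarith

end Pool.Agent.Helper82.FK
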