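import Pool.Agent.Helper82.FK.Frost

/-!
# Measures with Fourier decay vanish on sets of small Hausdorff dimension
-/

set_option autoImplicit false

namespace Pool.Agent.Helper82.FK

open MeasureTheory Set Filter Topology ProbabilityTheory

theorem ball_avg (μ : Measure ℝ) [IsFiniteMeasure μ] {σ C : ℝ} (hσ0 : 0 ≤ σ) (hσ : 2 * σ < 1)
    (hdec : ∀ t : ℝ, t ≠ 0 → ‖charFun μ t‖ ≤ C * |t| ^ (-σ)) :
    ∃ D : ENNReal, D ≠ ⊤ ∧ ∀ r : ℝ, 0 < r → ∫⁻ x, μ (Metric.closedBall x r) ∂μ ≤ D * ENNReal.ofReal (r ^ (2 * σ)) := by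
  set M : ENNReal := ∫⁻ t, ENNReal.ofReal (|t| ^ (-(2 * σ))) ∂(gaussianReal 0 1) with hM
  have hMt : M < ⊤ := gauss_moment (by linarith) (by linarith)
  refine ⟨ENNReal.ofReal (Real.exp (1 / 2)) * (ENNReal.ofReal (C ^ 2) * M), ?_, fun r hr => ?_⟩
  · exact ENNReal.mul_ne_top ENNReal.ofReal_ne_top (ENNReal.mul_ne_top ENNReal.ofReal_ne_top hMt.ne)
  have h1 := gauss_avg μ r hr
  have h2 : ∫⁻ t, ENNReal.ofReal (‖charFun μ (t / r)‖ ^ 2) ∂(gaussianReal 0 1) ≤
      ∫⁻ t, (ENNReal.ofReal (C ^ 2) * ENNReal.ofReal (r ^ (2 * σ))) * ENNReal.ofReal (|t| ^ (-(2 * σ))) ∂(gaussianReal 0 1) := by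
    have h0 : ∀ᵐ t ∂(gaussianReal 0 1), t ≠ 0 := by
      rw [ae_iff]
      have h00 : (gaussianReal 0 1) {a : ℝ | ¬ a ≠ 0} ≤ volume {a : ℝ | ¬ a ≠ 0} := gauss_le _
      refine le_antisymm (h00.trans ?_) zero_le
      simp
    refine lintegral_mono_ae ?_
    filter_upwards [h0] with t ht
    rw [← ENNReal.ofReal_mul (by positivity), ← ENNReal.ofReal_mul (by positivity)]
    apply ENNReal.ofReal_le_ofReal
    have h3 := hdec (t / r) (div_ne_zero ht hr.ne')
    have h4 : ‖charFun μ (t / r)‖ ^ 2 ≤ (C * |t / r| ^ (-σ)) ^ 2 := pow_le_pow_left₀ (norm_nonneg _) h3 2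
    refine h4.trans (le_of_eq ?_)
    have ht0 : 0 < |t| := abs_pos.2 ht
    rw [mul_pow, ← Real.rpow_natCast (|t / r| ^ (-σ)) 2, ← Real.rpow_mul (abs_nonneg _), abs_div, abs_of_pos hr,
      Real.div_rpow ht0.le hr.le]
    have h5 : -σ * ((2 : ℕ) : ℝ) = -(2 * σ) := by
      push_cast
      ring
    rw [h5, Real.rpow_neg hr.le]
    field_simp
  rw [lintegral_const_mul _ (by fun_prop)] at h2
  have h3 := h1.trans h2
  have h4 : ENNReal.ofReal (Real.exp (1 / 2)) * (ENNReal.ofReal (Real.exp (-(1 / 2))) * ∫⁻ x, μ (Metric.closedBall x r) ∂μ) =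
      ∫⁻ x, μ (Metric.closedBall x r) ∂μ := by
    rw [← mul_assoc, ← ENNReal.ofReal_mul (Real.exp_pos _).le, ← Real.exp_add]
    norm_num
  rw [← h4]
  refine (mul_le_mul' le_rfl h3).trans (le_of_eq ?_)
  ring

theorem null_of_dimH_lt (μ : Measure ℝ) [IsFiniteMeasure μ] {σ C : ℝ} (hσ0 : 0 ≤ σ) (hσ : 2 * σ < 1)
    (hdec : ∀ t : ℝ, t ≠ 0 → ‖charFun μ t‖ ≤ C * |t| ^ (-σ)) {A : Set ℝ} (hA : dimH A < ENNReal.ofReal (2 * σ)) :
    μ A = 0 := by
  obtain ⟨D, hD, hball⟩ := ball_avg μ hσ0 hσ hdec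
  obtain ⟨s, hs1, hs2⟩ := ENNReal.lt_iff_exists_nnreal_btwn.1 hA
  have hs0 : (0 : ℝ) < s := by
    have h : (0 : ENNReal) < s := lt_of_le_of_lt zero_le hs1
    exact_mod_cast h
  have hsσ : (s : ℝ) < 2 * σ := by
    rw [← ENNReal.ofReal_coe_nnreal] at hs2
    exact (ENNReal.ofReal_lt_ofReal_iff_of_nonneg s.2).1 hs2
  have hH : Measure.hausdorffMeasure (s : ℝ) A = 0 := hausdorffMeasure_of_dimH_lt hs1
  -- the weighted sum
  set g : ℕ → ENNReal := fun k => ENNReal.ofReal (2 ^ ((s : ℝ) * k)) with hg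
  set F : ℕ → ℝ → ENNReal := fun k x => μ (Metric.closedBall x ((1 / 2) ^ k)) with hF
  have hFm : ∀ k, Measurable (F k) := by
    intro k
    have hcl : IsClosed {p : ℝ × ℝ | dist p.2 p.1 ≤ (1 / 2) ^ k} :=
      isClosed_le (by fun_prop) continuous_const
    exact measurable_measure_prodMk_left hcl.measurableSet
  set T : ℝ → ENNReal := fun x => ∑' k, g k * F k x with hT
  have hTm : Measurable T := Measurable.tsum fun k => (hFm k).const_mul _
  have hTint : ∫⁻ x, T x ∂μ ≠ ⊤ := by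
    rw [hT, lintegral_tsum fun k => ((hFm k).const_mul _).aemeasurable]
    have h1 : ∀ k : ℕ, ∫⁻ x, g k * F k x ∂μ ≤ D * ENNReal.ofReal ((2 ^ ((s : ℝ) - 2 * σ)) ^ k) := by
      intro k
      rw [lintegral_const_mul _ (hFm k)]
      refine (mul_le_mul' le_rfl (hball ((1 / 2) ^ k) (by positivity))).trans (le_of_eq ?_)
      rw [hg, mul_left_comm, ← ENNReal.ofReal_mul (by positivity)]
      congr 2
      rw [one_div, inv_pow, Real.inv_rpow (by positivity), ← Real.rpow_natCast (2 : ℝ) k, ← Real.rpow_mul (by norm_num),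
        ← Real.rpow_neg (by norm_num), ← Real.rpow_add (by norm_num), ← Real.rpow_natCast (2 ^ ((s : ℝ) - 2 * σ)) k,
        ← Real.rpow_mul (by norm_num)]
      congr 1
      ring
    refine ne_top_of_le_ne_top ?_ (ENNReal.tsum_le_tsum h1)
    rw [ENNReal.tsum_mul_left]
    refine ENNReal.mul_ne_top hD ?_
    have h2 : (2 : ℝ) ^ ((s : ℝ) - 2 * σ) < 1 := Real.rpow_lt_one_of_one_lt_of_neg (by norm_num) (by linarith)
    have h3 : (0 : ℝ) ≤ 2 ^ ((s : ℝ) - 2 * σ) := by positivity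
    rw [← ENNReal.ofReal_tsum_of_nonneg (fun n => by positivity) (summable_geometric_of_lt_one h3 h2)]
    exact ENNReal.ofReal_ne_top
  have hTae : ∀ᵐ x ∂μ, T x < ⊤ := ae_lt_top hTm hTint
  set G : ℕ → Set ℝ := fun m => {x | T x ≤ m} with hG
  have hGm : ∀ m, MeasurableSet (G m) := fun m => measurableSet_le hTm measurable_const
  have hkey : ∀ m, μ (A ∩ G m) = 0 := by
    intro m
    set c : ENNReal := (m : ENNReal) * ENNReal.ofReal (2 ^ (s : ℝ)) + 1 with hc
    have hc0 : c ≠ 0 := by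
      rw [hc]
      simp
    have hct : c ≠ ⊤ := by
      rw [hc]
      exact ENNReal.add_ne_top.2 ⟨ENNReal.mul_ne_top (ENNReal.natCast_ne_top m) ENNReal.ofReal_ne_top, ENNReal.one_ne_top⟩
    -- one ball
    have hb : ∀ x ∈ G m, ∀ k : ℕ, F k x ≤ m * ENNReal.ofReal (((1 / 2) ^ k) ^ (s : ℝ)) := by
      intro x hx k
      have h1 : g k * F k x ≤ m := (ENNReal.le_tsum k).trans hx
      have h2 : ENNReal.ofReal (((1 / 2) ^ k) ^ (s : ℝ)) * g k = 1 := by
        rw [hg, ← ENNReal.ofReal_mul (by positivity), ← ENNReal.ofReal_one]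
        congr 1
        rw [one_div, inv_pow, Real.inv_rpow (by positivity), ← Real.rpow_natCast (2 : ℝ) k, ← Real.rpow_mul (by norm_num),
          ← Real.rpow_neg (by norm_num), ← Real.rpow_add (by norm_num)]
        have : -((k : ℝ) * s) + s * k = 0 := by ring
        rw [this, Real.rpow_zero]
      calc F k x = (ENNReal.ofReal (((1 / 2) ^ k) ^ (s : ℝ)) * g k) * F k x := by rw [h2, one_mul]
        _ = (g k * F k x) * ENNReal.ofReal (((1 / 2) ^ k) ^ (s : ℝ)) := by ring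
        _ ≤ _ := mul_le_mul' h1 le_rfl
    have hle : c⁻¹ • μ.restrict (G m) ≤ Measure.hausdorffMeasure (s : ℝ) := by
      refine Measure.le_hausdorffMeasure _ _ 1 one_pos fun t ht => ?_
      rw [Measure.smul_apply, smul_eq_mul, Measure.restrict_apply' (hGm m)]
      rw [ENNReal.inv_mul_le_iff hc0 hct]
      rcases (t ∩ G m).eq_empty_or_nonempty with he | ⟨x, hxt, hxG⟩
      · rw [he, measure_empty]
        exact zero_le
      have htop : Metric.ediam t ≠ ⊤ := ne_top_of_le_ne_top ENNReal.one_ne_top ht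
      have hbd : Bornology.IsBounded t := Metric.isBounded_iff_ediam_ne_top.2 htop
      set δ : ℝ := Metric.diam t with hδ
      have hδe : Metric.ediam t = ENNReal.ofReal δ := (ENNReal.ofReal_toReal htop).symm
      have hδ0 : 0 ≤ δ := Metric.diam_nonneg
      have hδ1 : δ ≤ 1 := by
        rw [hδe, ENNReal.ofReal_le_one] at ht
        exact ht
      have hsub : ∀ k : ℕ, δ ≤ (1 / 2) ^ k → μ (t ∩ G m) ≤ m * ENNReal.ofReal (((1 / 2) ^ k) ^ (s : ℝ)) := by
        intro k hk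
        refine (measure_mono ?_).trans (hb x hxG k)
        intro y hy
        rw [Metric.mem_closedBall]
        exact (Metric.dist_le_diam_of_mem hbd hy.1 hxt).trans hk
      rcases hδ0.eq_or_lt with h0 | hpos
      · -- a point
        have hlim : Tendsto (fun k : ℕ => (m : ENNReal) * ENNReal.ofReal (((1 / 2 : ℝ) ^ k) ^ (s : ℝ))) atTop (𝓝 (m * ENNReal.ofReal 0)) := by
          refine ENNReal.Tendsto.const_mul (ENNReal.tendsto_ofReal ?_) (Or.inr (ENNReal.natCast_ne_top m))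
          have h1 : Tendsto (fun k : ℕ => ((1 / 2 : ℝ) ^ k)) atTop (𝓝 0) :=
            tendsto_pow_atTop_nhds_zero_of_lt_one (by norm_num) (by norm_num)
          have h2 := h1.rpow_const (p := (s : ℝ)) (Or.inr hs0.le)
          rwa [Real.zero_rpow hs0.ne'] at h2
        rw [ENNReal.ofReal_zero, mul_zero] at hlim
        have h3 : μ (t ∩ G m) ≤ 0 := ge_of_tendsto' hlim fun k => hsub k (by rw [← h0]; positivity)
        exact h3.trans zero_le
      · obtain ⟨k, hk1, hk2⟩ := exists_nat_pow_near_of_lt_one hpos hδ1 (show (0 : ℝ) < 1 / 2 by norm_num) (by norm_num)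
        have h1 := hsub k hk2
        have h2 : ((1 / 2 : ℝ) ^ k) ^ (s : ℝ) ≤ 2 ^ (s : ℝ) * δ ^ (s : ℝ) := by
          rw [← Real.mul_rpow (by norm_num) hδ0]
          refine Real.rpow_le_rpow (by positivity) ?_ hs0.le
          rw [pow_succ] at hk1
          linarith
        rw [hδe, ENNReal.ofReal_rpow_of_pos hpos]
        refine h1.trans ?_
        calc (m : ENNReal) * ENNReal.ofReal (((1 / 2) ^ k) ^ (s : ℝ)) ≤ m * ENNReal.ofReal (2 ^ (s : ℝ) * δ ^ (s : ℝ)) :=
              mul_le_mul' le_rfl (ENNReal.ofReal_le_ofReal h2)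
          _ = m * ENNReal.ofReal (2 ^ (s : ℝ)) * ENNReal.ofReal (δ ^ (s : ℝ)) := by
              rw [ENNReal.ofReal_mul (by positivity), mul_assoc]
          _ ≤ c * ENNReal.ofReal (δ ^ (s : ℝ)) := mul_le_mul' (le_add_of_nonneg_right zero_le) le_rfl
    have h1 := hle A
    rw [hH, Measure.smul_apply, smul_eq_mul, Measure.restrict_apply' (hGm m)] at h1
    have h2 : c⁻¹ * μ (A ∩ G m) = 0 := le_antisymm h1 zero_le
    rcases mul_eq_zero.1 h2 with h | h
    · exact absurd h (ENNReal.inv_ne_zero.2 hct)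
    · exact h
  have hcov : A ⊆ (⋃ m, A ∩ G m) ∪ {x | ¬ T x < ⊤} := by
    intro x hx
    by_cases h : T x < ⊤
    · obtain ⟨m, hm⟩ := ENNReal.exists_nat_gt h.ne
      exact Or.inl (mem_iUnion.2 ⟨m, hx, hm.le⟩)
    · exact Or.inr h
  refine measure_mono_null hcov (measure_union_null (measure_iUnion_null hkey) ?_)
  exact hTae

/-- measures whose Fourier transform decays with every exponent below one half -/
theorem null_of_decay (μ : Measure ℝ) [IsFiniteMeasure μ]
    (hdec : ∀ η : ℝ, 0 < η → ∃ C : ℝ, ∀ t : ℝ, 1 ≤ |t| → ‖charFun μ t‖ ≤ C * |t| ^ (-(1 / 2) + η)) {A : Set ℝ}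
    (hA : dimH A < 1) : μ A = 0 := by
  obtain ⟨d, hd1, hd2⟩ := ENNReal.lt_iff_exists_nnreal_btwn.1 hA
  have hd : (d : ℝ) < 1 := by exact_mod_cast hd2
  have hd0 : (0 : ℝ) ≤ d := d.2
  set σ : ℝ := (1 + d) / 4 with hσ
  obtain ⟨C, hC⟩ := hdec (1 / 2 - σ) (by rw [hσ]; linarith)
  refine null_of_dimH_lt μ (σ := σ) (C := max C (μ.real univ)) (by positivity) (by rw [hσ]; linarith) (fun t ht => ?_) (A := A) ?_
  · rcases le_or_gt 1 |t| with h | h
    · refine (hC t h).trans ?_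
      rw [show -(1 / 2) + (1 / 2 - σ) = -σ by ring]
      gcongr
      exact le_max_left _ _
    · refine (norm_charFun_le t).trans ?_
      have ht0 : 0 < |t| := abs_pos.2 ht
      have h1 : 1 ≤ |t| ^ (-σ) := Real.one_le_rpow_of_pos_of_le_one_of_nonpos ht0 h.le (by rw [hσ]; linarith)
      have h2 : 0 ≤ max C (μ.real univ) := le_trans measureReal_nonneg (le_max_right _ _)
      calc μ.real univ ≤ max C (μ.real univ) := le_max_right _ _
        _ = max C (μ.real univ) * 1 := (mul_one _).symm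
        _ ≤ _ := by gcongr
  · refine hd1.trans ?_
    rw [← ENNReal.ofReal_coe_nnreal]
    exact (ENNReal.ofReal_lt_ofReal_iff_of_nonneg hd0).2 (by rw [hσ]; linarith)

end Pool.Agent.Helper82.FK
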