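import Pool.Agent.Helper82.FK.Koks
import Pool.Agent.Helper82.FK.Frost2
import Pool.Agent.Helper82.FK.Fin

/-!
# The quantitative threshold
-/

set_option autoImplicit false

namespace Pool.Agent.Helper82.FK

open MeasureTheory Set Filter Topology Finset Polynomial Pool.Agent.Helper46.TC

/-- decay at infinity gives decay for all `t ≠ 0` -/
theorem decay_all {μ : Measure ℝ} [IsFiniteMeasure μ] {β C : ℝ} (hβ : 0 ≤ β)
    (h : ∀ t : ℝ, 1 ≤ |t| → ‖charFun μ t‖ ≤ C * |t| ^ (-β)) :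
    ∀ t : ℝ, t ≠ 0 → ‖charFun μ t‖ ≤ max C (μ.real univ) * |t| ^ (-β) := by
  intro t ht
  rcases le_or_gt 1 |t| with h1 | h1
  · refine (h t h1).trans ?_
    gcongr
    exact le_max_left _ _
  · refine (norm_charFun_le t).trans ?_
    have ht0 : 0 < |t| := abs_pos.2 ht
    have h2 : 1 ≤ |t| ^ (-β) := Real.one_le_rpow_of_pos_of_le_one_of_nonpos ht0 h1.le (by linarith)
    have h3 : 0 ≤ max C (μ.real univ) := le_trans measureReal_nonneg (le_max_right _ _)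
    calc μ.real univ ≤ max C (μ.real univ) := le_max_right _ _
      _ = max C (μ.real univ) * 1 := (mul_one _).symm
      _ ≤ _ := by gcongr

theorem norm_sum_e_le (u : ℕ → ℝ) (N : ℕ) : ‖∑ k ∈ range N, e (u k)‖ ≤ N := by
  refine (norm_sum_le _ _).trans ?_
  simp [norm_e]

/-- exponential sums for measures with decay `|t| ^ (-β)` -/
theorem near {a : ℝ} (ha : 1 < a) : ∃ K : ℝ, 0 < K ∧ ∀ b : ℝ, a < b → ∀ P : ℝ[X], (∀ x ∈ Icc a b, P.eval x ≠ 0) →
    ∀ (s : ℕ → ℕ), StrictMono s → ∀ A : ℝ, 1 ≤ A → (∀ k, (s k : ℝ) ≤ A * (k + 1)) → ∀ (c : ℕ → ℝ),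
    ∀ (β : ℝ), β < 1 / 2 → ∀ (μ : Measure ℝ), IsFiniteMeasure μ →
      (∃ C : ℝ, ∀ t : ℝ, 1 ≤ |t| → ‖charFun μ t‖ ≤ C * |t| ^ (-β)) →
      ∀ᵐ x ∂μ, x ∈ Icc a b → ∀ δ : ℝ, K * Real.sqrt ((1 / 2 - β) * (A * Real.log b)) < δ →
        ∀ᶠ N : ℕ in atTop, ‖∑ k ∈ range N, e (P.eval x * x ^ s k + c k)‖ ≤ δ * N := by
  obtain ⟨κ, hκ, h⟩ := dim_large ha
  have hla : 0 < Real.log a := Real.log_pos ha
  refine ⟨max (Real.sqrt (2 / κ)) (Real.sqrt (2 / Real.log a)), lt_max_of_lt_left (by positivity), ?_⟩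
  intro b hab P hP s hs A hA hsA c β hβ μ hμ hdec
  set K : ℝ := max (Real.sqrt (2 / κ)) (Real.sqrt (2 / Real.log a)) with hK
  have hK0 : 0 < K := lt_max_of_lt_left (by positivity)
  have hlb : 0 < Real.log b := Real.log_pos (ha.trans hab)
  have hlab : Real.log a ≤ Real.log b := Real.log_le_log (by linarith) hab.le
  have hAl : 0 < A * Real.log b := by positivity
  have hAl' : Real.log a ≤ A * Real.log b := by nlinarith
  set θ : ℝ := K * Real.sqrt ((1 / 2 - β) * (A * Real.log b)) with hθ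
  have hθ0 : 0 ≤ θ := by positivity
  have hθsq : θ ^ 2 = K ^ 2 * ((1 / 2 - β) * (A * Real.log b)) := by
    rw [hθ, mul_pow, Real.sq_sqrt]
    have : 0 < 1 / 2 - β := by linarith
    positivity
  have hK1 : 2 / κ ≤ K ^ 2 := by
    rw [← Real.sqrt_le_left hK0.le] 
    exact le_max_left _ _
  have hK2 : 2 / Real.log a ≤ K ^ 2 := by
    rw [← Real.sqrt_le_left hK0.le] 
    exact le_max_right _ _
  have hq : ∀ q : ℚ, ∀ᵐ x ∂μ, x ∈ Icc a b → θ < q → (q : ℝ) ≤ 1 →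
      ∀ᶠ N : ℕ in atTop, ‖∑ k ∈ range N, e (P.eval x * x ^ s k + c k)‖ ≤ q * N := by
    intro q
    by_cases hq : θ < q ∧ (q : ℝ) ≤ 1
    · obtain ⟨hq1, hq2⟩ := hq
      have hq0 : (0 : ℝ) < q := lt_of_le_of_lt hθ0 hq1
      have hβ0 : 0 < β := by
        by_contra hneg
        push Not at hneg
        have h1 : (1 : ℝ) ≤ θ ^ 2 := by
          rw [hθsq]
          have h2 : Real.log a / 2 ≤ (1 / 2 - β) * (A * Real.log b) := by nlinarith
          calc (1 : ℝ) = 2 / Real.log a * (Real.log a / 2) := by field_simp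
            _ ≤ K ^ 2 * ((1 / 2 - β) * (A * Real.log b)) := by gcongr
        have h3 : 1 ≤ θ := by nlinarith
        linarith
      obtain ⟨C, hC⟩ := hdec
      have hdim := h b hab P hP s hs A hA hsA c q hq0 hq2
      have hlt : dimH (Big P s c q a b) < ENNReal.ofReal (2 * β) := by
        refine lt_of_le_of_lt hdim ?_
        rw [ENNReal.ofReal_lt_ofReal_iff (by linarith)]
        have h1 : (1 - 2 * β) * (A * Real.log b) < κ * (q : ℝ) ^ 2 := by
          have h2 : θ ^ 2 < (q : ℝ) ^ 2 := by nlinarith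
          have h3 : 2 / κ * ((1 / 2 - β) * (A * Real.log b)) ≤ θ ^ 2 := by
            rw [hθsq]
            have : 0 < 1 / 2 - β := by linarith
            gcongr
          have h4 : κ * (2 / κ * ((1 / 2 - β) * (A * Real.log b))) = (1 - 2 * β) * (A * Real.log b) := by
            field_simp
          have h5 : κ * (2 / κ * ((1 / 2 - β) * (A * Real.log b))) < κ * (q : ℝ) ^ 2 :=
            mul_lt_mul_of_pos_left (lt_of_le_of_lt h3 h2) hκ
          linarith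
        have h6 : 1 - 2 * β < κ * (q : ℝ) ^ 2 / (A * Real.log b) := by
          rwa [lt_div_iff₀ hAl]
        linarith
      have hnull := null_of_dimH_lt μ hβ0.le (by linarith) (decay_all hβ0.le hC) hlt
      have hae : ∀ᵐ x ∂μ, x ∉ Big P s c q a b := by
        rw [ae_iff]
        simpa using hnull
      filter_upwards [hae] with x hx hxI _ _
      have h1 : ¬ ∃ᶠ N : ℕ in atTop, (q : ℝ) * N ≤ ‖∑ k ∈ range N, e (P.eval x * x ^ s k + c k)‖ := fun h2 => hx ⟨hxI, h2⟩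
      rw [not_frequently] at h1
      exact h1.mono fun N hN => (not_le.1 hN).le
    · exact Eventually.of_forall fun x _ h1 h2 => absurd ⟨h1, h2⟩ hq
  filter_upwards [ae_all_iff.2 hq] with x hx hxI δ hδ
  rcases le_or_gt 1 δ with h1 | h1
  · refine Eventually.of_forall fun N => (norm_sum_e_le _ N).trans ?_
    have : (0 : ℝ) ≤ N := by positivity
    nlinarith
  · obtain ⟨q, hq1, hq2⟩ := exists_rat_btwn hδ
    refine (hx q hxI hq1 (by linarith)).mono fun N hN => hN.trans ?_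
    gcongr

theorem params' {a : ℝ} (ha : 1 < a) : ∃ c : ℝ, 0 < c ∧ ∀ b β : ℝ, a < b → 0 ≤ β → β < 1 / 2 →
    ∃ b' : ℝ, a < b' ∧ b' ≤ b ∧ ∃ L j₀ : ℕ, 17 ≤ a ^ L ∧ 1 + 8 * (a / (a - 1)) ≤ a ^ L ∧
      (b' ^ β / Real.sqrt a) ^ L ≤ 1 / 3 ∧ b' ^ β / Real.sqrt a ≤ 1 ∧ 2 ≤ L * j₀ ∧
      2 * (b' / (L * j₀) + (b' - a)) / a ^ (L * j₀) ≤ (b' - a) / 2 ∧ c * (1 / 2 - β) ≤ 1 / (4 * L) := by
  have ha0 : 0 < a := by linarith
  have hla : 0 < Real.log a := Real.log_pos ha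
  have hsa : 0 < Real.sqrt a := Real.sqrt_pos.2 ha0
  have hpa : Tendsto (fun n : ℕ => a ^ n) atTop atTop := tendsto_pow_atTop_atTop_of_one_lt ha
  obtain ⟨M₀, hM1, hM2⟩ := ((hpa.eventually_ge_atTop 17).and (hpa.eventually_ge_atTop (1 + 8 * (a / (a - 1))))).exists
  set M : ℝ := max (max (M₀ : ℝ) (2 * Real.log 3 / Real.log a)) 1 with hM
  have hMa : (M₀ : ℝ) ≤ M := (le_max_left _ _).trans (le_max_left _ _)
  have hMb : 2 * Real.log 3 / Real.log a ≤ M := (le_max_right _ _).trans (le_max_left _ _)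
  have hMc : 1 ≤ M := le_max_right _ _
  refine ⟨1 / (8 * M), by positivity, fun b β hab hβ hβ' => ?_⟩
  set ε : ℝ := 1 / 2 - β with hε
  have hε0 : 0 < ε := by rw [hε]; linarith
  have hε1 : ε ≤ 1 / 2 := by rw [hε]; linarith
  -- the end point
  have h1 : a ^ β < a ^ ((1 / 2 + β) / 2) := Real.rpow_lt_rpow_of_exponent_lt ha (by linarith)
  have hc : ContinuousAt (fun x : ℝ => x ^ β) a := Real.continuousAt_rpow_const _ _ (Or.inl ha0.ne')
  have h2 : ∀ᶠ x in 𝓝[>] a, x ^ β < a ^ ((1 / 2 + β) / 2) :=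
    (hc.mono_left nhdsWithin_le_nhds).eventually (gt_mem_nhds h1) |>.mono fun x hx => hx
  have h3 : ∀ᶠ x in 𝓝[>] a, x ≤ b := by
    have : ∀ᶠ x in 𝓝[>] a, x < b := (gt_mem_nhds hab).filter_mono nhdsWithin_le_nhds
    exact this.mono fun x hx => hx.le
  obtain ⟨b', ⟨hb1, hb2⟩, hb3⟩ := ((h2.and h3).and self_mem_nhdsWithin).exists
  have hb3' : a < b' := hb3
  refine ⟨b', hb3', hb2, ?_⟩
  have hb0 : 0 < b' := by linarith
  set θ : ℝ := b' ^ β / Real.sqrt a with hθ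
  have hθ0 : 0 ≤ θ := by positivity
  have hθa : θ ≤ a ^ (-(ε / 2)) := by
    rw [hθ, div_le_iff₀ hsa, Real.sqrt_eq_rpow, ← Real.rpow_add ha0]
    refine hb1.le.trans (le_of_eq ?_)
    congr 1
    rw [hε]
    ring
  have hθ1 : θ ≤ 1 := hθa.trans (Real.rpow_le_one_of_one_le_of_nonpos ha.le (by linarith))
  set L : ℕ := ⌈M / ε⌉₊ with hL
  have hLM : M / ε ≤ L := Nat.le_ceil _
  have hMε : 2 * M ≤ M / ε := by
    rw [le_div_iff₀ hε0]
    nlinarith
  have hLup : (L : ℝ) ≤ 2 * (M / ε) := by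
    have := (Nat.ceil_lt_add_one (show 0 ≤ M / ε by positivity)).le
    have h4 : 1 ≤ M / ε := by linarith
    linarith
  have hLr : 1 ≤ (L : ℝ) := by linarith
  have hL1 : 1 ≤ L := by exact_mod_cast hLr
  have hM₀L : M₀ ≤ L := by
    have : (M₀ : ℝ) ≤ L := by linarith
    exact_mod_cast this
  have hpow : a ^ M₀ ≤ a ^ L := pow_le_pow_right₀ ha.le hM₀L
  -- the starting block
  have hkey : ∀ᶠ n : ℕ in atTop, 2 * (b' + (b' - a)) / ((b' - a) / 2) ≤ a ^ n := hpa.eventually_ge_atTop _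
  have hmul : Tendsto (fun j : ℕ => L * j) atTop atTop := tendsto_id.const_mul_atTop' (by omega)
  obtain ⟨j₀, hj1, hj2⟩ := ((hmul.eventually hkey).and (hmul.eventually_ge_atTop 2)).exists
  refine ⟨L, j₀, hM1.trans hpow, hM2.trans hpow, ?_, hθ1, hj2, ?_, ?_⟩
  · refine (pow_le_pow_left₀ hθ0 hθa L).trans ?_
    rw [← Real.rpow_natCast, ← Real.rpow_mul ha0.le, Real.rpow_def_of_pos ha0]
    have h4 : Real.log a * (-(ε / 2) * (L : ℝ)) ≤ -Real.log 3 := by
      have h5 : M ≤ ε * L := by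
        rw [div_le_iff₀ hε0] at hLM
        linarith
      have h6 : 2 * Real.log 3 ≤ M * Real.log a := by
        rwa [div_le_iff₀ hla] at hMb
      have h7 : M * Real.log a ≤ ε * L * Real.log a := by gcongr
      linarith
    refine (Real.exp_le_exp.2 h4).trans (le_of_eq ?_)
    rw [Real.exp_neg, Real.exp_log (by norm_num)]
    norm_num
  · have hba : 0 < b' - a := by linarith
    have hpow' : 0 < a ^ (L * j₀) := by positivity
    rw [div_le_iff₀ (by linarith)] at hj1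
    rw [div_le_iff₀ hpow']
    have h4 : b' / ((L : ℝ) * j₀) ≤ b' := by
      apply div_le_self hb0.le
      have : (2 : ℝ) ≤ (L : ℝ) * j₀ := by exact_mod_cast hj2
      linarith
    calc 2 * (b' / ((L : ℝ) * j₀) + (b' - a)) ≤ 2 * (b' + (b' - a)) := by linarith
      _ ≤ a ^ (L * j₀) * ((b' - a) / 2) := hj1
      _ = _ := by ring
  · rw [le_div_iff₀ (by positivity)]
    have h4 : ε * L ≤ 2 * M := by
      have : (L : ℝ) * ε ≤ 2 * (M / ε) * ε := by gcongr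
      have h5 : 2 * (M / ε) * ε = 2 * M := by field_simp
      linarith
    have h6 : 1 / (8 * M) * ε * (4 * L) = (ε * L) / (2 * M) := by
      field_simp
      ring
    rw [h6, div_le_one (by positivity)]
    exact h4

theorem below' {a : ℝ} (ha : 1 < a) : ∃ c : ℝ, 0 < c ∧ ∀ b β : ℝ, a < b → 0 ≤ β → β < 1 / 2 →
    ∃ μ : Measure ℝ, IsProbabilityMeasure μ ∧ μ (Icc a b)ᶜ = 0 ∧
      (∃ C : ℝ, ∀ t : ℝ, 1 ≤ |t| → ‖charFun μ t‖ ≤ C * |t| ^ (-β)) ∧
      ∃ ρ : ℝ, c * (1 / 2 - β) ≤ ρ ∧ ∀ᵐ x ∂μ, 1 < x ∧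
        Tendsto (fun N : ℕ => (∑ n ∈ range N, Real.cos (2 * Real.pi * x ^ (n + 1))) / N) atTop (𝓝 ρ) ∧
        ¬ Equi (fun n => x ^ (n + 1)) ∧ (∀ S : Finset ℕ, HasW (unitFam S) x) ∧ HasUnif x := by
  obtain ⟨c, hc, hpar⟩ := params' ha
  refine ⟨c, hc, fun b β hab hβ0 hβ => ?_⟩
  obtain ⟨b', hab', hb', L, j₀, h17, hLa, hθ, hθ1, hj, hm, hcL⟩ := hpar b β hab hβ0 hβ
  obtain ⟨μ, hμ, hsupp, ⟨C, hC0, hC⟩, hcos, ⟨C', hC'0, hdec⟩⟩ :=
    exists_mu ha hab' hβ0 hβ.le h17 hLa hθ hθ1 hj hm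
  have hL1 : 1 ≤ L := by
    rcases Nat.eq_zero_or_pos L with h | h
    · rw [h, pow_zero] at h17
      norm_num at h17
    · exact h
  refine ⟨μ, hμ, ?_, ?_, 1 / (4 * L), hcL, ?_⟩
  · refine measure_mono_null (compl_subset_compl.2 ?_) hsupp
    intro x hx
    exact ⟨hx.1, hx.2.le.trans hb'⟩
  · exact charFun_decay μ hβ0 hC
  · have hall := Pool.Agent.Helper46.TD.ae_all_of_decay μ a b' (by linarith) hab' hsupp (1 / 2) C' (by norm_num) hC'0 hdec
    have hs : ∀ᵐ x ∂μ, x ∈ Ico a b' := by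
      rw [ae_iff]
      exact hsupp
    filter_upwards [hcos, hall, hs] with x h1 h2 h3
    have h4 := shift_mean h1
    refine ⟨ha.trans_le h3.1, h4, fun hE => ?_, h2.1, h2.2⟩
    have h5 := cos_mean_of_equi _ hE h4
    have h6 : (0 : ℝ) < 1 / (4 * L) := by positivity
    linarith

end Pool.Agent.Helper82.FK
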