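import Pool.Agent.Helper82.FK.VC

/-!
# Trigonometric sums with phases in a given set
-/

set_option autoImplicit false

namespace Pool.Agent.Helper82.FK

open MeasureTheory Set

/-- `Comb Φ W w`: `w` is a finite combination of `e(φ)`, `φ ∈ Φ`, with coefficients of total size at most `W` -/
inductive Comb (Φ : Set (ℝ → ℝ)) : ℝ → (ℝ → ℂ) → Prop
  | zero : Comb Φ 0 (fun _ => 0)
  | add (W : ℝ) (w : ℝ → ℂ) (c : ℂ) (φ : ℝ → ℝ) (hφ : φ ∈ Φ) (h : Comb Φ W w) :
      Comb Φ (W + ‖c‖) (fun x => w x + c * e (φ x))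

namespace Comb

variable {Φ Ψ : Set (ℝ → ℝ)} {W V : ℝ} {w v : ℝ → ℂ}

theorem nonneg (h : Comb Φ W w) : 0 ≤ W := by
  induction h with
  | zero => exact le_rfl
  | add W w c φ hφ h ih => exact add_nonneg ih (norm_nonneg _)

theorem mono (hΦ : Φ ⊆ Ψ) (h : Comb Φ W w) : Comb Ψ W w := by
  induction h with
  | zero => exact zero
  | add W w c φ hφ h ih => exact add W w c φ (hΦ hφ) ih

theorem congr (h : Comb Φ W w) {W' : ℝ} {w' : ℝ → ℂ} (hW : W = W') (hw : ∀ x, w x = w' x) : Comb Φ W' w' := by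
  have : w = w' := funext hw
  rw [← hW, ← this]
  exact h

theorem single {φ : ℝ → ℝ} (hφ : φ ∈ Φ) (c : ℂ) : Comb Φ ‖c‖ (fun x => c * e (φ x)) :=
  (add 0 _ c φ hφ zero).congr (zero_add _) fun x => zero_add _

theorem phase {φ : ℝ → ℝ} (hφ : φ ∈ Φ) : Comb Φ 1 (fun x => e (φ x)) :=
  (single hφ 1).congr (by simp) fun x => one_mul _

theorem plus (h : Comb Φ W w) (h' : Comb Φ V v) : Comb Φ (W + V) (fun x => w x + v x) := by
  induction h' with
  | zero => exact h.congr (by simp) fun x => by simp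
  | add V v c φ hφ h' ih =>
    exact (add _ _ c φ hφ ih).congr (by ring) fun x => by ring

theorem smul (h : Comb Φ W w) (c : ℂ) : Comb Φ (‖c‖ * W) (fun x => c * w x) := by
  induction h with
  | zero => exact zero.congr (by simp) fun x => by simp
  | add W w c' φ hφ h ih =>
    exact (add _ _ (c * c') φ hφ ih).congr (by rw [norm_mul]; ring) fun x => by ring

/-- multiplication by one phase -/
theorem mul_phase (h : Comb Φ W w) {ψ : ℝ → ℝ} (hΨ : ∀ φ ∈ Φ, (fun x => φ x + ψ x) ∈ Ψ) :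
    Comb Ψ W (fun x => w x * e (ψ x)) := by
  induction h with
  | zero => exact zero.congr rfl fun x => by simp
  | add W w c φ hφ h ih =>
    exact (add _ _ c _ (hΨ φ hφ) ih).congr rfl fun x => by rw [e_add]; ring

theorem mul {Θ : Set (ℝ → ℝ)} (h : Comb Φ W w) (h' : Comb Ψ V v) (hΘ : ∀ φ ∈ Φ, ∀ ψ ∈ Ψ, (fun x => φ x + ψ x) ∈ Θ) :
    Comb Θ (W * V) (fun x => w x * v x) := by
  induction h' with
  | zero => exact zero.congr (by simp) fun x => by simp
  | add V v c ψ hψ h' ih =>
    have h1 : Comb Θ W (fun x => w x * e (ψ x)) := h.mul_phase fun φ hφ => hΘ φ hφ ψ hψ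
    exact (ih.plus (h1.smul c)).congr (by ring) fun x => by ring

theorem continuousOn {s : Set ℝ} (h : Comb Φ W w) (hc : ∀ φ ∈ Φ, ContinuousOn φ s) : ContinuousOn w s := by
  induction h with
  | zero => exact continuousOn_const
  | add W w c φ hφ h ih =>
    exact ih.add (continuousOn_const.mul (continuous_e.comp_continuousOn (hc φ hφ)))

theorem norm_integral_le {a b : ℝ} (h : Comb Φ W w) (hc : ∀ φ ∈ Φ, ContinuousOn φ (uIcc a b)) {B : ℝ}
    (hB : ∀ φ ∈ Φ, ‖∫ x in a..b, e (φ x)‖ ≤ B) : ‖∫ x in a..b, w x‖ ≤ W * B := by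
  induction h with
  | zero => simp
  | add W w c φ hφ h ih =>
    have h1 : IntervalIntegrable w volume a b := (h.continuousOn hc).intervalIntegrable
    have h2 : IntervalIntegrable (fun x => e (φ x)) volume a b :=
      (continuous_e.comp_continuousOn (hc φ hφ)).intervalIntegrable
    rw [intervalIntegral.integral_add h1 (h2.const_mul _), intervalIntegral.integral_const_mul]
    refine (norm_add_le _ _).trans ?_
    rw [norm_mul, add_mul]
    exact add_le_add ih (mul_le_mul_of_nonneg_left (hB φ hφ) (norm_nonneg _))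

end Comb

end Pool.Agent.Helper82.FK
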