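import Pool.Agent.Helper82.FK.Riesz

/-!
# Correlations of `cos(2π x^n)` against the Riesz products
-/

set_option autoImplicit false

namespace Pool.Agent.Helper82.FK

open MeasureTheory Set Finset

/-- centred cosines: `n = tt k + r` -/
noncomputable def Y (L j₀ r k : ℕ) (x : ℝ) : ℝ :=
  Real.cos (2 * Real.pi * x ^ (tt L j₀ k + r)) - if r = 0 then 1 / 4 else 0

theorem continuous_Y (L j₀ r k : ℕ) : Continuous (Y L j₀ r k) := by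
  unfold Y
  fun_prop

theorem abs_Y_le (L j₀ r k : ℕ) (x : ℝ) : |Y L j₀ r k x| ≤ 5 / 4 := by
  unfold Y
  have h1 := Real.neg_one_le_cos (2 * Real.pi * x ^ (tt L j₀ k + r))
  have h2 := Real.cos_le_one (2 * Real.pi * x ^ (tt L j₀ k + r))
  rw [abs_le]
  split_ifs <;> constructor <;> linarith

/-- multiples of one monomial -/
def Mo (c₀ c₁ : ℝ) (n : ℕ) : Set (ℝ → ℝ) := {φ | ∃ c : ℝ, c₀ ≤ |c| ∧ |c| ≤ c₁ ∧ ∀ x, φ x = c * x ^ n}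

theorem cos_mo (n : ℕ) : Comb (Mo 1 1 n) 1 (fun x => ((Real.cos (2 * Real.pi * x ^ n) : ℝ) : ℂ)) :=
  cos_comb (φ := fun x => x ^ n) ⟨1, by simp, by simp, by simp⟩ ⟨-1, by simp, by simp, by simp⟩

theorem Mo_mono {c₀ c₁ d₀ d₁ : ℝ} (h0 : d₀ ≤ c₀) (h1 : c₁ ≤ d₁) (n : ℕ) : Mo c₀ c₁ n ⊆ Mo d₀ d₁ n := by
  rintro φ ⟨c, h2, h3, h⟩
  exact ⟨c, h0.trans h2, h3.trans h1, h⟩

theorem Y_zero_comb (L j₀ k : ℕ) : Comb (Mo 0 1 (tt L j₀ k)) (5 / 4) (fun x => ((Y L j₀ 0 k x : ℝ) : ℂ)) := by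
  have h1 := (cos_mo (tt L j₀ k)).mono (Mo_mono (d₀ := 0) (d₁ := 1) (by norm_num) le_rfl _)
  have hz : (fun _ => (0 : ℝ)) ∈ Mo 0 1 (tt L j₀ k) := ⟨0, by simp, by simp, by simp⟩
  have h2 : Comb (Mo 0 1 (tt L j₀ k)) ‖(-(1 / 4) : ℂ)‖ (fun x => (-(1 / 4) : ℂ) * e ((fun _ => (0 : ℝ)) x)) :=
    Comb.single hz _
  refine (h1.plus h2).congr (by norm_num) fun x => ?_
  unfold Y
  simp only [e_zero, add_zero, if_true]
  push_cast
  ring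

theorem wY_comb (L j₀ k : ℕ) : Comb (Mo 1 2 (tt L j₀ k)) (9 / 8)
    (fun x => (((1 + 1 / 2 * Real.cos (2 * Real.pi * x ^ tt L j₀ k)) * Y L j₀ 0 k x : ℝ) : ℂ)) := by
  have h1 := (cos_mo (tt L j₀ k)).mono (Mo_mono (d₀ := 1) (d₁ := 2) le_rfl (by norm_num) _)
  have h2 : Comb (Mo 1 2 (tt L j₀ k)) 1 (fun x => ((Real.cos (2 * Real.pi * ((fun x : ℝ => 2 * x ^ tt L j₀ k) x)) : ℝ) : ℂ)) :=
    cos_comb ⟨2, by simp, by simp, by simp⟩ ⟨-2, by simp, by simp, by simp⟩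
  refine ((h1.smul (7 / 8)).plus (h2.smul (1 / 4))).congr (by norm_num) fun x => ?_
  unfold Y
  simp only [add_zero, if_true]
  have h3 : Real.cos (2 * Real.pi * (2 * x ^ tt L j₀ k)) = 2 * Real.cos (2 * Real.pi * x ^ tt L j₀ k) ^ 2 - 1 := by
    rw [← Real.cos_two_mul]
    congr 1
    ring
  rw [h3]
  push_cast
  ring

theorem Ph_add {M c : ℝ} {L j₀ J k : ℕ} (hk : k < J) {φ : ℝ → ℝ} (hφ : φ ∈ Ph M L j₀ J) (hc : |c| ≤ 1) :
    (fun x => φ x + c * x ^ tt L j₀ k) ∈ Ph (M + 1) L j₀ J := by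
  obtain ⟨σ, hσ, h⟩ := hφ
  refine ⟨fun i => σ i + if i = k then c else 0, fun i => ?_, fun x => ?_⟩
  · refine (abs_add_le _ _).trans (add_le_add (hσ i) ?_)
    split_ifs
    · exact hc
    · simp
  · show φ x + c * x ^ tt L j₀ k = _
    rw [h]
    simp only [add_mul, sum_add_distrib, ite_mul, zero_mul, sum_ite_eq', Finset.mem_range, hk, if_true]

theorem PhT_add {M c : ℝ} {L j₀ J k : ℕ} (hk : k < J) {φ : ℝ → ℝ} (hφ : φ ∈ PhT M L j₀ J) (hc : |c| ≤ 1) :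
    (fun x => φ x + c * x ^ tt L j₀ k) ∈ PhT (M + 1) L j₀ J := by
  obtain ⟨σ, τ, hσ, h1, h2, h⟩ := hφ
  obtain ⟨σ', hσ', h'⟩ := Ph_add hk (φ := fun x => ∑ i ∈ range J, σ i * x ^ tt L j₀ i) ⟨σ, hσ, fun x => rfl⟩ hc
  refine ⟨σ', τ, hσ', h1, by linarith, fun x => ?_⟩
  show φ x + c * x ^ tt L j₀ k = _
  rw [h, ← h']
  ring

/-- adding to two different places -/
theorem PhT_add2 {c d : ℝ} {L j₀ J k l : ℕ} (hk : k < J) (hl : l < J) (hkl : k ≠ l) {φ : ℝ → ℝ} (hφ : φ ∈ PhT 1 L j₀ J)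
    (hc : |c| ≤ 1) (hd : |d| ≤ 1) :
    (fun x => φ x + c * x ^ tt L j₀ k + d * x ^ tt L j₀ l) ∈ PhT 2 L j₀ J := by
  obtain ⟨σ, τ, hσ, h1, h2, h⟩ := hφ
  refine ⟨fun i => σ i + ((if i = k then c else 0) + if i = l then d else 0), τ, fun i => ?_, h1, by linarith, fun x => ?_⟩
  · refine (abs_add_le _ _).trans (le_trans (add_le_add (hσ i) (?_ : _ ≤ (1 : ℝ))) (by norm_num))
    by_cases hik : i = k
    · have : i ≠ l := fun h => hkl (hik.symm.trans h)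
      simp [hik, hkl, hc]
    · by_cases hil : i = l
      · rw [if_neg hik, if_pos hil, zero_add]
        exact hd
      · simp [hik, hil]
  · show φ x + c * x ^ tt L j₀ k + d * x ^ tt L j₀ l = _
    rw [h]
    simp only [add_mul, sum_add_distrib, ite_mul, zero_mul, sum_ite_eq', Finset.mem_range, hk, hl, if_true]
    ring

/-- summation over the top index -/
theorem cov_sum {a b : ℝ} {L j₀ : ℕ} {w : ℝ → ℂ} (hw : Continuous w) {k J : ℕ} (hkJ : k + 1 ≤ J) {D : ℝ} (hD : 0 ≤ D)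
    (h1 : ‖∫ x in a..b, ((F L j₀ (k + 1) x : ℝ) : ℂ) * w x‖ ≤ D * (1 / 6) ^ k)
    (h2 : ∀ j, k < j → ‖∫ x in a..b, ((F L j₀ j x * Real.cos (2 * Real.pi * x ^ tt L j₀ j) : ℝ) : ℂ) * w x‖ ≤ D * (1 / 6) ^ j) :
    ‖∫ x in a..b, ((F L j₀ J x : ℝ) : ℂ) * w x‖ ≤ 2 * D * (1 / 6) ^ k := by
  rw [F_tele L j₀ hw (k + 1) J hkJ]
  refine (norm_add_le _ _).trans ?_
  have h3 : ‖∑ j ∈ Finset.Ico (k + 1) J, 1 / 2 * ∫ x in a..b, ((F L j₀ j x * Real.cos (2 * Real.pi * x ^ tt L j₀ j) : ℝ) : ℂ) * w x‖ ≤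
      D * (1 / 6) ^ k := by
    refine (norm_sum_le _ _).trans ?_
    have h4 : ∀ j ∈ Finset.Ico (k + 1) J, ‖(1 / 2 : ℂ) * ∫ x in a..b, ((F L j₀ j x * Real.cos (2 * Real.pi * x ^ tt L j₀ j) : ℝ) : ℂ) * w x‖ ≤
        D * (1 / 6) ^ j := by
      intro j hj
      rw [Finset.mem_Ico] at hj
      rw [norm_mul]
      have h9 : ‖(1 / 2 : ℂ)‖ = 1 / 2 := by norm_num
      rw [h9]
      have h10 := h2 j (by omega)
      have h11 : 0 ≤ D * (1 / 6) ^ j := by positivity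
      linarith
    refine (sum_le_sum h4).trans ?_
    rw [← mul_sum]
    have h5 := geo6 (k + 1) J
    have h6 : (6 : ℝ) / 5 * (1 / 6) ^ (k + 1) ≤ (1 / 6) ^ k := by
      rw [pow_succ]
      have : (0 : ℝ) < (1 / 6) ^ k := by positivity
      linarith
    exact mul_le_mul_of_nonneg_left (h5.trans h6) hD
  linarith

/-- correlations on the multiples of `L` -/
theorem cov0 {a b : ℝ} {L j₀ : ℕ} (ha : 1 ≤ a) (hab : a ≤ b) (hL : 17 ≤ a ^ L) (hj : 1 ≤ L * j₀) :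
    ∃ C : ℝ, 0 < C ∧ ∀ J k l : ℕ, l < k → k < J →
      ‖∫ x in a..b, ((F L j₀ J x : ℝ) : ℂ) * (((Y L j₀ 0 k x : ℝ) : ℂ) * ((Y L j₀ 0 l x : ℝ) : ℂ))‖ ≤ C * (1 / 6) ^ k := by
  have ha0 : 0 < a := by linarith
  have hb0 : 0 < b := by linarith
  set D₀ : ℝ := 3 * 2 * (b / (L * j₀) + (b - a)) with hD₀
  have hD₀0 : 0 ≤ D₀ := by
    have : 0 ≤ b - a := by linarith
    positivity
  have hosc : ∀ J, ∀ φ ∈ PhT 2 L j₀ J, ‖∫ x in a..b, e (φ x)‖ ≤ D₀ / 9 ^ J := by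
    intro J φ hφ
    refine (PhT_osc ha hab (by norm_num) (by linarith) hj J hφ).trans ?_
    apply div_le_div_of_nonneg_left hD₀0 (by positivity)
    have h1 := pow_tt (a' := a) (L := L) (by linarith) ha j₀ J
    have h2 : (1 : ℝ) ≤ a ^ (L * j₀) := one_le_pow₀ ha
    have h3 : (0 : ℝ) < 9 ^ J := by positivity
    nlinarith
  have h69 : ∀ j : ℕ, (3 / 2 : ℝ) ^ j / 9 ^ j = (1 / 6) ^ j := by
    intro j
    rw [← div_pow]
    norm_num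
  refine ⟨2 * (2 * D₀) + 1, by positivity, ?_⟩
  intro J k l hlk hkJ
  have hw : Continuous fun x => ((Y L j₀ 0 k x : ℝ) : ℂ) * ((Y L j₀ 0 l x : ℝ) : ℂ) := by
    have h1 := continuous_Y L j₀ 0 k
    have h2 := continuous_Y L j₀ 0 l
    fun_prop
  refine (cov_sum (D := 2 * D₀) hw hkJ (by positivity) ?_ ?_).trans ?_
  · -- top exponent `tt k`
    have h1 := (F_comb L j₀ k).mul (Y_zero_comb L j₀ l) (Θ := Ph 2 L j₀ k) (by
      rintro φ hφ ψ ⟨c, -, hc, hψ⟩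
      have h2 := Ph_add hlk hφ hc
      rw [show (fun x => φ x + ψ x) = fun x => φ x + c * x ^ tt L j₀ l from funext fun x => by rw [hψ]]
      rwa [show (1 : ℝ) + 1 = 2 by norm_num] at h2)
    have h2 := h1.mul (wY_comb L j₀ k) (Θ := PhT 2 L j₀ k) (by
      rintro φ ⟨σ, hσ, h⟩ ψ ⟨c, hc0, hc, hψ⟩
      exact ⟨σ, c, hσ, hc0, hc, fun x => by
        show φ x + ψ x = _
        rw [h, hψ, add_comm]⟩)
    have h3 := h2.norm_integral_le (a := a) (b := b) (fun φ hφ => (PhT_continuous hφ).continuousOn) (hosc k)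
    have h4 : ∫ x in a..b, ((F L j₀ (k + 1) x : ℝ) : ℂ) * (((Y L j₀ 0 k x : ℝ) : ℂ) * ((Y L j₀ 0 l x : ℝ) : ℂ)) =
        ∫ x in a..b, ((F L j₀ k x : ℝ) : ℂ) * ((Y L j₀ 0 l x : ℝ) : ℂ) *
          (((1 + 1 / 2 * Real.cos (2 * Real.pi * x ^ tt L j₀ k)) * Y L j₀ 0 k x : ℝ) : ℂ) := by
      apply intervalIntegral.integral_congr
      intro x _
      show ((F L j₀ (k + 1) x : ℝ) : ℂ) * (((Y L j₀ 0 k x : ℝ) : ℂ) * ((Y L j₀ 0 l x : ℝ) : ℂ)) = _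
      rw [F_succ]
      push_cast
      ring
    rw [h4]
    refine h3.trans ?_
    calc (3 / 2 : ℝ) ^ k * (5 / 4) * (9 / 8) * (D₀ / 9 ^ k) = 45 / 32 * D₀ * ((3 / 2) ^ k / 9 ^ k) := by ring
      _ = 45 / 32 * D₀ * (1 / 6) ^ k := by rw [h69]
      _ ≤ 2 * D₀ * (1 / 6) ^ k := by gcongr; norm_num
  · intro j hj'
    have h1 : Comb (Mo 0 1 (tt L j₀ k)) (5 / 4) (fun x => ((Y L j₀ 0 k x : ℝ) : ℂ)) := Y_zero_comb L j₀ k
    have h2 := (((FT_comb L j₀ j).mul h1 (Θ := {φ | ∃ φ₀ ∈ PhT 1 L j₀ j, ∃ c : ℝ, |c| ≤ 1 ∧ ∀ x, φ x = φ₀ x + c * x ^ tt L j₀ k}) (by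
      rintro φ hφ ψ ⟨c, -, hc, hψ⟩
      exact ⟨φ, hφ, c, hc, fun x => by
        show φ x + ψ x = _
        rw [hψ]⟩)).mul (Y_zero_comb L j₀ l) (Θ := PhT 2 L j₀ j) (by
      rintro φ ⟨φ₀, hφ₀, c, hc, h⟩ ψ ⟨d, -, hd, hψ⟩
      have h3 := PhT_add2 (J := j) (k := k) (l := l) hj' (hlk.trans hj') hlk.ne' hφ₀ hc hd
      rwa [show (fun x => φ x + ψ x) = fun x => φ₀ x + c * x ^ tt L j₀ k + d * x ^ tt L j₀ l from
        funext fun x => by rw [h, hψ]]))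
    have h3 := h2.norm_integral_le (a := a) (b := b) (fun φ hφ => (PhT_continuous hφ).continuousOn) (hosc j)
    simp_rw [mul_assoc] at h3
    have h4 : ∫ x in a..b, ((F L j₀ j x * Real.cos (2 * Real.pi * x ^ tt L j₀ j) : ℝ) : ℂ) *
        (((Y L j₀ 0 k x : ℝ) : ℂ) * ((Y L j₀ 0 l x : ℝ) : ℂ)) = ∫ x in a..b, ((F L j₀ j x * Real.cos (2 * (Real.pi * x ^ tt L j₀ j)) : ℝ) : ℂ) *
        (((Y L j₀ 0 k x : ℝ) : ℂ) * ((Y L j₀ 0 l x : ℝ) : ℂ)) := by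
      simp_rw [mul_assoc]
    rw [h4]
    refine h3.trans ?_
    calc (3 / 2 : ℝ) ^ j * ((5 / 4) * ((5 / 4) * (D₀ / 9 ^ j))) = 25 / 16 * D₀ * ((3 / 2) ^ j / 9 ^ j) := by ring
      _ = 25 / 16 * D₀ * (1 / 6) ^ j := by rw [h69]
      _ ≤ 2 * D₀ * (1 / 6) ^ j := by gcongr; norm_num
  · have : (0 : ℝ) < (1 / 6) ^ k := by positivity
    nlinarith

end Pool.Agent.Helper82.FK
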