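import Pool.Agent.Helper82.FK.Cov

/-!
# Correlations between the multiples of `L`
-/

set_option autoImplicit false

namespace Pool.Agent.Helper82.FK

open MeasureTheory Set Finset

theorem Bd.smul {I : Set ℝ} {G A B : ℝ → ℝ} (h : Bd I G A B) (c : ℝ) :
    Bd I (fun x => c * G x) (fun x => |c| * A x) (fun x => |c| * B x) := by
  obtain ⟨G', G'', h1, h2, h3, h4, h5⟩ := h
  exact ⟨fun x => c * G' x, fun x => c * G'' x, fun x hx => (h1 x hx).const_mul c,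
    fun x hx => (h2 x hx).const_mul c, continuousOn_const.mul h3,
    fun x hx => by rw [abs_mul]; exact mul_le_mul_of_nonneg_left (h4 x hx) (abs_nonneg _),
    fun x hx => by rw [abs_mul]; exact mul_le_mul_of_nonneg_left (h5 x hx) (abs_nonneg _)⟩

/-- lower order terms of a lacunary sum with a small constant -/
theorem Bd.lac' {a' b' : ℝ} (h0 : 1 ≤ a') {M : ℝ} (hM : 1 ≤ M) {L : ℕ} (hL : 1 + 8 * M ≤ a' ^ L) {t : ℕ → ℕ}
    (ht : ∀ i, t i + L ≤ t (i + 1)) (J : ℕ) {σ : ℕ → ℝ} (hσ : ∀ i, |σ i| ≤ 1) :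
    Bd (Icc a' b') (fun x => ∑ i ∈ range J, σ i * x ^ t i) (fun x => 1 / (8 * M) * (t J * x ^ t J / x))
      (fun x => 1 / (8 * M) * ((t J : ℝ) ^ 2 * x ^ t J / x ^ 2)) := by
  have hM0 : 0 < M := by linarith
  have h := (Bd.lac (b' := b') h0 hM hL ht J (σ := fun i => M * σ i) (fun i => by
    rw [abs_mul, abs_of_pos hM0]
    have := mul_le_mul_of_nonneg_left (hσ i) hM0.le
    linarith)).smul (1 / M)
  have h1 : (fun x : ℝ => 1 / M * ∑ i ∈ range J, M * σ i * x ^ t i) = fun x => ∑ i ∈ range J, σ i * x ^ t i := by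
    funext x
    rw [mul_sum]
    refine sum_congr rfl fun i _ => ?_
    field_simp
  rw [h1] at h
  refine h.mono (fun x _ => le_of_eq ?_) (fun x _ => le_of_eq ?_)
  · rw [abs_of_pos (by positivity)]
    field_simp
  · rw [abs_of_pos (by positivity)]
    field_simp

theorem cmp1 {x K : ℝ} (hx : 1 ≤ x) (hK : 0 < K) {m n g : ℕ} (h : m + g ≤ n) (hg : K ≤ x ^ g) :
    (m : ℝ) * x ^ m / x ≤ 1 / K * (n * x ^ n / x) ∧ (m : ℝ) ^ 2 * x ^ m / x ^ 2 ≤ 1 / K * ((n : ℝ) ^ 2 * x ^ n / x ^ 2) := by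
  have hx0 : 0 < x := by linarith
  have hmn : (m : ℝ) ≤ n := by exact_mod_cast (by omega : m ≤ n)
  have h1 : K * x ^ m ≤ x ^ n := by
    calc K * x ^ m ≤ x ^ g * x ^ m := by gcongr
      _ = x ^ (m + g) := by rw [← pow_add, add_comm]
      _ ≤ x ^ n := pow_le_pow_right₀ hx h
  have h2 : x ^ m ≤ 1 / K * x ^ n := by
    rw [one_div, ← div_eq_inv_mul, le_div_iff₀ hK, mul_comm]
    exact h1
  constructor
  · calc (m : ℝ) * x ^ m / x ≤ n * (1 / K * x ^ n) / x := by gcongr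
      _ = _ := by ring
  · calc (m : ℝ) ^ 2 * x ^ m / x ^ 2 ≤ (n : ℝ) ^ 2 * (1 / K * x ^ n) / x ^ 2 := by gcongr
      _ = _ := by ring

section
variable {a b : ℝ} {L j₀ : ℕ}

/-- top exponent `tt k + r` -/
theorem oscX1 (ha : 1 < a) (hab : a ≤ b) (hL : 1 + 8 * (a / (a - 1)) ≤ a ^ L) (hj : 1 ≤ L * j₀) {k l r : ℕ}
    (hlk : l < k) (hr : 1 ≤ r) {σ : ℕ → ℝ} (hσ : ∀ i, |σ i| ≤ 1) {τ τ' : ℝ} (hτ : |τ| = 1) (hτ' : |τ'| ≤ 1) :
    ‖∫ x in a..b, e (τ * x ^ (tt L j₀ k + r) + (∑ i ∈ range k, σ i * x ^ tt L j₀ i + σ k * x ^ tt L j₀ k +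
      τ' * x ^ (tt L j₀ l + r)))‖ ≤ (2 * b / (3 / 4 * (1 - 1 / a)) + 2 / (3 / 4 * (1 - 1 / a)) ^ 2 * (b - a)) / 9 ^ k := by
  have ha0 : 0 < a := by linarith
  have ha1 : 0 < a - 1 := by linarith
  have hb0 : 0 < b := by linarith
  set M := a / (a - 1) with hM
  have hM1 : 1 ≤ M := by rw [hM, le_div_iff₀ ha1]; linarith
  set η := 3 / 4 * (1 - 1 / a) with hη
  have hη0 : 0 < η := by
    have : 1 / a < 1 := by rw [div_lt_one ha0]; exact ha
    rw [hη]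
    linarith
  have hM8 : 1 / (8 * M) = (1 - 1 / a) / 8 := by
    rw [hM]
    field_simp
  have hI : ∀ x ∈ Icc a b, 0 < x := fun x hx => by linarith [hx.1]
  have hR := ((Bd.lac' (b' := b) ha.le hM1 hL (tt_le L j₀) k hσ).add (Bd.monomial hI (σ k) (tt L j₀ k))).add
    (Bd.monomial hI τ' (tt L j₀ l + r))
  have hlkL : tt L j₀ l + r + L ≤ tt L j₀ k + r := by
    have h1 : tt L j₀ l + L ≤ tt L j₀ k := by
      rw [tt_succ]
      unfold tt
      exact Nat.mul_le_mul_left L (by omega)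
    omega
  have hn1 : 1 ≤ tt L j₀ k + r := by omega
  have hfr : (1 / (8 * M) + 1) * (1 / a) + 1 / (8 * M) ≤ 1 - η := by
    rw [hM8, hη]
    have h1 : 0 < 1 / a := by positivity
    have h2 : 1 / a < 1 := by rw [div_lt_one ha0]; exact ha
    nlinarith
  have key : ∀ (u v w : ℝ), 0 ≤ v → u ≤ 1 / a * v → w ≤ 1 / (8 * M) * v → 0 ≤ u → 0 ≤ w →
      1 / (8 * M) * u + |σ k| * u + |τ'| * w ≤ (1 - η) * v := by
    intro u v w hv hu hw hu0 hw0
    have h1 : |σ k| * u ≤ u := by nlinarith [hσ k]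
    have h2 : |τ'| * w ≤ w := by nlinarith
    have h3 : 0 < 1 / (8 * M) := by positivity
    have h4 : (1 / (8 * M) + 1) * u ≤ (1 / (8 * M) + 1) * (1 / a * v) := mul_le_mul_of_nonneg_left hu (by linarith)
    have h5 := mul_le_mul_of_nonneg_right hfr hv
    linarith
  have hc1 : ∀ x ∈ Icc a b, _ := fun x hx => cmp1 (x := x) (K := a) (m := tt L j₀ k) (n := tt L j₀ k + r) (g := r)
    (ha.le.trans hx.1) ha0 le_rfl (by
      calc a ≤ x := hx.1
        _ = x ^ 1 := (pow_one x).symm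
        _ ≤ x ^ r := pow_le_pow_right₀ (ha.le.trans hx.1) hr)
  have hc2 : ∀ x ∈ Icc a b, _ := fun x hx => cmp1 (x := x) (K := 8 * M) (m := tt L j₀ l + r) (n := tt L j₀ k + r) (g := L)
    (ha.le.trans hx.1) (by positivity) hlkL (by
      have := pow_le_pow_left₀ ha0.le hx.1 L
      linarith)
  have h := osc ha0 hab hn1 (σ := τ) (η := η) (M := 1) hη0 hτ.ge hτ.le hR ?_ ?_
  · refine h.trans ?_
    have h1 : (9 : ℝ) ^ k ≤ a ^ (tt L j₀ k + r) := by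
      have h2 := pow_tt (a' := a) (L := L) (by linarith [hM1]) ha.le j₀ k
      have h3 : (1 : ℝ) ≤ a ^ (L * j₀) := one_le_pow₀ ha.le
      have h4 : a ^ tt L j₀ k ≤ a ^ (tt L j₀ k + r) := pow_le_pow_right₀ ha.le (Nat.le_add_right _ _)
      have h5 : (0 : ℝ) < 9 ^ k := by positivity
      nlinarith
    have h2 : 2 * b / (η * ((tt L j₀ k + r : ℕ) : ℝ)) ≤ 2 * b / η := by
      apply div_le_div_of_nonneg_left (by positivity) hη0
      have : (1 : ℝ) ≤ ((tt L j₀ k + r : ℕ) : ℝ) := by exact_mod_cast hn1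
      nlinarith
    have h3 : 0 ≤ b - a := by linarith
    apply div_le_div₀ (by positivity) _ (by positivity) h1
    rw [mul_one]
    linarith
  · intro x hx
    have hx0 := hI x hx
    exact key _ _ _ (by positivity) (hc1 x hx).1 (hc2 x hx).1 (by positivity) (by positivity)
  · intro x hx
    have hx0 := hI x hx
    have hv : 0 ≤ ((tt L j₀ k + r : ℕ) : ℝ) ^ 2 * x ^ (tt L j₀ k + r) / x ^ 2 := by positivity
    have := key _ _ _ hv (hc1 x hx).2 (hc2 x hx).2 (by positivity) (by positivity)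
    refine this.trans ?_
    nlinarith

/-- top exponent `tt j` -/
theorem oscX2 (ha : 1 < a) (hab : a ≤ b) (hL : 1 + 8 * (a / (a - 1)) ≤ a ^ L) (hj : 1 ≤ L * j₀) {j k l r : ℕ}
    (hlk : l < k) (hkj : k < j) (hr : r < L) {σ : ℕ → ℝ} (hσ : ∀ i, |σ i| ≤ 1) {τ c d : ℝ} (hτ : |τ| = 1) (hc : |c| ≤ 1)
    (hd : |d| ≤ 1) :
    ‖∫ x in a..b, e (τ * x ^ tt L j₀ j + (∑ i ∈ range j, σ i * x ^ tt L j₀ i + c * x ^ (tt L j₀ k + r) +
      d * x ^ (tt L j₀ l + r)))‖ ≤ (2 * b / (3 / 4 * (1 - 1 / a)) + 2 / (3 / 4 * (1 - 1 / a)) ^ 2 * (b - a)) / 9 ^ j := by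
  have ha0 : 0 < a := by linarith
  have ha1 : 0 < a - 1 := by linarith
  have hb0 : 0 < b := by linarith
  set M := a / (a - 1) with hM
  have hM1 : 1 ≤ M := by rw [hM, le_div_iff₀ ha1]; linarith
  set η := 3 / 4 * (1 - 1 / a) with hη
  have hη0 : 0 < η := by
    have : 1 / a < 1 := by rw [div_lt_one ha0]; exact ha
    rw [hη]
    linarith
  have hM8 : 1 / (8 * M) = (1 - 1 / a) / 8 := by
    rw [hM]
    field_simp
  have hI : ∀ x ∈ Icc a b, 0 < x := fun x hx => by linarith [hx.1]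
  have hR := ((Bd.lac' (b' := b) ha.le hM1 hL (tt_le L j₀) j hσ).add (Bd.monomial hI c (tt L j₀ k + r))).add
    (Bd.monomial hI d (tt L j₀ l + r))
  have hkj1 : tt L j₀ k + r + 1 ≤ tt L j₀ j := by
    have h1 : tt L j₀ k + L ≤ tt L j₀ j := by
      rw [tt_succ]
      unfold tt
      exact Nat.mul_le_mul_left L (by omega)
    omega
  have hlkL : tt L j₀ l + r + L ≤ tt L j₀ j := by
    have h1 : tt L j₀ l + L ≤ tt L j₀ k := by
      rw [tt_succ]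
      unfold tt
      exact Nat.mul_le_mul_left L (by omega)
    omega
  have hn1 : 1 ≤ tt L j₀ j := by omega
  have hfr : 1 / (8 * M) + 1 / a + 1 / (8 * M) ≤ 1 - η := by
    rw [hM8, hη]
    linarith
  have key : ∀ (u v w : ℝ), 0 ≤ v → u ≤ 1 / a * v → w ≤ 1 / (8 * M) * v → 0 ≤ u → 0 ≤ w →
      1 / (8 * M) * v + |c| * u + |d| * w ≤ (1 - η) * v := by
    intro u v w hv hu hw hu0 hw0
    have h1 : |c| * u ≤ u := by nlinarith
    have h2 : |d| * w ≤ w := by nlinarith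
    have h5 := mul_le_mul_of_nonneg_right hfr hv
    linarith
  have hc1 : ∀ x ∈ Icc a b, _ := fun x hx => cmp1 (x := x) (K := a) (m := tt L j₀ k + r) (n := tt L j₀ j) (g := 1)
    (ha.le.trans hx.1) ha0 hkj1 (by rw [pow_one]; exact hx.1)
  have hc2 : ∀ x ∈ Icc a b, _ := fun x hx => cmp1 (x := x) (K := 8 * M) (m := tt L j₀ l + r) (n := tt L j₀ j) (g := L)
    (ha.le.trans hx.1) (by positivity) hlkL (by
      have := pow_le_pow_left₀ ha0.le hx.1 L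
      linarith)
  have h := osc ha0 hab hn1 (σ := τ) (η := η) (M := 1) hη0 hτ.ge hτ.le hR ?_ ?_
  · refine h.trans ?_
    have h1 : (9 : ℝ) ^ j ≤ a ^ tt L j₀ j := by
      have h2 := pow_tt (a' := a) (L := L) (by linarith [hM1]) ha.le j₀ j
      have h3 : (1 : ℝ) ≤ a ^ (L * j₀) := one_le_pow₀ ha.le
      have h5 : (0 : ℝ) < 9 ^ j := by positivity
      nlinarith
    have h2 : 2 * b / (η * (tt L j₀ j : ℝ)) ≤ 2 * b / η := by
      apply div_le_div_of_nonneg_left (by positivity) hη0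
      have : (1 : ℝ) ≤ (tt L j₀ j : ℝ) := by exact_mod_cast hn1
      nlinarith
    have h3 : 0 ≤ b - a := by linarith
    apply div_le_div₀ (by positivity) _ (by positivity) h1
    rw [mul_one]
    linarith
  · intro x hx
    have hx0 := hI x hx
    exact key _ _ _ (by positivity) (hc1 x hx).1 (hc2 x hx).1 (by positivity) (by positivity)
  · intro x hx
    have hx0 := hI x hx
    have hv : 0 ≤ (tt L j₀ j : ℝ) ^ 2 * x ^ tt L j₀ j / x ^ 2 := by positivity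
    have := key _ _ _ hv (hc1 x hx).2 (hc2 x hx).2 (by positivity) (by positivity)
    refine this.trans ?_
    nlinarith

/-- correlations off the multiples of `L` -/
theorem cov1 (ha : 1 < a) (hab : a ≤ b) (hL : 1 + 8 * (a / (a - 1)) ≤ a ^ L) (hj : 1 ≤ L * j₀) :
    ∃ C : ℝ, 0 < C ∧ ∀ J k l r : ℕ, l < k → k < J → 1 ≤ r → r < L →
      ‖∫ x in a..b, ((F L j₀ J x : ℝ) : ℂ) * (((Y L j₀ r k x : ℝ) : ℂ) * ((Y L j₀ r l x : ℝ) : ℂ))‖ ≤ C * (1 / 6) ^ k := by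
  have ha0 : 0 < a := by linarith
  have hb0 : 0 < b := by linarith
  have hη0 : 0 < 3 / 4 * (1 - 1 / a) := by
    have : 1 / a < 1 := by rw [div_lt_one ha0]; exact ha
    linarith
  set D₀ : ℝ := 2 * b / (3 / 4 * (1 - 1 / a)) + 2 / (3 / 4 * (1 - 1 / a)) ^ 2 * (b - a) with hD₀
  have hD₀0 : 0 ≤ D₀ := by
    have : 0 ≤ b - a := by linarith
    positivity
  have h69 : ∀ j : ℕ, (3 / 2 : ℝ) ^ j / 9 ^ j = (1 / 6) ^ j := by
    intro j
    rw [← div_pow]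
    norm_num
  refine ⟨2 * (2 * D₀) + 1, by positivity, ?_⟩
  intro J k l r hlk hkJ hr1 hrL
  have hr0 : r ≠ 0 := by omega
  have hw : Continuous fun x => ((Y L j₀ r k x : ℝ) : ℂ) * ((Y L j₀ r l x : ℝ) : ℂ) := by
    have h1 := continuous_Y L j₀ r k
    have h2 := continuous_Y L j₀ r l
    fun_prop
  have hYc : ∀ i, Comb (Mo 1 1 (tt L j₀ i + r)) 1 (fun x => ((Y L j₀ r i x : ℝ) : ℂ)) := by
    intro i
    refine (cos_mo (tt L j₀ i + r)).congr rfl fun x => ?_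
    unfold Y
    rw [if_neg hr0, sub_zero]
  refine (cov_sum (D := 2 * D₀) hw hkJ (by positivity) ?_ ?_).trans ?_
  · -- top exponent `tt k + r`
    have h1 := ((F_comb L j₀ (k + 1)).mul (hYc k) (Θ := {φ | ∃ φ₀ ∈ Ph 1 L j₀ (k + 1), ∃ c : ℝ, |c| = 1 ∧
        ∀ x, φ x = φ₀ x + c * x ^ (tt L j₀ k + r)}) (by
      rintro φ hφ ψ ⟨c, hc0, hc, hψ⟩
      exact ⟨φ, hφ, c, le_antisymm hc hc0, fun x => by
        show φ x + ψ x = _
        rw [hψ]⟩)).mul (hYc l) (Θ := {φ | ∃ φ₀ ∈ Ph 1 L j₀ (k + 1), ∃ c d : ℝ, |c| = 1 ∧ |d| ≤ 1 ∧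
        ∀ x, φ x = φ₀ x + c * x ^ (tt L j₀ k + r) + d * x ^ (tt L j₀ l + r)}) (by
      rintro φ ⟨φ₀, hφ₀, c, hc, h⟩ ψ ⟨d, -, hd, hψ⟩
      exact ⟨φ₀, hφ₀, c, d, hc, hd, fun x => by
        show φ x + ψ x = _
        rw [h, hψ]⟩)
    have h3 := h1.norm_integral_le (a := a) (b := b) (B := D₀ / 9 ^ k) (fun φ hφ => ?_) (fun φ hφ => ?_)
    · have h4 : ∫ x in a..b, ((F L j₀ (k + 1) x : ℝ) : ℂ) * (((Y L j₀ r k x : ℝ) : ℂ) * ((Y L j₀ r l x : ℝ) : ℂ)) =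
          ∫ x in a..b, ((F L j₀ (k + 1) x : ℝ) : ℂ) * ((Y L j₀ r k x : ℝ) : ℂ) * ((Y L j₀ r l x : ℝ) : ℂ) := by
        simp_rw [mul_assoc]
      rw [h4]
      refine h3.trans ?_
      calc (3 / 2 : ℝ) ^ (k + 1) * 1 * 1 * (D₀ / 9 ^ k) = 3 / 2 * D₀ * ((3 / 2) ^ k / 9 ^ k) := by ring
        _ = 3 / 2 * D₀ * (1 / 6) ^ k := by rw [h69]
        _ ≤ 2 * D₀ * (1 / 6) ^ k := by gcongr; norm_num
    · obtain ⟨φ₀, ⟨σ, -, h⟩, c, d, -, -, h'⟩ := hφ
      rw [show φ = _ from funext h']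
      simp_rw [h]
      fun_prop
    · obtain ⟨φ₀, ⟨σ, hσ, h⟩, c, d, hc, hd, h'⟩ := hφ
      have h5 := oscX1 ha hab hL hj hlk hr1 hσ hc hd
      refine le_trans (le_of_eq ?_) h5
      congr 1
      apply intervalIntegral.integral_congr
      intro x _
      show e (φ x) = _
      rw [h', h, sum_range_succ]
      congr 1
      ring
  · intro j hj'
    have h1 := ((FT_comb L j₀ j).mul (hYc k) (Θ := {φ | ∃ φ₀ ∈ PhT 1 L j₀ j, ∃ c : ℝ, |c| ≤ 1 ∧
        ∀ x, φ x = φ₀ x + c * x ^ (tt L j₀ k + r)}) (by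
      rintro φ hφ ψ ⟨c, -, hc, hψ⟩
      exact ⟨φ, hφ, c, hc, fun x => by
        show φ x + ψ x = _
        rw [hψ]⟩)).mul (hYc l) (Θ := {φ | ∃ φ₀ ∈ PhT 1 L j₀ j, ∃ c d : ℝ, |c| ≤ 1 ∧ |d| ≤ 1 ∧
        ∀ x, φ x = φ₀ x + c * x ^ (tt L j₀ k + r) + d * x ^ (tt L j₀ l + r)}) (by
      rintro φ ⟨φ₀, hφ₀, c, hc, h⟩ ψ ⟨d, -, hd, hψ⟩
      exact ⟨φ₀, hφ₀, c, d, hc, hd, fun x => by
        show φ x + ψ x = _
        rw [h, hψ]⟩)
    have h3 := h1.norm_integral_le (a := a) (b := b) (B := D₀ / 9 ^ j) (fun φ hφ => ?_) (fun φ hφ => ?_)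
    · have h4 : ∫ x in a..b, ((F L j₀ j x * Real.cos (2 * Real.pi * x ^ tt L j₀ j) : ℝ) : ℂ) *
          (((Y L j₀ r k x : ℝ) : ℂ) * ((Y L j₀ r l x : ℝ) : ℂ)) =
          ∫ x in a..b, ((F L j₀ j x * Real.cos (2 * Real.pi * x ^ tt L j₀ j) : ℝ) : ℂ) * ((Y L j₀ r k x : ℝ) : ℂ) *
          ((Y L j₀ r l x : ℝ) : ℂ) := by
        simp_rw [mul_assoc]
      rw [h4]
      refine h3.trans ?_
      calc (3 / 2 : ℝ) ^ j * 1 * 1 * (D₀ / 9 ^ j) = D₀ * ((3 / 2) ^ j / 9 ^ j) := by ring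
        _ = D₀ * (1 / 6) ^ j := by rw [h69]
        _ ≤ 2 * D₀ * (1 / 6) ^ j := by gcongr; linarith
    · obtain ⟨φ₀, hφ₀, c, d, -, -, h'⟩ := hφ
      rw [show φ = _ from funext h']
      have := PhT_continuous hφ₀
      fun_prop
    · obtain ⟨φ₀, ⟨σ, τ, hσ, hτ1, hτ2, h⟩, c, d, hc, hd, h'⟩ := hφ
      have h5 := oscX2 ha hab hL hj hlk hj' hrL hσ (le_antisymm hτ2 hτ1) hc hd
      refine le_trans (le_of_eq ?_) h5
      congr 1
      apply intervalIntegral.integral_congr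
      intro x _
      show e (φ x) = _
      rw [h', h]
      congr 1
      ring
  · have : (0 : ℝ) < (1 / 6) ^ k := by positivity
    nlinarith

end

end Pool.Agent.Helper82.FK
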