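import Pool.Agent.Helper82.FK.Riesz

/-!
# Mass of intervals: decay inside every interval
-/

set_option autoImplicit false

namespace Pool.Agent.Helper82.FK

open MeasureTheory Set Finset

theorem factor_le (u v : ℝ) : 1 + 1 / 2 * Real.cos u ≤ Real.exp |u - v| * (1 + 1 / 2 * Real.cos v) := by
  have h1 : Real.cos u - Real.cos v ≤ |u - v| := (le_abs_self _).trans (Real.abs_cos_sub_cos_le u v)
  have h2 := Real.add_one_le_exp |u - v|
  have h3 := (factor_bounds v).1
  have h4 := abs_nonneg (u - v)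
  have h5 : (|u - v| + 1) * (1 + 1 / 2 * Real.cos v) ≤ Real.exp |u - v| * (1 + 1 / 2 * Real.cos v) :=
    mul_le_mul_of_nonneg_right h2 (by linarith)
  nlinarith

theorem pow_sub_le {p q x y : ℝ} (h0 : 0 < p) (hx : x ∈ Icc p q) (hy : y ∈ Icc p q) (h1 : 1 ≤ q) (t : ℕ) :
    |x ^ t - y ^ t| ≤ t * q ^ t * (q - p) := by
  have h2 := (convex_Icc p q).norm_image_sub_le_of_norm_hasDerivWithin_le (f := fun x : ℝ => x ^ t) (f' := fun x => t * x ^ (t - 1))
    (C := t * q ^ (t - 1)) (fun z _ => (hasDerivAt_pow t z).hasDerivWithinAt) (fun z hz => by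
      rw [Real.norm_eq_abs, abs_of_nonneg (by have := h0.le.trans hz.1; positivity)]
      have : 0 ≤ z := h0.le.trans hz.1
      have := hz.2
      gcongr) hy hx
  rw [Real.norm_eq_abs, Real.norm_eq_abs] at h2
  have h3 : |x - y| ≤ q - p := by
    rw [abs_le]
    constructor <;> linarith [hx.1, hx.2, hy.1, hy.2]
  have h4 : q ^ (t - 1) ≤ q ^ t := pow_le_pow_right₀ h1 (Nat.sub_le t 1)
  refine h2.trans ?_
  have : 0 ≤ q ^ (t - 1) := by positivity
  gcongr

section
variable {L j₀ : ℕ}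

theorem distort {p q : ℝ} (h1 : 1 ≤ p) (hL : 9 ≤ p ^ L) {k : ℕ} (hk : (tt L j₀ k : ℝ) * q ^ tt L j₀ k * (q - p) ≤ 1 ∨ k = 0)
    {x y : ℝ} (hx : x ∈ Icc p q) (hy : y ∈ Icc p q) : F L j₀ k x ≤ Real.exp 1 * F L j₀ k y := by
  rcases hk with hk | rfl
  swap
  · rw [F_zero, F_zero, mul_one]
    exact Real.one_le_exp (by norm_num)
  have hpq : p ≤ q := hx.1.trans hx.2
  have hq1 : 1 ≤ q := h1.trans hpq
  have hstep : F L j₀ k x ≤ Real.exp (∑ i ∈ range k, 2 * Real.pi * ((tt L j₀ i : ℝ) * q ^ tt L j₀ i * (q - p))) * F L j₀ k y := by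
    unfold F
    rw [Real.exp_sum, ← prod_mul_distrib]
    refine prod_le_prod (fun i _ => le_trans (by norm_num) (factor_bounds _).1) fun i _ => ?_
    refine (factor_le _ (2 * Real.pi * y ^ tt L j₀ i)).trans ?_
    apply mul_le_mul_of_nonneg_right _ (le_trans (by norm_num) (factor_bounds _).1)
    apply Real.exp_le_exp.2
    rw [← mul_sub, abs_mul, abs_of_pos (by have := Real.pi_pos; positivity)]
    have := pow_sub_le (by linarith) hx hy hq1 (tt L j₀ i)
    have hpi := Real.pi_pos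
    gcongr
  refine hstep.trans ?_
  apply mul_le_mul_of_nonneg_right _ (F_pos L j₀ k y).le
  apply Real.exp_le_exp.2
  rw [← mul_sum, ← sum_mul]
  have h2 := geo1 (x := q) hq1 (le_refl (1 : ℝ)) (L := L) (by
    have := pow_le_pow_left₀ (by linarith : (0 : ℝ) ≤ p) hpq L
    linarith) (tt_le L j₀) 1 k
  simp only [pow_one, one_mul] at h2
  have hqp : 0 ≤ q - p := by linarith
  have hpi := Real.pi_lt_four
  have hpi0 := Real.pi_pos
  have h3 : (∑ i ∈ range k, (tt L j₀ i : ℝ) * q ^ tt L j₀ i) * (q - p) ≤ 1 / 8 := by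
    calc (∑ i ∈ range k, (tt L j₀ i : ℝ) * q ^ tt L j₀ i) * (q - p) ≤ 1 / 8 * ((tt L j₀ k : ℝ) * q ^ tt L j₀ k) * (q - p) := by
          gcongr
      _ ≤ 1 / 8 := by linarith
  calc 2 * Real.pi * ((∑ i ∈ range k, (tt L j₀ i : ℝ) * q ^ tt L j₀ i) * (q - p)) ≤ 2 * Real.pi * (1 / 8) := by gcongr
    _ ≤ 1 := by linarith

/-- the level of an interval -/
theorem level {p q : ℝ} (h1 : 1 ≤ q) (hpq : p < q) (hL : 1 ≤ L) :
    ∃ k : ℕ, 1 < (tt L j₀ (k + 1) : ℝ) * q ^ tt L j₀ (k + 1) * (q - p) ∧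
      ∀ j < k, (tt L j₀ (j + 1) : ℝ) * q ^ tt L j₀ (j + 1) * (q - p) ≤ 1 := by
  classical
  have hex : ∃ k : ℕ, 1 < (tt L j₀ (k + 1) : ℝ) * q ^ tt L j₀ (k + 1) * (q - p) := by
    obtain ⟨k, hk⟩ := exists_nat_gt (1 / (q - p))
    refine ⟨k, ?_⟩
    have hqp : 0 < q - p := by linarith
    rw [div_lt_iff₀ hqp] at hk
    have h2 : (k : ℝ) ≤ tt L j₀ (k + 1) := by
      have : k ≤ tt L j₀ (k + 1) := by
        unfold tt
        nlinarith
      exact_mod_cast this
    have h3 : (1 : ℝ) ≤ q ^ tt L j₀ (k + 1) := one_le_pow₀ h1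
    have h4 : (k : ℝ) ≤ (tt L j₀ (k + 1) : ℝ) * q ^ tt L j₀ (k + 1) := by nlinarith
    nlinarith
  refine ⟨Nat.find hex, Nat.find_spec hex, fun j hj => ?_⟩
  exact not_lt.1 (Nat.find_min hex hj)

/-- **Decay inside intervals**, before the limit -/
theorem dec1 {a b : ℝ} (ha : 1 ≤ a) (hab : a < b) (hL : 9 ≤ a ^ L) (hj : 1 ≤ L * j₀) :
    ∃ C : ℝ, 0 < C ∧ ∀ p q p' q' : ℝ, a ≤ p → p < q → q ≤ b → p ≤ p' → p' < q' → q' ≤ q →
      ∃ X : ℝ, 0 < X ∧ (∀ᶠ J : ℕ in Filter.atTop, X ≤ ∫ x in p..q, F L j₀ J x) ∧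
        (∀ᶠ J : ℕ in Filter.atTop, ∫ x in p'..q', F L j₀ J x ≤ C * Real.sqrt ((q' - p') / (q - p)) * X) := by
  have hb1 : 1 ≤ b := ha.trans hab.le
  have hb0 : 0 < b := by linarith
  have hL1 : 1 ≤ L := by
    rcases Nat.eq_zero_or_pos L with h | h
    · rw [h, pow_zero] at hL
      norm_num at hL
    · exact h
  have hj₀1 : 1 ≤ j₀ := by
    rcases Nat.eq_zero_or_pos j₀ with h | h
    · rw [h, mul_zero] at hj
      omega
    · exact h
  set R : ℝ := Real.exp 1 * b ^ tt L j₀ 0 with hR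
  have hR0 : 0 < R := by positivity
  set C₁ : ℝ := 4 * b * b ^ L * R with hC₁
  have hC₁0 : 0 < C₁ := by positivity
  obtain ⟨m, hm⟩ := pow_unbounded_of_one_lt (2 * (C₁ + 2)) (by norm_num : (1 : ℝ) < 9)
  set C₂ : ℝ := 3 + C₁ with hC₂
  set E := Real.exp 1 with hE
  have hE0 : 0 < E := Real.exp_pos 1
  have hE1 : 1 ≤ E := Real.one_le_exp (by norm_num)
  set C₃ : ℝ := C₂ * E * E * (3 * Real.sqrt (R * b ^ L)) * (2 * 2 ^ m) with hC₃
  have hbL : 1 ≤ b ^ L := one_le_pow₀ hb1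
  have hRge : 1 ≤ R := by
    rw [hR]
    have : 1 ≤ b ^ tt L j₀ 0 := one_le_pow₀ hb1
    nlinarith
  refine ⟨C₃, by positivity, ?_⟩
  intro p q p' q' hap hpq hqb hpp' hpq' hqq'
  have hp1 : 1 ≤ p := ha.trans hap
  have hp0 : 0 < p := by linarith
  have hq1 : 1 ≤ q := by linarith
  have hp'1 : 1 ≤ p' := hp1.trans hpp'
  have hq'1 : 1 ≤ q' := by linarith
  have hLp : 9 ≤ p ^ L := hL.trans (pow_le_pow_left₀ (by linarith) hap L)
  have hLp' : 9 ≤ p' ^ L := hLp.trans (pow_le_pow_left₀ (by linarith) hpp' L)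
  have hqp : 0 < q - p := by linarith
  have hqp' : 0 < q' - p' := by linarith
  -- general facts about the level
  have ratio : ∀ {u v : ℝ}, 1 ≤ u → u < v → v ≤ b → ∀ {k : ℕ}, (∀ j < k, (tt L j₀ (j + 1) : ℝ) * v ^ tt L j₀ (j + 1) * (v - u) ≤ 1) →
      v ^ tt L j₀ k ≤ R * u ^ tt L j₀ k ∧ ((tt L j₀ k : ℝ) * v ^ tt L j₀ k * (v - u) ≤ 1 ∨ k = 0) := by
    intro u v hu huv hvb k hk
    have hv1 : 1 ≤ v := hu.trans huv.le
    rcases Nat.eq_zero_or_pos k with rfl | hk0
    · refine ⟨?_, Or.inr rfl⟩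
      have h1 : v ^ tt L j₀ 0 ≤ b ^ tt L j₀ 0 := pow_le_pow_left₀ (by linarith) hvb _
      have h2 : (1 : ℝ) ≤ u ^ tt L j₀ 0 := one_le_pow₀ hu
      rw [hR]
      have h3 : 0 < b ^ tt L j₀ 0 := by positivity
      nlinarith [mul_le_mul hE1 h1 (by positivity) hE0.le, mul_pos hE0 h3]
    · have hk1 := hk (k - 1) (by omega)
      rw [Nat.sub_add_cancel hk0] at hk1
      refine ⟨?_, Or.inl hk1⟩
      set t := tt L j₀ k with ht
      have h1 : v = u * (1 + (v - u) / u) := by
        field_simp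
        ring
      have h2 : (v - u) / u ≤ v - u := div_le_self (by linarith) hu
      have h3 : 1 + (v - u) / u ≤ Real.exp (v - u) := by
        have := Real.add_one_le_exp (v - u)
        linarith
      have h4 : v ^ t ≤ u ^ t * E := by
        have h5 : v ^ t = u ^ t * (1 + (v - u) / u) ^ t := by
          rw [← mul_pow, ← h1]
        rw [h5]
        apply mul_le_mul_of_nonneg_left _ (by positivity)
        have h6 : (1 + (v - u) / u) ^ t ≤ Real.exp (v - u) ^ t := by
          apply pow_le_pow_left₀ _ h3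
          have : 0 ≤ (v - u) / u := div_nonneg (by linarith) (by linarith)
          linarith
        refine h6.trans ?_
        rw [← Real.exp_nat_mul]
        apply Real.exp_le_exp.2
        have h7 : (1 : ℝ) ≤ v ^ t := one_le_pow₀ hv1
        have h8 : (t : ℝ) * (v - u) ≤ t * v ^ t * (v - u) := by
          have : 0 ≤ (t : ℝ) * (v - u) := mul_nonneg (by positivity) (by linarith)
          nlinarith
        linarith
      have h9 : 1 ≤ b ^ tt L j₀ 0 := one_le_pow₀ hb1
      have h10 : 0 < u ^ t := by positivity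
      rw [hR]
      calc v ^ t ≤ u ^ t * E := h4
        _ ≤ E * b ^ tt L j₀ 0 * u ^ t := by nlinarith [mul_pos h10 hE0]
  have tkk : ∀ k : ℕ, (tt L j₀ (k + 1) : ℝ) ≤ 2 * tt L j₀ k := by
    intro k
    have : tt L j₀ (k + 1) ≤ 2 * tt L j₀ k := by
      unfold tt
      nlinarith
    exact_mod_cast this
  have tk1 : ∀ k : ℕ, (1 : ℝ) ≤ tt L j₀ k := by
    intro k
    have : 1 ≤ tt L j₀ k := by
      unfold tt
      nlinarith
    exact_mod_cast this
  have small : ∀ {u v : ℝ}, 1 ≤ u → u < v → v ≤ b → ∀ {k : ℕ}, 1 < (tt L j₀ (k + 1) : ℝ) * v ^ tt L j₀ (k + 1) * (v - u) →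
      v ^ tt L j₀ k ≤ R * u ^ tt L j₀ k → 2 * v / (tt L j₀ k * u ^ tt L j₀ k) ≤ C₁ * (v - u) := by
    intro u v hu huv hvb k hk1 hk2
    have hv1 : 1 ≤ v := hu.trans huv.le
    have hvu : 0 < v - u := by linarith
    have h1 : v ^ tt L j₀ (k + 1) ≤ R * u ^ tt L j₀ k * b ^ L := by
      rw [← tt_succ, pow_add]
      have : v ^ L ≤ b ^ L := pow_le_pow_left₀ (by linarith) hvb L
      gcongr
    have h2 : (tt L j₀ (k + 1) : ℝ) * v ^ tt L j₀ (k + 1) * (v - u) ≤ 2 * tt L j₀ k * (R * u ^ tt L j₀ k * b ^ L) * (v - u) := by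
      have := tkk k
      gcongr
    have h3 := hk1.trans_le h2
    have htk := tk1 k
    have hu0 : 0 < u ^ tt L j₀ k := by positivity
    rw [div_le_iff₀ (by positivity)]
    rw [hC₁]
    have h4 : 0 < 2 * v := by linarith
    calc 2 * v = 2 * v * 1 := (mul_one _).symm
      _ ≤ 2 * b * (2 * tt L j₀ k * (R * u ^ tt L j₀ k * b ^ L) * (v - u)) := by
        apply mul_le_mul (by linarith) h3.le (by norm_num) (by positivity)
      _ = _ := by ring
  -- upper and lower bounds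
  have upper : ∀ {u v : ℝ}, a ≤ u → u < v → v ≤ b → ∀ {k : ℕ}, 1 < (tt L j₀ (k + 1) : ℝ) * v ^ tt L j₀ (k + 1) * (v - u) →
      v ^ tt L j₀ k ≤ R * u ^ tt L j₀ k → ∀ S : ℝ, (∀ x ∈ Icc u v, F L j₀ k x ≤ S) → ∀ J, k ≤ J →
      ∫ x in u..v, F L j₀ J x ≤ S * (C₂ * (v - u)) := by
    intro u v hau huv hvb k hk1 hk2 S hS J hJ
    have hu1 : 1 ≤ u := ha.trans hau
    have hS0 : 0 ≤ S := (F_pos L j₀ k u).le.trans (hS u (left_mem_Icc.2 huv.le))
    obtain ⟨J', rfl⟩ := Nat.exists_eq_add_of_le hJ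
    have h1 : ∫ x in u..v, F L j₀ (k + J') x ≤ ∫ x in u..v, S * F L (j₀ + k) J' x := by
      apply intervalIntegral.integral_mono_on huv.le ((continuous_F _ _ _).intervalIntegrable _ _)
        ((continuous_const.mul (continuous_F _ _ _)).intervalIntegrable _ _)
      intro x hx
      rw [F_add]
      exact mul_le_mul_of_nonneg_right (hS x hx) (F_pos _ _ _ _).le
    refine h1.trans ?_
    rw [intervalIntegral.integral_const_mul]
    apply mul_le_mul_of_nonneg_left _ hS0
    have hLu : 9 ≤ u ^ L := hL.trans (pow_le_pow_left₀ (by linarith) hau L)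
    have h2 := mass hu1 huv.le hLu (j₀ := j₀ + k) (by nlinarith) J'
    have h3 := (abs_le.1 h2).2
    have h4 := small hu1 huv hvb hk1 hk2
    have h5 : L * (j₀ + k) = tt L j₀ k := rfl
    have h6 : (L : ℝ) * ((j₀ + k : ℕ) : ℝ) = (tt L j₀ k : ℝ) := by
      rw [← h5]
      push_cast
      ring
    rw [h5, h6] at h3
    have hvu : 0 < v - u := by linarith
    have hut : 1 ≤ u ^ tt L j₀ k := one_le_pow₀ hu1
    have htk := tk1 k
    have h7 : 2 * (v / (tt L j₀ k : ℝ) + (v - u)) / u ^ tt L j₀ k = 2 * v / (tt L j₀ k * u ^ tt L j₀ k) + 2 * (v - u) / u ^ tt L j₀ k := by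
      have : (tt L j₀ k : ℝ) ≠ 0 := by linarith
      field_simp
    have h8 : 2 * (v - u) / u ^ tt L j₀ k ≤ 2 * (v - u) := div_le_self (by linarith) hut
    rw [h7] at h3
    rw [hC₂]
    linarith
  have lower : ∀ {u v : ℝ}, a ≤ u → u < v → v ≤ b → ∀ {k : ℕ}, 1 < (tt L j₀ (k + 1) : ℝ) * v ^ tt L j₀ (k + 1) * (v - u) →
      v ^ tt L j₀ k ≤ R * u ^ tt L j₀ k → ∀ S : ℝ, 0 ≤ S → (∀ x ∈ Icc u v, S ≤ F L j₀ k x) → ∀ J, k + m ≤ J →
      S * (1 / 2) ^ m * ((v - u) / 2) ≤ ∫ x in u..v, F L j₀ J x := by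
    intro u v hau huv hvb k hk1 hk2 S hS0 hS J hJ
    have hu1 : 1 ≤ u := ha.trans hau
    obtain ⟨J', rfl⟩ := Nat.exists_eq_add_of_le hJ
    have hLu : 9 ≤ u ^ L := hL.trans (pow_le_pow_left₀ (by linarith) hau L)
    have h1 : ∫ x in u..v, S * (1 / 2) ^ m * F L (j₀ + k + m) J' x ≤ ∫ x in u..v, F L j₀ (k + m + J') x := by
      apply intervalIntegral.integral_mono_on huv.le ((continuous_const.mul (continuous_F _ _ _)).intervalIntegrable _ _)
        ((continuous_F _ _ _).intervalIntegrable _ _)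
      intro x hx
      rw [F_add, F_add, show j₀ + (k + m) = j₀ + k + m by ring]
      apply mul_le_mul_of_nonneg_right _ (F_pos _ _ _ _).le
      exact mul_le_mul (hS x hx) (le_F _ _ _ _) (by positivity) (F_pos _ _ _ _).le
    refine le_trans ?_ h1
    rw [intervalIntegral.integral_const_mul]
    apply mul_le_mul_of_nonneg_left _ (by positivity)
    have h2 := mass hu1 huv.le hLu (j₀ := j₀ + k + m) (by nlinarith) J'
    have h3 := (abs_le.1 h2).1
    have h4 := small hu1 huv hvb hk1 hk2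
    have hvu : 0 < v - u := by linarith
    have hu0 : 0 < u ^ tt L j₀ k := by positivity
    have htk := tk1 k
    have h5 : L * (j₀ + k + m) = tt L j₀ k + L * m := by unfold tt; ring
    have h6 : (tt L j₀ k : ℝ) ≤ (L : ℝ) * ((j₀ + k + m : ℕ) : ℝ) := by
      have : tt L j₀ k ≤ L * (j₀ + k + m) := by omega
      exact_mod_cast this
    have h9m : (9 : ℝ) ^ m ≤ u ^ (L * m) := by
      rw [pow_mul]
      exact pow_le_pow_left₀ (by norm_num) hLu m
    have h7 : 2 * (v / ((L : ℝ) * ((j₀ + k + m : ℕ) : ℝ)) + (v - u)) / u ^ (L * (j₀ + k + m)) ≤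
        2 * (v / (tt L j₀ k : ℝ) + (v - u)) / (u ^ tt L j₀ k * 9 ^ m) := by
      have hv0 : 0 < v := by linarith
      rw [h5, pow_add]
      gcongr
    have h8 : 2 * (v / (tt L j₀ k : ℝ) + (v - u)) / (u ^ tt L j₀ k * 9 ^ m) =
        (2 * v / (tt L j₀ k * u ^ tt L j₀ k) + 2 * (v - u) / u ^ tt L j₀ k) / 9 ^ m := by
      have : (tt L j₀ k : ℝ) ≠ 0 := by linarith
      field_simp
    have hut : 1 ≤ u ^ tt L j₀ k := one_le_pow₀ hu1
    have h9 : 2 * (v - u) / u ^ tt L j₀ k ≤ 2 * (v - u) := div_le_self (by linarith) hut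
    have h10 : (2 * v / (tt L j₀ k * u ^ tt L j₀ k) + 2 * (v - u) / u ^ tt L j₀ k) / 9 ^ m ≤ (v - u) / 2 := by
      rw [div_le_iff₀ (by positivity)]
      have : (C₁ + 2) * (v - u) ≤ (v - u) / 2 * 9 ^ m := by nlinarith
      nlinarith
    rw [h8] at h7
    linarith
  -- the two levels
  obtain ⟨k, hk1, hk2⟩ := level (j₀ := j₀) hq1 hpq hL1
  obtain ⟨k', hk1', hk2'⟩ := level (j₀ := j₀) hq'1 hpq' hL1
  obtain ⟨hr, hd⟩ := ratio hp1 hpq hqb hk2
  obtain ⟨hr', hd'⟩ := ratio hp'1 hpq' (hqq'.trans hqb) hk2'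
  have hkk' : k ≤ k' := by
    by_contra hlt
    push Not at hlt
    have h1 := hk2 k' hlt
    have h2 : (tt L j₀ (k' + 1) : ℝ) * q' ^ tt L j₀ (k' + 1) * (q' - p') ≤ (tt L j₀ (k' + 1) : ℝ) * q ^ tt L j₀ (k' + 1) * (q - p) := by
      have : q' ^ tt L j₀ (k' + 1) ≤ q ^ tt L j₀ (k' + 1) := pow_le_pow_left₀ (by linarith) hqq' _
      gcongr
    linarith
  have hsub : ∀ x ∈ Icc p' q', x ∈ Icc p q := fun x hx => ⟨hpp'.trans hx.1, hx.2.trans hqq'⟩
  have hpI : p ∈ Icc p q := left_mem_Icc.2 hpq.le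
  set S := F L j₀ k p with hS
  have hS0 : 0 < S := F_pos _ _ _ _
  refine ⟨S / E * (1 / 2) ^ m * ((q - p) / 2), by positivity, ?_, ?_⟩
  · filter_upwards [Filter.eventually_ge_atTop (k + m)] with J hJ
    refine lower hap hpq hqb hk1 hr (S / E) (by positivity) (fun x hx => ?_) J hJ
    rw [div_le_iff₀ hE0, mul_comm]
    exact distort hp1 hLp hd hpI hx
  · filter_upwards [Filter.eventually_ge_atTop k'] with J hJ
    obtain ⟨d, rfl⟩ := Nat.exists_eq_add_of_le hkk'
    have h1 := upper (hap.trans hpp') hpq' (hqq'.trans hqb) hk1' hr' ((3 / 2) ^ d * (E * S)) (fun x hx => ?_) J hJ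
    · refine h1.trans ?_
      -- (3/2)^d ≤ 3 √(R b^L) √(ℓ/ℓ')
      have hkey : ((3 : ℝ) / 2) ^ d ≤ 3 * Real.sqrt (R * b ^ L) * Real.sqrt ((q - p) / (q' - p')) := by
        rcases Nat.eq_zero_or_pos d with rfl | hd0
        · rw [pow_zero]
          have h2 : 1 ≤ Real.sqrt (R * b ^ L) := by
            rw [Real.one_le_sqrt]
            nlinarith
          have h3 : 1 ≤ Real.sqrt ((q - p) / (q' - p')) := by
            rw [Real.one_le_sqrt, one_le_div hqp']
            linarith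
          nlinarith
        · have h2 : (tt L j₀ (k + d) : ℝ) * q' ^ tt L j₀ (k + d) * (q' - p') ≤ 1 := by
            rcases hd' with h | h
            · exact h
            · omega
          -- 9^(d-1) ≤ R b^L ℓ/ℓ'
          have h3 : (9 : ℝ) ^ d ≤ 9 * (R * b ^ L) * ((q - p) / (q' - p')) := by
            have h4 : (tt L j₀ (k + 1) : ℝ) ≤ tt L j₀ (k + d) := by
              have : tt L j₀ (k + 1) ≤ tt L j₀ (k + d) := by
                unfold tt
                exact Nat.mul_le_mul_left L (by omega)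
              exact_mod_cast this
            have h5 : q ^ tt L j₀ (k + 1) ≤ R * b ^ L * p ^ tt L j₀ (k + 1) := by
              rw [← tt_succ, pow_add, pow_add]
              have h6 : q ^ L ≤ b ^ L := pow_le_pow_left₀ (by linarith) hqb L
              have h7 : (1 : ℝ) ≤ p ^ L := one_le_pow₀ hp1
              calc q ^ tt L j₀ k * q ^ L ≤ R * p ^ tt L j₀ k * b ^ L := by gcongr
                _ ≤ R * p ^ tt L j₀ k * b ^ L * p ^ L := by
                  have : 0 ≤ R * p ^ tt L j₀ k * b ^ L := by positivity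
                  nlinarith
                _ = _ := by ring
            have h6 : p ^ tt L j₀ (k + 1) * 9 ^ (d - 1) ≤ q' ^ tt L j₀ (k + d) := by
              have h7 : tt L j₀ (k + d) = tt L j₀ (k + 1) + L * (d - 1) := by
                unfold tt
                rw [← mul_add]
                congr 1
                omega
              rw [h7, pow_add]
              have h8 : p ^ tt L j₀ (k + 1) ≤ q' ^ tt L j₀ (k + 1) := pow_le_pow_left₀ hp0.le (by linarith) _
              have h9 : (9 : ℝ) ^ (d - 1) ≤ q' ^ (L * (d - 1)) := by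
                rw [pow_mul]
                apply pow_le_pow_left₀ (by norm_num)
                exact hLp.trans (pow_le_pow_left₀ hp0.le (by linarith) L)
              gcongr
            have htk : 0 < (tt L j₀ (k + 1) : ℝ) := by linarith [tk1 (k + 1)]
            have hpk : 0 < p ^ tt L j₀ (k + 1) := by positivity
            -- combine
            have h7 : (tt L j₀ (k + 1) : ℝ) * (p ^ tt L j₀ (k + 1) * 9 ^ (d - 1)) * (q' - p') ≤
                (tt L j₀ (k + 1) : ℝ) * (R * b ^ L * p ^ tt L j₀ (k + 1)) * (q - p) := by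
              calc (tt L j₀ (k + 1) : ℝ) * (p ^ tt L j₀ (k + 1) * 9 ^ (d - 1)) * (q' - p') ≤
                  (tt L j₀ (k + d) : ℝ) * q' ^ tt L j₀ (k + d) * (q' - p') := by gcongr
                _ ≤ 1 := h2
                _ ≤ (tt L j₀ (k + 1) : ℝ) * q ^ tt L j₀ (k + 1) * (q - p) := hk1.le
                _ ≤ (tt L j₀ (k + 1) : ℝ) * (R * b ^ L * p ^ tt L j₀ (k + 1)) * (q - p) := by gcongr
            have h8 : 9 ^ (d - 1) * (q' - p') ≤ R * b ^ L * (q - p) := by
              have h9 : ((tt L j₀ (k + 1) : ℝ) * p ^ tt L j₀ (k + 1)) * (9 ^ (d - 1) * (q' - p')) ≤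
                  ((tt L j₀ (k + 1) : ℝ) * p ^ tt L j₀ (k + 1)) * (R * b ^ L * (q - p)) := by linarith
              exact le_of_mul_le_mul_left h9 (by positivity)
            have h10 : (9 : ℝ) ^ d = 9 * 9 ^ (d - 1) := by
              rw [← pow_succ', Nat.sub_add_cancel hd0]
            have h11 : (9 : ℝ) ^ (d - 1) ≤ R * b ^ L * ((q - p) / (q' - p')) := by
              rw [← mul_div_assoc, le_div_iff₀ hqp']
              exact h8
            rw [h10]
            calc (9 : ℝ) * 9 ^ (d - 1) ≤ 9 * (R * b ^ L * ((q - p) / (q' - p'))) := by gcongr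
              _ = _ := by ring
          calc ((3 : ℝ) / 2) ^ d ≤ 3 ^ d := pow_le_pow_left₀ (by norm_num) (by norm_num) d
            _ = Real.sqrt (9 ^ d) := by
              rw [show (9 : ℝ) ^ d = (3 ^ d) ^ 2 by rw [← pow_mul, mul_comm, pow_mul]; norm_num, Real.sqrt_sq (by positivity)]
            _ ≤ Real.sqrt (9 * (R * b ^ L) * ((q - p) / (q' - p'))) := Real.sqrt_le_sqrt h3
            _ = 3 * Real.sqrt (R * b ^ L) * Real.sqrt ((q - p) / (q' - p')) := by
              rw [Real.sqrt_mul (by positivity), Real.sqrt_mul (by norm_num), show (9 : ℝ) = 3 ^ 2 by norm_num,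
                Real.sqrt_sq (by norm_num)]
      have hsq : Real.sqrt ((q - p) / (q' - p')) * (q' - p') = Real.sqrt ((q' - p') / (q - p)) * (q - p) := by
        rw [Real.sqrt_div hqp.le, Real.sqrt_div hqp'.le]
        have h2 := Real.mul_self_sqrt hqp.le
        have h3 := Real.mul_self_sqrt hqp'.le
        have h4 : 0 < Real.sqrt (q - p) := Real.sqrt_pos.2 hqp
        have h5 : 0 < Real.sqrt (q' - p') := Real.sqrt_pos.2 hqp'
        field_simp
        nlinarith
      calc (3 / 2) ^ d * (E * S) * (C₂ * (q' - p')) ≤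
          (3 * Real.sqrt (R * b ^ L) * Real.sqrt ((q - p) / (q' - p'))) * (E * S) * (C₂ * (q' - p')) := by gcongr
        _ = 3 * Real.sqrt (R * b ^ L) * (E * S) * C₂ * (Real.sqrt ((q - p) / (q' - p')) * (q' - p')) := by ring
        _ = 3 * Real.sqrt (R * b ^ L) * (E * S) * C₂ * (Real.sqrt ((q' - p') / (q - p)) * (q - p)) := by rw [hsq]
        _ = C₃ * Real.sqrt ((q' - p') / (q - p)) * (S / E * (1 / 2) ^ m * ((q - p) / 2)) := by
          have h12 : (2 : ℝ) ^ m * (1 / 2) ^ m = 1 := by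
            rw [← mul_pow]
            norm_num
          have h13 : E * E * (S / E) = E * S := by
            field_simp
          have h14 : C₃ * Real.sqrt ((q' - p') / (q - p)) * (S / E * (1 / 2) ^ m * ((q - p) / 2)) =
              3 * Real.sqrt (R * b ^ L) * (E * E * (S / E)) * C₂ * (Real.sqrt ((q' - p') / (q - p)) * (q - p)) *
                (2 ^ m * (1 / 2) ^ m) := by
            rw [hC₃]
            ring
          rw [h14, h13, h12, mul_one]
    · rw [F_add]
      have h2 : F L (j₀ + k) d x ≤ (3 / 2) ^ d := F_le _ _ _ _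
      have h3 : F L j₀ k x ≤ E * S := distort hp1 hLp hd (hsub x hx) hpI
      rw [mul_comm]
      exact mul_le_mul h2 h3 (F_pos _ _ _ _).le (by positivity)

end

end Pool.Agent.Helper82.FK
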