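import Pool.Agent.Helper82.FK.VC

/-!
# Lacunary polynomial phases: the top term dominates
-/

set_option autoImplicit false

namespace Pool.Agent.Helper82.FK

open MeasureTheory Set Polynomial Finset

/-- first derivative of `P(x) x^t` (for `x > 0`) -/
noncomputable def d1 (P : ℝ[X]) (t : ℕ) (x : ℝ) : ℝ :=
  P.derivative.eval x * x ^ t + P.eval x * (t * x ^ t / x)

/-- second derivative of `P(x) x^t` (for `x > 0`) -/
noncomputable def d2 (P : ℝ[X]) (t : ℕ) (x : ℝ) : ℝ :=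
  P.derivative.derivative.eval x * x ^ t + 2 * (P.derivative.eval x * (t * x ^ t / x)) +
    P.eval x * (t * (t - 1) * x ^ t / x ^ 2)

theorem hasDerivAt_pow_div {x : ℝ} (hx : 0 < x) (t : ℕ) : HasDerivAt (fun x : ℝ => x ^ t) (t * x ^ t / x) x := by
  have h := hasDerivAt_pow t x
  have h1 : (t : ℝ) * x ^ (t - 1) = t * x ^ t / x := by
    rcases Nat.eq_zero_or_pos t with rfl | ht
    · simp
    · rw [eq_div_iff hx.ne', mul_assoc, ← pow_succ, Nat.sub_add_cancel ht]
  rwa [h1] at h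

theorem hasDerivAt_term {x : ℝ} (hx : 0 < x) (P : ℝ[X]) (t : ℕ) :
    HasDerivAt (fun x : ℝ => P.eval x * x ^ t) (d1 P t x) x := by
  have h := (P.hasDerivAt x).mul (hasDerivAt_pow_div hx t)
  exact h

theorem hasDerivAt_d1 {x : ℝ} (hx : 0 < x) (P : ℝ[X]) (t : ℕ) : HasDerivAt (d1 P t) (d2 P t x) x := by
  have h1 := (P.derivative.hasDerivAt x).mul (hasDerivAt_pow_div hx t)
  have h2 : HasDerivAt (fun x : ℝ => (t : ℝ) * x ^ t / x) (t * (t - 1) * x ^ t / x ^ 2) x := by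
    have h3 := ((hasDerivAt_pow_div hx t).const_mul (t : ℝ)).div (hasDerivAt_id' x) hx.ne'
    refine h3.congr_deriv ?_
    field_simp
  have h4 := h1.add ((P.hasDerivAt x).mul h2)
  refine h4.congr_deriv ?_
  unfold d2
  ring

theorem continuousOn_d2 {s : Set ℝ} (hs : ∀ x ∈ s, x ≠ 0) (P : ℝ[X]) (t : ℕ) : ContinuousOn (d2 P t) s := by
  unfold d2
  refine ContinuousOn.add (ContinuousOn.add ?_ ?_) ?_
  · exact (P.derivative.derivative.continuous.mul (continuous_pow t)).continuousOn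
  · refine continuousOn_const.mul (P.derivative.continuous.continuousOn.mul ?_)
    exact ContinuousOn.div (by fun_prop) continuousOn_id hs
  · refine P.continuous.continuousOn.mul ?_
    exact ContinuousOn.div (by fun_prop) (by fun_prop) fun x hx => pow_ne_zero 2 (hs x hx)

/-- constants of a nonvanishing polynomial -/
theorem poly_consts {a b : ℝ} (ha : 1 < a) (hab : a ≤ b) (P : ℝ[X]) (hP : ∀ x ∈ Icc a b, P.eval x ≠ 0) :
    ∃ p K : ℝ, 0 < p ∧ 0 < K ∧ ∀ x ∈ Icc a b, p ≤ |P.eval x| ∧ |P.derivative.eval x| * x ≤ K * |P.eval x| ∧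
      |P.derivative.derivative.eval x| * x ^ 2 ≤ K * |P.eval x| := by
  obtain ⟨x0, hx0, hmin⟩ := isCompact_Icc.exists_isMinOn (nonempty_Icc.2 hab)
    (P.continuous.abs.continuousOn (s := Icc a b))
  obtain ⟨x1, hx1, hmax1⟩ := isCompact_Icc.exists_isMaxOn (nonempty_Icc.2 hab)
    ((P.derivative.continuous.abs.mul continuous_id).continuousOn (s := Icc a b))
  obtain ⟨x2, hx2, hmax2⟩ := isCompact_Icc.exists_isMaxOn (nonempty_Icc.2 hab)
    ((P.derivative.derivative.continuous.abs.mul (continuous_pow 2)).continuousOn (s := Icc a b))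
  have hp : 0 < |P.eval x0| := abs_pos.2 (hP x0 hx0)
  set p := |P.eval x0|
  set A := |P.derivative.eval x1| * x1
  set B := |P.derivative.derivative.eval x2| * x2 ^ 2
  have hA : 0 ≤ A := mul_nonneg (abs_nonneg _) (by linarith [hx1.1])
  have hB : 0 ≤ B := mul_nonneg (abs_nonneg _) (sq_nonneg _)
  refine ⟨p, (A + B + 1) / p, hp, by positivity, fun x hx => ?_⟩
  have h0 : p ≤ |P.eval x| := hmin hx
  have h1 : |P.derivative.eval x| * x ≤ A := hmax1 hx
  have h2 : |P.derivative.derivative.eval x| * x ^ 2 ≤ B := hmax2 hx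
  have h3 : A + B + 1 ≤ (A + B + 1) / p * |P.eval x| := by
    rw [div_mul_eq_mul_div, le_div_iff₀ hp]
    exact mul_le_mul_of_nonneg_left h0 (by positivity)
  exact ⟨h0, by linarith, by linarith⟩

theorem d1_bounds {P : ℝ[X]} {K x : ℝ} (hx : 0 < x) (h1 : |P.derivative.eval x| * x ≤ K * |P.eval x|) {t : ℕ}
    (ht : 4 * K ≤ t) : |d1 P t x| ≤ 5 / 4 * (|P.eval x| * (t * x ^ t / x)) ∧
      3 / 4 * (|P.eval x| * (t * x ^ t / x)) ≤ |d1 P t x| := by
  have hxt : 0 < x ^ t := pow_pos hx t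
  have h2 : |P.derivative.eval x * x ^ t| ≤ 1 / 4 * (|P.eval x| * (t * x ^ t / x)) := by
    rw [abs_mul, abs_of_pos hxt]
    have h3 : |P.derivative.eval x| * x ≤ t / 4 * |P.eval x| :=
      h1.trans (mul_le_mul_of_nonneg_right (by linarith) (abs_nonneg _))
    have h4 : |P.derivative.eval x| ≤ t / 4 * |P.eval x| / x := by
      rw [le_div_iff₀ hx]
      exact h3
    calc |P.derivative.eval x| * x ^ t ≤ t / 4 * |P.eval x| / x * x ^ t :=
          mul_le_mul_of_nonneg_right h4 hxt.le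
      _ = _ := by ring
  have h5 : |P.eval x * (t * x ^ t / x)| = |P.eval x| * (t * x ^ t / x) := by
    rw [abs_mul, abs_of_nonneg (by positivity : 0 ≤ (t : ℝ) * x ^ t / x)]
  constructor
  · unfold d1
    refine (abs_add_le _ _).trans ?_
    rw [h5]
    linarith
  · unfold d1
    have h6 : |P.eval x * (t * x ^ t / x)| - |P.derivative.eval x * x ^ t| ≤
        |P.eval x * (t * x ^ t / x) + P.derivative.eval x * x ^ t| := by
      have := abs_sub_abs_le_abs_sub (P.eval x * (t * x ^ t / x)) (-(P.derivative.eval x * x ^ t))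
      rwa [abs_neg, sub_neg_eq_add] at this
    rw [add_comm (P.derivative.eval x * x ^ t)]
    rw [h5] at h6
    linarith

theorem d2_bound {P : ℝ[X]} {K x : ℝ} (hK : 0 < K) (hx : 0 < x) (h1 : |P.derivative.eval x| * x ≤ K * |P.eval x|)
    (h2 : |P.derivative.derivative.eval x| * x ^ 2 ≤ K * |P.eval x|) {t : ℕ} (ht1 : 1 ≤ t)
    (ht : 4 * K ≤ t) : |d2 P t x| ≤ 2 * (|P.eval x| * ((t : ℝ) ^ 2 * x ^ t / x ^ 2)) := by
  have hxt : 0 < x ^ t := pow_pos hx t
  have ht' : (1 : ℝ) ≤ t := by exact_mod_cast ht1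
  have hP := abs_nonneg (P.eval x)
  have hA : |P.derivative.derivative.eval x * x ^ t| ≤ K * |P.eval x| * (x ^ t / x ^ 2) := by
    rw [abs_mul, abs_of_pos hxt]
    have h4 : |P.derivative.derivative.eval x| ≤ K * |P.eval x| / x ^ 2 := by
      rw [le_div_iff₀ (by positivity)]
      exact h2
    calc |P.derivative.derivative.eval x| * x ^ t ≤ K * |P.eval x| / x ^ 2 * x ^ t :=
          mul_le_mul_of_nonneg_right h4 hxt.le
      _ = _ := by ring
  have hB : |2 * (P.derivative.eval x * (t * x ^ t / x))| ≤ 2 * K * t * |P.eval x| * (x ^ t / x ^ 2) := by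
    rw [abs_mul, abs_mul, abs_of_pos (by norm_num : (0 : ℝ) < 2), abs_of_nonneg (by positivity : 0 ≤ (t : ℝ) * x ^ t / x)]
    have h4 : |P.derivative.eval x| ≤ K * |P.eval x| / x := by
      rw [le_div_iff₀ hx]
      exact h1
    calc 2 * (|P.derivative.eval x| * (t * x ^ t / x)) ≤ 2 * (K * |P.eval x| / x * (t * x ^ t / x)) := by
          gcongr
      _ = _ := by
        field_simp
  have hC : |P.eval x * (t * (t - 1) * x ^ t / x ^ 2)| ≤ (t : ℝ) * (t - 1) * |P.eval x| * (x ^ t / x ^ 2) := by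
    rw [abs_mul, abs_of_nonneg (by
      have : (0 : ℝ) ≤ (t : ℝ) - 1 := by linarith
      positivity : 0 ≤ (t : ℝ) * (t - 1) * x ^ t / x ^ 2)]
    exact le_of_eq (by ring)
  unfold d2
  refine (abs_add_le _ _).trans ((add_le_add (abs_add_le _ _) le_rfl).trans ?_)
  refine (add_le_add (add_le_add hA hB) hC).trans ?_
  have h5 : K * |P.eval x| * (x ^ t / x ^ 2) + 2 * K * t * |P.eval x| * (x ^ t / x ^ 2) +
      (t : ℝ) * (t - 1) * |P.eval x| * (x ^ t / x ^ 2) =
      (K + 2 * K * t + t * (t - 1)) * (|P.eval x| * (x ^ t / x ^ 2)) := by ring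
  have h6 : 2 * (|P.eval x| * ((t : ℝ) ^ 2 * x ^ t / x ^ 2)) = (2 * (t : ℝ) ^ 2) * (|P.eval x| * (x ^ t / x ^ 2)) := by ring
  rw [h5, h6]
  apply mul_le_mul_of_nonneg_right _ (by positivity)
  nlinarith

theorem geo1 {x : ℝ} (hx : 1 ≤ x) {M : ℝ} (hM : 1 ≤ M) {L : ℕ} (hL : 1 + 8 * M ≤ x ^ L) {t : ℕ → ℕ}
    (ht : ∀ i, t i + L ≤ t (i + 1)) (k J : ℕ) :
    M * ∑ i ∈ range J, (t i : ℝ) ^ k * x ^ t i ≤ 1 / 8 * ((t J : ℝ) ^ k * x ^ t J) := by
  induction J with
  | zero =>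
    simp only [range_zero, sum_empty, mul_zero]
    positivity
  | succ J ih =>
    rw [sum_range_succ, mul_add]
    have h1 : (t J : ℝ) ≤ t (J + 1) := by
      have := ht J
      exact_mod_cast (by omega : t J ≤ t (J + 1))
    have h2 : x ^ t J * x ^ L ≤ x ^ t (J + 1) := by
      rw [← pow_add]
      exact pow_le_pow_right₀ hx (ht J)
    have h3 : 0 < x ^ t J := by positivity
    have h4 : (1 + 8 * M) * x ^ t J ≤ x ^ t (J + 1) := by
      refine le_trans ?_ h2
      rw [mul_comm]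
      exact mul_le_mul_of_nonneg_left hL h3.le
    have h5 : (t J : ℝ) ^ k ≤ (t (J + 1) : ℝ) ^ k := pow_le_pow_left₀ (by positivity) h1 k
    have h6 : (t J : ℝ) ^ k * ((1 + 8 * M) * x ^ t J) ≤ (t (J + 1) : ℝ) ^ k * x ^ t (J + 1) :=
      mul_le_mul h5 h4 (by positivity) (by positivity)
    nlinarith

/-- **Dominance.** Oscillatory integral of a phase with a dominating top term. -/
theorem dom {a b : ℝ} (ha : 1 < a) (hab : a ≤ b) (P : ℝ[X]) (hP : ∀ x ∈ Icc a b, P.eval x ≠ 0) {M : ℝ}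
    (hM : 1 ≤ M) {L : ℕ} (hL : 1 + 8 * M ≤ a ^ L) :
    ∃ C : ℝ, 0 < C ∧ ∃ n₀ : ℕ, ∀ t : ℕ → ℕ, n₀ ≤ t 0 → (∀ i, t i + L ≤ t (i + 1)) →
      ∀ (J : ℕ) (σ : ℕ → ℝ), (∀ i, |σ i| ≤ M) → 1 ≤ |σ J| → ∀ c a' b' : ℝ, a ≤ a' → a' ≤ b' → b' ≤ b →
      ‖∫ x in a'..b', e (∑ i ∈ range (J + 1), σ i * (P.eval x * x ^ t i) + c)‖ ≤ C / a' ^ t J := by
  obtain ⟨p, K, hp, hK, hPK⟩ := poly_consts ha hab P hP
  obtain ⟨n₀, hn₀⟩ := exists_nat_ge (4 * K)
  refine ⟨(4 * b + 9 * M * (b - a)) / p + 1, by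
    have : 0 ≤ b - a := by linarith
    have : 0 ≤ b := by linarith
    positivity, n₀ + 1, ?_⟩
  intro t ht0 ht J σ hσ hσJ c a' b' haa' hab' hbb'
  have htmono : ∀ i, t 0 ≤ t i := by
    intro i
    induction i with
    | zero => exact le_rfl
    | succ i ih => exact ih.trans (by have := ht i; omega)
  have ht1 : ∀ i, 1 ≤ t i := fun i => by have := htmono i; omega
  have htK : ∀ i, 4 * K ≤ t i := fun i => by
    have h1 : n₀ ≤ t i := by have := htmono i; omega
    have h2 : (n₀ : ℝ) ≤ t i := by exact_mod_cast h1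
    linarith
  have htJ : (1 : ℝ) ≤ t J := by exact_mod_cast ht1 J
  set G : ℝ → ℝ := fun x => ∑ i ∈ range (J + 1), σ i * (P.eval x * x ^ t i) + c with hG
  set G' : ℝ → ℝ := fun x => ∑ i ∈ range (J + 1), σ i * d1 P (t i) x with hG'
  set G'' : ℝ → ℝ := fun x => ∑ i ∈ range (J + 1), σ i * d2 P (t i) x with hG''
  have hI : ∀ x ∈ Icc a' b', x ∈ Icc a b := fun x hx => ⟨haa'.trans hx.1, hx.2.trans hbb'⟩
  have hd1 : ∀ x ∈ Icc a' b', HasDerivAt G (G' x) x := by
    intro x hx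
    have hx0 : 0 < x := by linarith [(hI x hx).1]
    have h := (HasDerivAt.fun_sum (u := range (J + 1)) fun i _ => (hasDerivAt_term hx0 P (t i)).const_mul (σ i)).add_const c
    exact h
  have hd2 : ∀ x ∈ Icc a' b', HasDerivAt G' (G'' x) x := by
    intro x hx
    have hx0 : 0 < x := by linarith [(hI x hx).1]
    exact HasDerivAt.fun_sum (u := range (J + 1)) fun i _ => (hasDerivAt_d1 hx0 P (t i)).const_mul (σ i)
  have hc2 : ContinuousOn G'' (Icc a' b') := by
    refine continuousOn_finsetSum _ fun i _ => continuousOn_const.mul (continuousOn_d2 (fun x hx => ?_) P (t i))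
    linarith [(hI x hx).1]
  -- bounds
  have hlow : ∀ x ∈ Icc a' b', 1 / 2 * (|P.eval x| * (t J * x ^ t J / x)) ≤ |G' x| := by
    intro x hx
    have hx' := hI x hx
    have hx0 : 0 < x := by linarith [hx'.1]
    obtain ⟨h1, h2, h3⟩ := hPK x hx'
    have hLx : 1 + 8 * M ≤ x ^ L := hL.trans (pow_le_pow_left₀ (by linarith) hx'.1 L)
    have h4 : |∑ i ∈ range J, σ i * d1 P (t i) x| ≤ 5 / 32 * (|P.eval x| * (t J * x ^ t J / x)) := by
      refine (abs_sum_le_sum_abs _ _).trans ?_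
      have h5 : ∀ i ∈ range J, |σ i * d1 P (t i) x| ≤ 5 / 4 * |P.eval x| / x * (M * (t i * x ^ t i)) := by
        intro i _
        rw [abs_mul]
        calc |σ i| * |d1 P (t i) x| ≤ M * (5 / 4 * (|P.eval x| * (t i * x ^ t i / x))) := by
              apply mul_le_mul (hσ i) (d1_bounds hx0 h2 (htK i)).1 (abs_nonneg _) (by linarith)
          _ = _ := by ring
      refine (Finset.sum_le_sum h5).trans ?_
      rw [← Finset.mul_sum, ← Finset.mul_sum]
      have h6 := geo1 (by linarith [hx'.1] : 1 ≤ x) hM hLx ht 1 J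
      simp only [pow_one] at h6
      calc 5 / 4 * |P.eval x| / x * (M * ∑ i ∈ range J, (t i : ℝ) * x ^ t i) ≤
          5 / 4 * |P.eval x| / x * (1 / 8 * (t J * x ^ t J)) :=
            mul_le_mul_of_nonneg_left h6 (by positivity)
        _ = _ := by ring
    have h7 : 3 / 4 * (|P.eval x| * (t J * x ^ t J / x)) ≤ |σ J * d1 P (t J) x| := by
      rw [abs_mul]
      have := (d1_bounds hx0 h2 (htK J)).2
      nlinarith [abs_nonneg (d1 P (t J) x)]
    have h8 : |σ J * d1 P (t J) x| - |∑ i ∈ range J, σ i * d1 P (t i) x| ≤ |G' x| := by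
      have := abs_sub_abs_le_abs_sub (σ J * d1 P (t J) x) (-(∑ i ∈ range J, σ i * d1 P (t i) x))
      rw [abs_neg, sub_neg_eq_add] at this
      show _ ≤ |∑ i ∈ range (J + 1), σ i * d1 P (t i) x|
      rw [sum_range_succ, add_comm (∑ i ∈ range J, σ i * d1 P (t i) x)]
      exact this
    have h9 : 0 ≤ |P.eval x| * (t J * x ^ t J / x) := by positivity
    linarith
  have hup : ∀ x ∈ Icc a' b', |G'' x| ≤ 9 / 4 * M * (|P.eval x| * ((t J : ℝ) ^ 2 * x ^ t J / x ^ 2)) := by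
    intro x hx
    have hx' := hI x hx
    have hx0 : 0 < x := by linarith [hx'.1]
    obtain ⟨h1, h2, h3⟩ := hPK x hx'
    have hLx : 1 + 8 * M ≤ x ^ L := hL.trans (pow_le_pow_left₀ (by linarith) hx'.1 L)
    have h5 : ∀ i ∈ range (J + 1), |σ i * d2 P (t i) x| ≤ 2 * |P.eval x| / x ^ 2 * (M * ((t i : ℝ) ^ 2 * x ^ t i)) := by
      intro i _
      rw [abs_mul]
      calc |σ i| * |d2 P (t i) x| ≤ M * (2 * (|P.eval x| * ((t i : ℝ) ^ 2 * x ^ t i / x ^ 2))) := by
            apply mul_le_mul (hσ i) (d2_bound hK hx0 h2 h3 (ht1 i) (htK i)) (abs_nonneg _) (by linarith)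
        _ = _ := by ring
    refine (abs_sum_le_sum_abs _ _).trans ((Finset.sum_le_sum h5).trans ?_)
    rw [← Finset.mul_sum, ← Finset.mul_sum, sum_range_succ, mul_add]
    have h6 := geo1 (by linarith [hx'.1] : 1 ≤ x) hM hLx ht 2 J
    have h7 : 0 ≤ (t J : ℝ) ^ 2 * x ^ t J := by positivity
    have h8 : M * ∑ i ∈ range J, (t i : ℝ) ^ 2 * x ^ t i + M * ((t J : ℝ) ^ 2 * x ^ t J) ≤
        9 / 8 * M * ((t J : ℝ) ^ 2 * x ^ t J) := by nlinarith
    calc 2 * |P.eval x| / x ^ 2 * (M * ∑ i ∈ range J, (t i : ℝ) ^ 2 * x ^ t i + M * ((t J : ℝ) ^ 2 * x ^ t J)) ≤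
        2 * |P.eval x| / x ^ 2 * (9 / 8 * M * ((t J : ℝ) ^ 2 * x ^ t J)) :=
          mul_le_mul_of_nonneg_left h8 (by positivity)
      _ = _ := by ring
  have ha'0 : 0 < a' := by linarith
  have hA : 0 < a' ^ t J := pow_pos ha'0 _
  have hmpos : 0 < 1 / 2 * (p * (a' ^ t J / b)) := by
    have : 0 < b := by linarith
    positivity
  have hmain := vc1 hab' hd1 hd2 hc2 (m := 1 / 2 * (p * (a' ^ t J / b))) (V := 9 * M / (p * a' ^ t J)) hmpos ?_ ?_
  · refine hmain.trans ?_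
    have hb0 : 0 < b := by linarith
    have h1 : 2 / (1 / 2 * (p * (a' ^ t J / b))) + 9 * M / (p * a' ^ t J) * (b' - a') ≤
        ((4 * b + 9 * M * (b - a)) / p + 1) / a' ^ t J := by
      have h2 : 2 / (1 / 2 * (p * (a' ^ t J / b))) + 9 * M / (p * a' ^ t J) * (b' - a') =
          ((4 * b + 9 * M * (b' - a')) / p) / a' ^ t J := by
        field_simp
        ring
      rw [h2]
      apply div_le_div_of_nonneg_right _ hA.le
      have h3 : (4 * b + 9 * M * (b' - a')) / p ≤ (4 * b + 9 * M * (b - a)) / p := by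
        apply div_le_div_of_nonneg_right _ hp.le
        nlinarith
      linarith
    have hnn : 0 ≤ 2 / (1 / 2 * (p * (a' ^ t J / b))) + 9 * M / (p * a' ^ t J) * (b' - a') := by
      have : 0 ≤ b' - a' := by linarith
      positivity
    have hpi := Real.pi_gt_three
    refine le_trans ?_ h1
    exact div_le_self hnn (by linarith)
  · intro x hx
    refine le_trans ?_ (hlow x hx)
    have hx' := hI x hx
    have hx0 : 0 < x := by linarith [hx'.1]
    obtain ⟨h1, -, -⟩ := hPK x hx'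
    have h2 : a' ^ t J ≤ x ^ t J := pow_le_pow_left₀ ha'0.le hx.1 _
    have h3 : a' ^ t J / b ≤ t J * x ^ t J / x := by
      have h4 : x ^ t J ≤ t J * x ^ t J := by nlinarith [pow_pos hx0 (t J)]
      exact div_le_div₀ (by positivity) (h2.trans h4) hx0 hx'.2
    have hb0 : 0 < b := by linarith
    gcongr
  · intro x hx
    refine (hup x hx).trans ?_
    have hx' := hI x hx
    have hx0 : 0 < x := by linarith [hx'.1]
    obtain ⟨h1, -, -⟩ := hPK x hx'
    have hPx : 0 < |P.eval x| := by linarith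
    have h2 : a' ^ t J ≤ x ^ t J := pow_le_pow_left₀ ha'0.le hx.1 _
    have hxt : 0 < x ^ t J := pow_pos hx0 _
    have h3 : (1 / 2 * (|P.eval x| * (t J * x ^ t J / x))) ^ 2 ≤ (G' x) ^ 2 := by
      rw [← sq_abs (G' x)]
      exact pow_le_pow_left₀ (by positivity) (hlow x hx) 2
    have h4 : 9 / 4 * M * (|P.eval x| * ((t J : ℝ) ^ 2 * x ^ t J / x ^ 2)) =
        9 * M / (|P.eval x| * x ^ t J) * (1 / 2 * (|P.eval x| * (t J * x ^ t J / x))) ^ 2 := by
      field_simp
      ring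
    rw [h4]
    have h5 : 9 * M / (|P.eval x| * x ^ t J) ≤ 9 * M / (p * a' ^ t J) := by
      apply div_le_div_of_nonneg_left (by positivity) (by positivity)
      exact mul_le_mul h1 h2 hA.le hPx.le
    exact mul_le_mul h5 h3 (by positivity) (by positivity)

end Pool.Agent.Helper82.FK
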