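import Pool.Agent.Helper82.FK.Riesz

/-!
# Fourier decay of the Riesz products
-/

set_option autoImplicit false

namespace Pool.Agent.Helper82.FK

open MeasureTheory Set Finset

theorem PhT_bd {a' b' : ℝ} (h1 : 1 ≤ a') {M : ℝ} (hM : 1 ≤ M) {L : ℕ} (hL : 1 + 8 * M ≤ a' ^ L) {j₀ : ℕ}
    (J : ℕ) {φ : ℝ → ℝ} (hφ : φ ∈ PhT M L j₀ J) :
    Bd (Icc a' b') φ (fun x => (M + 1 / 8) * (tt L j₀ J * x ^ tt L j₀ J / x))
      (fun x => (M + 1 / 8) * ((tt L j₀ J : ℝ) ^ 2 * x ^ tt L j₀ J / x ^ 2)) := by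
  obtain ⟨σ, τ, hσ, hτ, hτM, h⟩ := hφ
  rw [show φ = _ from funext h]
  have hI : ∀ x ∈ Icc a' b', 0 < x := fun x hx => by linarith [hx.1]
  refine ((Bd.monomial hI τ (tt L j₀ J)).add (Bd.lac (b' := b') h1 hM hL (tt_le L j₀) J hσ)).mono ?_ ?_
  · intro x hx
    have := hI x hx
    have h2 : 0 ≤ (tt L j₀ J : ℝ) * x ^ tt L j₀ J / x := by positivity
    have := mul_le_mul_of_nonneg_right hτM h2
    linarith
  · intro x hx
    have := hI x hx
    have h2 : 0 ≤ (tt L j₀ J : ℝ) ^ 2 * x ^ tt L j₀ J / x ^ 2 := by positivity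
    have := mul_le_mul_of_nonneg_right hτM h2
    linarith

theorem sqrt_pow' {a : ℝ} (ha : 0 ≤ a) (t : ℕ) : Real.sqrt (a ^ t) = Real.sqrt a ^ t := by
  rw [Real.sqrt_eq_iff_mul_self_eq (by positivity) (by positivity), ← mul_pow, Real.mul_self_sqrt ha]

/-- far frequencies -/
theorem fd_far {a b τ : ℝ} {L j₀ : ℕ} (ha : 1 ≤ a) (hab : a ≤ b) (hL : 9 ≤ a ^ L) (hj : 1 ≤ L * j₀) (j : ℕ)
    (hτ : 4 * (tt L j₀ j * b ^ tt L j₀ j) ≤ |τ|) {φ : ℝ → ℝ} (hφ : φ ∈ PhT 1 L j₀ j) :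
    ‖∫ x in a..b, e (φ x + τ * x)‖ ≤ (4 + 2 * (b - a)) * (tt L j₀ j / |τ|) := by
  have hT : 1 ≤ tt L j₀ j := by
    unfold tt
    nlinarith
  set t := tt L j₀ j with ht
  have ht' : (1 : ℝ) ≤ t := by exact_mod_cast hT
  have hb1 : 1 ≤ b := ha.trans hab
  have hbt : 1 ≤ b ^ t := one_le_pow₀ hb1
  have hτ0 : 0 < |τ| := by nlinarith
  have hτne : τ ≠ 0 := abs_pos.1 hτ0
  have hbd := PhT_bd (b' := b) ha le_rfl (by linarith) j hφ
  have hI : ∀ x ∈ Icc a b, 1 ≤ x := fun x hx => ha.trans hx.1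
  have hxt : ∀ x ∈ Icc a b, x ^ t ≤ b ^ t := fun x hx => pow_le_pow_left₀ (by linarith [hI x hx]) hx.2 t
  have h := osc3 hab hτne hbd (B₀ := 9 / 32 * t * |τ|) ?_ ?_
  · refine h.trans ?_
    have h1 : 4 * (9 / 32 * t * |τ|) / τ ^ 2 * (b - a) = 9 / 8 * (b - a) * (t / |τ|) := by
      rw [← sq_abs τ]
      field_simp
      ring
    rw [h1]
    have h2 : 4 / |τ| ≤ 4 * (t / |τ|) := by
      rw [div_eq_mul_one_div (t : ℝ), ← mul_assoc, div_eq_mul_one_div]
      apply mul_le_mul_of_nonneg_right _ (by positivity)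
      linarith
    have h3 : 0 ≤ (b - a) * (t / |τ|) := mul_nonneg (by linarith) (by positivity)
    nlinarith
  · intro x hx
    have hx1 := hI x hx
    have h1 : (t : ℝ) * x ^ t / x ≤ t * b ^ t := by
      rw [div_le_iff₀ (by linarith)]
      have := hxt x hx
      have h3 : (t : ℝ) * x ^ t ≤ t * b ^ t := by gcongr
      nlinarith [mul_nonneg (by positivity : (0 : ℝ) ≤ t * b ^ t) (by linarith : (0 : ℝ) ≤ x - 1)]
    show (1 + 1 / 8) * ((t : ℝ) * x ^ t / x) ≤ |τ| / 2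
    linarith
  · intro x hx
    have hx1 := hI x hx
    have h1 : (t : ℝ) ^ 2 * x ^ t / x ^ 2 ≤ t * (t * b ^ t) := by
      rw [div_le_iff₀ (by positivity)]
      have := hxt x hx
      have h3 : (t : ℝ) ^ 2 * x ^ t ≤ t * (t * b ^ t) := by
        rw [sq, mul_assoc]
        gcongr
      have h4 : (1 : ℝ) ≤ x ^ 2 := one_le_pow₀ hx1
      nlinarith [mul_nonneg (by positivity : (0 : ℝ) ≤ t * (t * b ^ t)) (by linarith : (0 : ℝ) ≤ x ^ 2 - 1)]
    show (1 + 1 / 8) * ((t : ℝ) ^ 2 * x ^ t / x ^ 2) ≤ 9 / 32 * t * |τ|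
    have h2 : (t : ℝ) * (4 * (t * b ^ t)) ≤ t * |τ| := by gcongr
    linarith

/-- near frequencies -/
theorem fd_near {a b τ : ℝ} {L j₀ : ℕ} (ha : 1 ≤ a) (hab : a ≤ b) (hL : 9 ≤ a ^ L) (hj : 2 ≤ L * j₀) (j : ℕ)
    {φ : ℝ → ℝ} (hφ : φ ∈ PhT 1 L j₀ j) :
    ‖∫ x in a..b, e (φ x + τ * x)‖ ≤ 8 * b / (tt L j₀ j * Real.sqrt a ^ tt L j₀ j) := by
  obtain ⟨σ, c, hσ, hc, hcM, h⟩ := hφ
  have hT : 2 ≤ tt L j₀ j := by
    unfold tt
    nlinarith
  simp_rw [h]
  have hR := (Bd.lac (b' := b) ha (le_refl (1 : ℝ)) (L := L) (by linarith) (tt_le L j₀) j hσ).add (Bd.linear τ)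
  have h2 := osc2 (by linarith : 0 < a) hab hT hc hR (fun x hx => by
    have hx0 : 0 < x := by linarith [hx.1]
    have : 0 ≤ (tt L j₀ j : ℝ) ^ 2 * x ^ tt L j₀ j / x ^ 2 := by positivity
    linarith)
  rw [sqrt_pow' (by linarith)] at h2
  refine le_trans (le_of_eq ?_) h2
  congr 1
  apply intervalIntegral.integral_congr
  intro x _
  show e (c * x ^ tt L j₀ j + ∑ i ∈ Finset.range j, σ i * x ^ tt L j₀ i + τ * x) = _
  rw [add_assoc]

theorem lin_geo (j : ℕ) : ((j : ℝ) + 1) * (1 / 2) ^ j ≤ 2 * (3 / 4) ^ j := by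
  have h := one_add_mul_le_pow (show (-2 : ℝ) ≤ 1 / 2 by norm_num) j
  have h1 : ((3 : ℝ) / 4) ^ j = (1 / 2) ^ j * (1 + 1 / 2) ^ j := by
    rw [← mul_pow]
    norm_num
  rw [h1]
  have h2 : (0 : ℝ) < (1 / 2) ^ j := by positivity
  nlinarith

/-- **Fourier decay** of the Riesz products, uniform in `J` -/
theorem fd {a b β : ℝ} {L j₀ : ℕ} (ha : 1 ≤ a) (hab : a ≤ b) (hβ : 0 ≤ β) (hβ' : β ≤ 1 / 2) (hL : 9 ≤ a ^ L)
    (hθ : (b ^ β / Real.sqrt a) ^ L ≤ 1 / 3) (hθ1 : b ^ β / Real.sqrt a ≤ 1) (hj : 2 ≤ L * j₀) :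
    ∃ C : ℝ, 0 < C ∧ ∀ (J : ℕ) (τ : ℝ), 1 ≤ |τ| →
      ‖∫ x in a..b, ((F L j₀ J x : ℝ) : ℂ) * e (τ * x)‖ ≤ C * |τ| ^ (-β) := by
  have hb1 : 1 ≤ b := ha.trans hab
  have hb0 : 0 < b := by linarith
  have ha0 : 0 < a := by linarith
  have hsa : 0 < Real.sqrt a := Real.sqrt_pos.2 ha0
  have hba : 0 ≤ b - a := by linarith
  set θ := b ^ β / Real.sqrt a with hθd
  have hθ0 : 0 < θ := by positivity
  set E : ℝ := 32 * b + (4 + 2 * (b - a)) * (L * (j₀ + 1)) with hE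
  have hE0 : 0 < E := by positivity
  refine ⟨4 + 8 * E, by positivity, ?_⟩
  intro J τ hτ
  have hτ0 : 0 < |τ| := by linarith
  have hτne : τ ≠ 0 := abs_pos.1 hτ0
  set R := |τ| ^ (-β) with hR
  have hR0 : 0 < R := by positivity
  -- the first term
  have h0 : ‖∫ x in a..b, e (τ * x)‖ ≤ 4 * R := by
    have h1 := osc3 hab hτne (R := fun _ => 0) (Bd.const 0) (B₀ := 0) (fun x _ => by positivity) (fun x _ => le_rfl)
    simp only [zero_add, mul_zero, zero_div, zero_mul, add_zero] at h1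
    refine h1.trans ?_
    rw [div_eq_mul_inv, hR, ← Real.rpow_neg_one]
    apply mul_le_mul_of_nonneg_left _ (by norm_num)
    exact Real.rpow_le_rpow_of_exponent_le hτ (by linarith)
  -- the other terms
  have hterm : ∀ j : ℕ, ‖∫ x in a..b, ((F L j₀ j x * Real.cos (2 * Real.pi * x ^ tt L j₀ j) : ℝ) : ℂ) * e (τ * x)‖ ≤
      4 * E * R * (3 / 4) ^ j := by
    intro j
    set t := tt L j₀ j with ht
    have hT : 2 ≤ t := by
      rw [ht]
      unfold tt
      nlinarith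
    have ht' : (2 : ℝ) ≤ t := by exact_mod_cast hT
    have htt : (t : ℝ) ≤ L * (j₀ + 1) * (j + 1) := by
      rw [ht]
      unfold tt
      push_cast
      have h1 : (0 : ℝ) ≤ L := by positivity
      have h2 : (0 : ℝ) ≤ (j₀ : ℝ) * j := by positivity
      nlinarith [mul_nonneg h1 h2]
    have hphase : ∀ B : ℝ, (∀ φ ∈ PhT 1 L j₀ j, ‖∫ x in a..b, e (φ x + τ * x)‖ ≤ B) →
        ‖∫ x in a..b, ((F L j₀ j x * Real.cos (2 * Real.pi * x ^ t) : ℝ) : ℂ) * e (τ * x)‖ ≤ (3 / 2) ^ j * B := by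
      intro B hB
      have hc := (FT_comb L j₀ j).mul_phase (ψ := fun x => τ * x) (Ψ := {ψ | ∃ φ ∈ PhT 1 L j₀ j, ∀ x, ψ x = φ x + τ * x})
        (fun φ hφ => ⟨φ, hφ, fun x => rfl⟩)
      refine hc.norm_integral_le (fun ψ hψ => ?_) (fun ψ hψ => ?_)
      · obtain ⟨φ, hφ, h⟩ := hψ
        rw [show ψ = _ from funext h]
        exact ((PhT_continuous hφ).add (continuous_const.mul continuous_id)).continuousOn
      · obtain ⟨φ, hφ, h⟩ := hψ
        simp_rw [h]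
        exact hB φ hφ
    have h2j : (0 : ℝ) < (1 / 2) ^ j := by positivity
    have hfin : ∀ D : ℝ, 0 ≤ D → D ≤ E → D * R * (1 / 2) ^ j ≤ 4 * E * R * (3 / 4) ^ j := by
      intro D hD hDE
      have h1 : ((1 : ℝ) / 2) ^ j ≤ (3 / 4) ^ j := pow_le_pow_left₀ (by norm_num) (by norm_num) j
      calc D * R * (1 / 2) ^ j ≤ E * R * (3 / 4) ^ j := by gcongr
        _ ≤ 4 * E * R * (3 / 4) ^ j := by
          have : 0 ≤ E * R * (3 / 4) ^ j := by positivity
          linarith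
    rcases le_or_gt (4 * ((t : ℝ) * b ^ t)) |τ| with hfar | hnear
    · -- far
      refine (hphase _ fun φ hφ => fd_far ha hab hL (by omega) j hfar hφ).trans ?_
      -- t / |τ| ≤ R * sqrt t * b^(-t/2)
      have h3 : (tt L j₀ j : ℝ) / |τ| ≤ R * (t / 3 ^ j) := by
        show (t : ℝ) / |τ| ≤ _
        rw [div_eq_mul_inv, ← Real.rpow_neg_one]
        have h4 : |τ| ^ (-1 : ℝ) ≤ R * |τ| ^ (-(1 / 2) : ℝ) := by
          rw [hR, ← Real.rpow_add hτ0]
          exact Real.rpow_le_rpow_of_exponent_le hτ (by linarith)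
        have h5 : |τ| ^ (-(1 / 2) : ℝ) ≤ 1 / 3 ^ j := by
          rw [Real.rpow_neg hτ0.le, ← Real.sqrt_eq_rpow, ← one_div]
          apply one_div_le_one_div_of_le (by positivity)
          apply Real.le_sqrt_of_sq_le
          have h6 : ((3 : ℝ) ^ j) ^ 2 = 9 ^ j := by
            rw [← pow_mul, mul_comm, pow_mul]
            norm_num
          rw [h6]
          have h7 : (9 : ℝ) ^ j ≤ b ^ t := by
            calc (9 : ℝ) ^ j ≤ (b ^ L) ^ j := by
                  gcongr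
                  exact hL.trans (pow_le_pow_left₀ (by linarith) hab L)
              _ = b ^ (L * j) := (pow_mul b L j).symm
              _ ≤ b ^ t := by
                apply pow_le_pow_right₀ hb1
                rw [ht]
                unfold tt
                exact Nat.mul_le_mul_left L (Nat.le_add_left j j₀)
          have h8 : b ^ t ≤ 4 * ((t : ℝ) * b ^ t) := by
            have : 0 < b ^ t := by positivity
            nlinarith
          linarith
        calc (t : ℝ) * |τ| ^ (-1 : ℝ) ≤ t * (R * (1 / 3 ^ j)) := by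
              gcongr
              exact h4.trans (mul_le_mul_of_nonneg_left h5 hR0.le)
          _ = R * (t / 3 ^ j) := by ring
      have h4 : ((3 : ℝ) / 2) ^ j / 3 ^ j = (1 / 2) ^ j := by
        rw [← div_pow]
        norm_num
      calc (3 / 2) ^ j * ((4 + 2 * (b - a)) * ((tt L j₀ j : ℝ) / |τ|)) ≤ (3 / 2) ^ j * ((4 + 2 * (b - a)) * (R * (t / 3 ^ j))) := by
            gcongr
        _ = (4 + 2 * (b - a)) * R * t * ((3 / 2) ^ j / 3 ^ j) := by ring
        _ = (4 + 2 * (b - a)) * R * t * (1 / 2) ^ j := by rw [h4]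
        _ ≤ (4 + 2 * (b - a)) * R * (L * (j₀ + 1) * (j + 1)) * (1 / 2) ^ j := by gcongr
        _ = (4 + 2 * (b - a)) * (L * (j₀ + 1)) * R * (((j : ℝ) + 1) * (1 / 2) ^ j) := by ring
        _ ≤ (4 + 2 * (b - a)) * (L * (j₀ + 1)) * R * (2 * (3 / 4) ^ j) := by
            apply mul_le_mul_of_nonneg_left (lin_geo j) (by positivity)
        _ ≤ E * R * (2 * (3 / 4) ^ j) := by
            gcongr
            rw [hE]
            linarith
        _ ≤ 4 * E * R * (3 / 4) ^ j := by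
          have : 0 ≤ E * R * (3 / 4) ^ j := by positivity
          linarith
    · -- near
      refine (hphase _ fun φ hφ => fd_near (τ := τ) ha hab hL hj j hφ).trans ?_
      refine le_trans ?_ (hfin (32 * b) (by positivity) (by rw [hE]; linarith [mul_nonneg (by positivity : (0 : ℝ) ≤ 4 + 2 * (b - a)) (by positivity : (0 : ℝ) ≤ L * ((j₀ : ℝ) + 1))]))
      show (3 / 2) ^ j * (8 * b / ((t : ℝ) * Real.sqrt a ^ t)) ≤ 32 * b * R * (1 / 2) ^ j
      have hst : 0 < Real.sqrt a ^ t := by positivity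
      have h1 : |τ| ^ β ≤ 4 * t * (b ^ β) ^ t := by
        calc |τ| ^ β ≤ (4 * ((t : ℝ) * b ^ t)) ^ β := Real.rpow_le_rpow hτ0.le hnear.le hβ
          _ = (4 * (t : ℝ)) ^ β * (b ^ t) ^ β := by
              rw [← mul_assoc, Real.mul_rpow (by positivity) (by positivity)]
          _ ≤ (4 * (t : ℝ)) ^ (1 : ℝ) * (b ^ t) ^ β := by
              apply mul_le_mul_of_nonneg_right _ (by positivity)
              apply Real.rpow_le_rpow_of_exponent_le (by linarith) (by linarith)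
          _ = 4 * t * (b ^ β) ^ t := by
              rw [Real.rpow_one, ← Real.rpow_natCast, ← Real.rpow_natCast, ← Real.rpow_mul hb0.le, ← Real.rpow_mul hb0.le, mul_comm β]
      have h2 : (b ^ β) ^ t = θ ^ t * Real.sqrt a ^ t := by
        rw [← mul_pow, hθd, div_mul_cancel₀ _ hsa.ne']
      have h3 : θ ^ t ≤ (1 / 3) ^ j := by
        calc θ ^ t ≤ θ ^ (L * j) := by
              apply pow_le_pow_of_le_one hθ0.le hθ1
              rw [ht]
              unfold tt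
              exact Nat.mul_le_mul_left L (Nat.le_add_left j j₀)
          _ = (θ ^ L) ^ j := pow_mul θ L j
          _ ≤ (1 / 3) ^ j := pow_le_pow_left₀ (by positivity) hθ j
      have h4 : 1 ≤ 4 * t * ((1 / 3) ^ j * Real.sqrt a ^ t) * R := by
        have h5 : |τ| ^ β * R = 1 := by
          rw [hR, ← Real.rpow_add hτ0, add_neg_cancel, Real.rpow_zero]
        refine h5.symm.le.trans ?_
        apply mul_le_mul_of_nonneg_right _ hR0.le
        refine h1.trans ?_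
        rw [h2]
        gcongr
      have h6 : ((3 : ℝ) / 2) ^ j * (1 / 3) ^ j = (1 / 2) ^ j := by
        rw [← mul_pow]
        norm_num
      calc (3 / 2) ^ j * (8 * b / ((t : ℝ) * Real.sqrt a ^ t)) = (3 / 2) ^ j * (8 * b / ((t : ℝ) * Real.sqrt a ^ t)) * 1 := (mul_one _).symm
        _ ≤ (3 / 2) ^ j * (8 * b / ((t : ℝ) * Real.sqrt a ^ t)) * (4 * t * ((1 / 3) ^ j * Real.sqrt a ^ t) * R) := by gcongr
        _ = 32 * b * R * ((3 / 2) ^ j * (1 / 3) ^ j) := by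
            field_simp
            ring
        _ = _ := by rw [h6]
  -- assemble
  rw [F_tele L j₀ (w := fun x => e (τ * x)) (continuous_e.comp (by fun_prop)) 0 J (Nat.zero_le J)]
  simp only [F_zero, Complex.ofReal_one, one_mul]
  refine (norm_add_le _ _).trans ?_
  have hsum : ‖∑ j ∈ Finset.Ico 0 J, 1 / 2 * ∫ x in a..b, ((F L j₀ j x * Real.cos (2 * Real.pi * x ^ tt L j₀ j) : ℝ) : ℂ) * e (τ * x)‖ ≤
      8 * E * R := by
    refine (norm_sum_le _ _).trans ?_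
    have h1 : ∀ j ∈ Finset.Ico 0 J, ‖(1 / 2 : ℂ) * ∫ x in a..b, ((F L j₀ j x * Real.cos (2 * Real.pi * x ^ tt L j₀ j) : ℝ) : ℂ) * e (τ * x)‖ ≤
        2 * E * R * (3 / 4) ^ j := by
      intro j _
      rw [norm_mul]
      have h9 : ‖(1 / 2 : ℂ)‖ = 1 / 2 := by norm_num
      rw [h9]
      have := hterm j
      linarith
    refine (sum_le_sum h1).trans ?_
    rw [← mul_sum]
    have h2 : ∑ j ∈ Finset.Ico 0 J, (3 / 4 : ℝ) ^ j ≤ 4 := by
      rw [geom_sum_Ico (by norm_num) (Nat.zero_le J), div_le_iff_of_neg (by norm_num)]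
      have : (0 : ℝ) < (3 / 4 : ℝ) ^ J := by positivity
      linarith
    calc 2 * E * R * ∑ j ∈ Finset.Ico 0 J, (3 / 4 : ℝ) ^ j ≤ 2 * E * R * 4 := by gcongr
      _ = 8 * E * R := by ring
  have := add_le_add h0 hsum
  linarith

end Pool.Agent.Helper82.FK
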