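import Mathlib

/-!
# Fourier decay and sets of small Hausdorff dimension
-/

set_option autoImplicit false

namespace Pool.Agent.Helper82.FK

open MeasureTheory Set Filter Topology ProbabilityTheory

theorem lint_abs_rpow {p : ℝ} (hp : -1 < p) : ∫⁻ t in Icc (-1 : ℝ) 1, ENNReal.ofReal (|t| ^ p) < ⊤ := by
  have h1 : IntegrableOn (fun t : ℝ => t ^ p) (Ioc 0 1) :=
    (intervalIntegrable_iff_integrableOn_Ioc_of_le zero_le_one).1 (intervalIntegral.intervalIntegrable_rpow' hp)
  have h2 : ∫⁻ t in Icc (0 : ℝ) 1, ENNReal.ofReal (|t| ^ p) < ⊤ := by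
    rw [setLIntegral_congr (Ioc_ae_eq_Icc (α := ℝ) (μ := volume) (a := 0) (b := 1)).symm]
    have h3 : ∫⁻ t in Ioc (0 : ℝ) 1, ENNReal.ofReal (|t| ^ p) = ∫⁻ t in Ioc (0 : ℝ) 1, ENNReal.ofReal (t ^ p) :=
      setLIntegral_congr_fun measurableSet_Ioc fun t ht => by rw [abs_of_pos ht.1]
    rw [h3]
    exact h1.lintegral_lt_top
  have h4 : ∫⁻ t in Icc (-1 : ℝ) 0, ENNReal.ofReal (|t| ^ p) = ∫⁻ t in Icc (0 : ℝ) 1, ENNReal.ofReal (|t| ^ p) := by
    have hmp : MeasurePreserving (fun t : ℝ => -t) (volume.restrict (Icc (-1 : ℝ) 0)) (volume.restrict (Icc (0 : ℝ) 1)) := by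
      have := (Measure.measurePreserving_neg (volume : Measure ℝ)).restrict_preimage (s := Icc (0 : ℝ) 1) measurableSet_Icc
      have h5 : (Neg.neg ⁻¹' Icc (0 : ℝ) 1) = Icc (-1 : ℝ) 0 := by
        ext x
        simp only [mem_preimage, mem_Icc]
        constructor <;> rintro ⟨h, h'⟩ <;> constructor <;> linarith
      rwa [h5] at this
    have h6 := hmp.lintegral_comp (f := fun t : ℝ => ENNReal.ofReal (|t| ^ p)) (by fun_prop)
    rw [← h6]
    simp only [abs_neg]
  have h5 : Icc (-1 : ℝ) 1 ⊆ Icc (-1 : ℝ) 0 ∪ Icc (0 : ℝ) 1 := by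
    intro x hx
    rcases le_total x 0 with h | h
    · exact Or.inl ⟨hx.1, h⟩
    · exact Or.inr ⟨h, hx.2⟩
  refine lt_of_le_of_lt (lintegral_mono_set h5) (lt_of_le_of_lt (lintegral_union_le _ _ _) ?_)
  rw [h4]
  exact ENNReal.add_lt_top.2 ⟨h2, h2⟩

theorem gauss_le : gaussianReal 0 1 ≤ (volume : Measure ℝ) := by
  rw [gaussianReal_of_var_ne_zero 0 one_ne_zero]
  have h : (volume : Measure ℝ).withDensity (fun _ => (1 : ENNReal)) = volume := by
    have := withDensity_one (μ := (volume : Measure ℝ))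
    exact this
  conv_rhs => rw [← h]
  refine withDensity_mono (Eventually.of_forall fun x => ?_)
  unfold gaussianPDF
  rw [ENNReal.ofReal_le_one]
  unfold gaussianPDFReal
  have h1 : (Real.sqrt (2 * Real.pi * ((1 : NNReal) : ℝ)))⁻¹ ≤ 1 := by
    apply inv_le_one_of_one_le₀
    rw [Real.one_le_sqrt]
    have := Real.two_le_pi
    simp only [NNReal.coe_one, mul_one]
    linarith
  have h2 : Real.exp (-(x - 0) ^ 2 / (2 * ((1 : NNReal) : ℝ))) ≤ 1 := by
    rw [Real.exp_le_one_iff]
    have : 0 ≤ (x - 0) ^ 2 := sq_nonneg _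
    simp only [NNReal.coe_one, mul_one]
    linarith
  exact mul_le_one₀ h1 (Real.exp_pos _).le h2

theorem gauss_moment {p : ℝ} (hp : -1 < p) (hp0 : p ≤ 0) : ∫⁻ t, ENNReal.ofReal (|t| ^ p) ∂(gaussianReal 0 1) < ⊤ := by
  have h1 : ∀ t : ℝ, ENNReal.ofReal (|t| ^ p) ≤ 1 + (Icc (-1 : ℝ) 1).indicator (fun t => ENNReal.ofReal (|t| ^ p)) t := by
    intro t
    by_cases ht : t ∈ Icc (-1 : ℝ) 1
    · rw [indicator_of_mem ht]
      exact le_add_self
    · rw [indicator_of_notMem ht, add_zero, ENNReal.ofReal_le_one]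
      have h2 : 1 ≤ |t| := by
        by_contra h
        push Not at h
        rw [abs_lt] at h
        exact ht ⟨h.1.le, h.2.le⟩
      exact Real.rpow_le_one_of_one_le_of_nonpos h2 hp0
  refine lt_of_le_of_lt (lintegral_mono h1) ?_
  rw [lintegral_add_left measurable_const, lintegral_const, measure_univ, mul_one,
    lintegral_indicator measurableSet_Icc]
  refine ENNReal.add_lt_top.2 ⟨ENNReal.one_lt_top, lt_of_le_of_lt ?_ (lint_abs_rpow hp)⟩
  exact lintegral_mono' (Measure.restrict_mono subset_rfl gauss_le) le_rfl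

/-- the Gaussian average of the squared Fourier transform -/
theorem gauss_avg (μ : Measure ℝ) [IsFiniteMeasure μ] (r : ℝ) (hr : 0 < r) :
    ENNReal.ofReal (Real.exp (-(1 / 2))) * ∫⁻ x, μ (Metric.closedBall x r) ∂μ ≤
      ∫⁻ t, ENNReal.ofReal (‖charFun μ (t / r)‖ ^ 2) ∂(gaussianReal 0 1) := by
  set ρ : Measure ℝ := μ.map (fun x => -x) with hρ
  have _ : IsFiniteMeasure ρ := by rw [hρ]; infer_instance
  set ν : Measure ℝ := μ ∗ ρ with hν
  have _ : IsFiniteMeasure ν := by rw [hν]; infer_instance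
  have hcρ : ∀ t, charFun ρ t = (starRingEnd ℂ) (charFun μ t) := by
    intro t
    rw [← charFun_neg, hρ]
    have h := charFun_map_mul (μ := μ) (-1) t
    have h2 : (fun x : ℝ => -1 * x) = fun x => -x := by
      ext x
      ring
    rw [show ((-1 : ℝ) * ·) = fun x : ℝ => -x from h2] at h
    rw [h]
    congr 1
    ring
  have hcν : ∀ t, charFun ν t = ((‖charFun μ t‖ ^ 2 : ℝ) : ℂ) := by
    intro t
    rw [hν, charFun_conv, hcρ, Complex.mul_conj, Complex.normSq_eq_norm_sq]
  -- mass
  have hmass : ν (Metric.closedBall 0 r) = ∫⁻ x, μ (Metric.closedBall x r) ∂μ := by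
    rw [← lintegral_indicator_one Metric.isClosed_closedBall.measurableSet, hν,
      Measure.lintegral_conv (measurable_one.indicator Metric.isClosed_closedBall.measurableSet)]
    refine lintegral_congr fun x => ?_
    rw [hρ, lintegral_map _ measurable_neg]
    · rw [← lintegral_indicator_one Metric.isClosed_closedBall.measurableSet]
      refine lintegral_congr fun y => ?_
      simp only [indicator, Metric.mem_closedBall, Real.dist_eq, sub_zero, Pi.one_apply]
      have : |x + -y| = |y - x| := by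
        rw [← abs_neg]
        congr 1
        ring
      rw [this]
    · exact (measurable_one.indicator Metric.isClosed_closedBall.measurableSet).comp (measurable_const_add x)
  -- Fubini
  have hfub : ∫ t, charFun ν (t / r) ∂(gaussianReal 0 1) = ∫ z, ((Real.exp (-(z / r) ^ 2 / 2) : ℝ) : ℂ) ∂ν := by
    have h1 : ∀ t : ℝ, charFun ν (t / r) = ∫ z, Complex.exp (((t * (z / r) : ℝ) : ℂ) * Complex.I) ∂ν := by
      intro t
      rw [charFun_apply_real]
      refine integral_congr_ae (Eventually.of_forall fun z => ?_)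
      simp only
      congr 1
      push_cast
      ring
    have h2 : ∀ z : ℝ, ∫ t, Complex.exp (((t * (z / r) : ℝ) : ℂ) * Complex.I) ∂(gaussianReal 0 1) = ((Real.exp (-(z / r) ^ 2 / 2) : ℝ) : ℂ) := by
      intro z
      have h3 := charFun_gaussianReal (μ := 0) (v := 1) (z / r)
      rw [charFun_apply_real] at h3
      have h4 : ∫ t, Complex.exp (((t * (z / r) : ℝ) : ℂ) * Complex.I) ∂(gaussianReal 0 1) =
          ∫ t : ℝ, Complex.exp (((z / r : ℝ) : ℂ) * (t : ℂ) * Complex.I) ∂(gaussianReal 0 1) := by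
        refine integral_congr_ae (Eventually.of_forall fun t => ?_)
        simp only
        congr 1
        push_cast
        ring
      rw [h4, h3]
      push_cast
      congr 1
      ring
    simp_rw [h1]
    rw [integral_integral_swap]
    · exact integral_congr_ae (Eventually.of_forall fun z => h2 z)
    · refine Integrable.mono' (g := fun _ => (1 : ℝ)) (integrable_const _) ?_ ?_
      · apply Continuous.aestronglyMeasurable
        fun_prop
      · refine Eventually.of_forall fun p => ?_
        simp only [Function.uncurry]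
        rw [Complex.norm_exp_ofReal_mul_I]
  -- real form
  have hint1 : Integrable (fun z : ℝ => Real.exp (-(z / r) ^ 2 / 2)) ν := by
    refine Integrable.mono' (g := fun _ => (1 : ℝ)) (integrable_const _) (by fun_prop) ?_
    refine Eventually.of_forall fun z => ?_
    rw [Real.norm_eq_abs, abs_of_pos (Real.exp_pos _), Real.exp_le_one_iff]
    have : 0 ≤ (z / r) ^ 2 := sq_nonneg _
    linarith
  have hint2 : Integrable (fun t : ℝ => ‖charFun μ (t / r)‖ ^ 2) (gaussianReal 0 1) := by
    refine Integrable.mono' (g := fun _ => (μ.real univ) ^ 2) (integrable_const _) ?_ ?_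
    · apply Continuous.aestronglyMeasurable
      have := continuous_charFun (μ := μ)
      fun_prop
    · refine Eventually.of_forall fun t => ?_
      rw [Real.norm_eq_abs, abs_of_nonneg (by positivity)]
      have := norm_charFun_le (μ := μ) (t / r)
      gcongr
  have hreal : ∫ t, ‖charFun μ (t / r)‖ ^ 2 ∂(gaussianReal 0 1) = ∫ z, Real.exp (-(z / r) ^ 2 / 2) ∂ν := by
    simp_rw [hcν] at hfub
    rw [integral_complex_ofReal, integral_complex_ofReal] at hfub
    exact_mod_cast hfub
  rw [← ofReal_integral_eq_lintegral_ofReal hint2 (Eventually.of_forall fun _ => by positivity), hreal,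
    ofReal_integral_eq_lintegral_ofReal hint1 (Eventually.of_forall fun _ => (Real.exp_pos _).le), ← hmass]
  -- Markov
  have h5 : ENNReal.ofReal (Real.exp (-(1 / 2))) * ν (Metric.closedBall 0 r) =
      ∫⁻ z in Metric.closedBall 0 r, ENNReal.ofReal (Real.exp (-(1 / 2))) ∂ν := by
    rw [setLIntegral_const]
  rw [h5]
  refine (setLIntegral_mono' Metric.isClosed_closedBall.measurableSet fun z hz => ?_).trans (setLIntegral_le_lintegral _ _)
  apply ENNReal.ofReal_le_ofReal
  apply Real.exp_le_exp.2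
  rw [Metric.mem_closedBall, Real.dist_eq, sub_zero] at hz
  have h6 : (z / r) ^ 2 ≤ 1 := by
    rw [div_pow, div_le_one (by positivity), ← sq_abs z]
    exact pow_le_pow_left₀ (abs_nonneg _) hz 2
  linarith

end Pool.Agent.Helper82.FK
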