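import Pool.Agent.Helper82.FK.DimExp
import Pool.Agent.Helper82.FK.Weyl

/-!
# The exceptional set of Koksma's theorem is a countable union of sets of dimension less than one
-/

set_option autoImplicit false

namespace Pool.Agent.Helper82.FK

open MeasureTheory Set Filter Topology Finset Polynomial

/-- a set of bounded exponential sums -/
def Big (P : ℝ[X]) (s : ℕ → ℕ) (c : ℕ → ℝ) (δ a b : ℝ) : Set ℝ :=
  {x | x ∈ Icc a b ∧ ∃ᶠ N : ℕ in atTop, δ * N ≤ ‖∑ k ∈ range N, e (P.eval x * x ^ s k + c k)‖}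

theorem dimH_Big_lt {a b : ℝ} (ha : 1 < a) (hab : a < b) {P : ℝ[X]} (hP : ∀ x ∈ Icc a b, P.eval x ≠ 0) {s : ℕ → ℕ}
    (hs : StrictMono s) {A : ℝ} (hsA : ∀ k, (s k : ℝ) ≤ A * (k + 1)) (c : ℕ → ℝ) {δ : ℝ} (hδ : 0 < δ) (hδ1 : δ ≤ 1) :
    dimH (Big P s c δ a b) < 1 := by
  obtain ⟨κ, hκ, h⟩ := dim_large ha
  have h1 := h b hab P hP s hs (max A 1) (le_max_right _ _) (fun k => (hsA k).trans (by gcongr; exact le_max_left _ _)) c δ hδ hδ1
  refine lt_of_le_of_lt h1 ?_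
  rw [ENNReal.ofReal_lt_one]
  have h2 : 0 < Real.log b := Real.log_pos (ha.trans hab)
  have h3 : 0 < max A 1 := lt_of_lt_of_le one_pos (le_max_right _ _)
  have h4 : 0 < κ * δ ^ 2 / (max A 1 * Real.log b) := by positivity
  linarith

theorem exc_cover {P : ℝ[X]} (hP : P ≠ 0) {s : ℕ → ℕ} (hs : StrictMono s) {A : ℝ}
    (hsA : ∀ k, (s k : ℝ) ≤ A * (k + 1)) (c : ℕ → ℝ) :
    ∃ E : ℕ → Set ℝ, (∀ j, dimH (E j) < 1) ∧
      {x | 1 < x ∧ ¬ Equi (fun k => P.eval x * x ^ s k + c k)} ⊆ ⋃ j, E j := by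
  classical
  -- the countable family
  set ι := ℚ × ℚ × ℕ × ℕ with hι
  obtain ⟨f, hf⟩ := exists_surjective_nat ι
  set good : ι → Prop := fun i => (1 : ℝ) < i.1 ∧ (i.1 : ℝ) < i.2.1 ∧ (∀ x ∈ Icc (i.1 : ℝ) i.2.1, P.eval x ≠ 0) ∧ 1 ≤ i.2.2.1 with hgood
  set B : ι → Set ℝ := fun i => if good i then Big (Polynomial.C (i.2.2.1 : ℝ) * P) s (fun k => i.2.2.1 * c k) (1 / (i.2.2.2 + 1)) i.1 i.2.1 else ∅ with hB
  set E : ℕ → Set ℝ := fun j => B (f j) ∪ {x | P.IsRoot x} with hE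
  have hfin : {x | P.IsRoot x}.Finite := Polynomial.finite_setOf_isRoot hP
  refine ⟨E, fun j => ?_, ?_⟩
  · rw [hE]
    simp only
    rw [dimH_union, max_lt_iff]
    refine ⟨?_, ?_⟩
    · rw [hB]
      simp only
      split_ifs with h
      · obtain ⟨h1, h2, h3, h4⟩ := h
        refine dimH_Big_lt h1 h2 (fun x hx => ?_) hs hsA _ (by positivity) ?_
        · rw [Polynomial.eval_mul, Polynomial.eval_C]
          have : (0 : ℝ) < ((f j).2.2.1 : ℕ) := by exact_mod_cast h4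
          exact mul_ne_zero this.ne' (h3 x hx)
        · rw [div_le_one (by positivity)]
          linarith [(Nat.cast_nonneg (f j).2.2.2 : (0 : ℝ) ≤ _)]
      · simp
    · rw [hfin.dimH_zero]
      exact one_pos
  · rintro x ⟨hx1, hx⟩
    by_cases hroot : P.eval x = 0
    · exact mem_iUnion.2 ⟨0, Or.inr hroot⟩
    -- a rational interval
    have hopen : IsOpen {y : ℝ | P.eval y ≠ 0 ∧ 1 < y} :=
      (isOpen_ne.preimage P.continuous).inter (isOpen_lt continuous_const continuous_id)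
    obtain ⟨ε, hε, hball⟩ := Metric.isOpen_iff.1 hopen x ⟨hroot, hx1⟩
    obtain ⟨p, hp1, hp2⟩ := exists_rat_btwn (show x - ε < x by linarith)
    obtain ⟨q, hq1, hq2⟩ := exists_rat_btwn (show x < x + ε by linarith)
    have hsub : ∀ y ∈ Icc (p : ℝ) q, P.eval y ≠ 0 ∧ 1 < y := fun y hy => hball (by
      rw [Metric.mem_ball, Real.dist_eq, abs_lt]
      constructor <;> linarith [hy.1, hy.2])
    -- failure of Weyl's criterion
    have hw : ¬ ∀ h : ℕ, 1 ≤ h → ∀ δ : ℝ, 0 < δ → ∀ᶠ N : ℕ in atTop,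
        ‖∑ n ∈ range N, e (h * (P.eval x * x ^ s n + c n))‖ ≤ δ * N := fun h => hx (equi_of_weyl _ h)
    push Not at hw
    obtain ⟨h, hh, δ, hδ, hfr⟩ := hw
    obtain ⟨m, hm⟩ := exists_nat_one_div_lt hδ
    obtain ⟨j, hj⟩ := hf (p, q, h, m)
    refine mem_iUnion.2 ⟨j, Or.inl ?_⟩
    rw [hB]
    simp only
    rw [hj]
    have hgj : good (p, q, h, m) := by
      refine ⟨(hsub p ⟨le_rfl, by linarith⟩).2, ?_, fun y hy => (hsub y hy).1, hh⟩
      show (p : ℝ) < q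
      linarith
    rw [if_pos hgj]
    refine ⟨⟨hp2.le, hq1.le⟩, ?_⟩
    refine hfr.mono fun N hN => ?_
    have h1 : ∑ k ∈ range N, e ((Polynomial.C ((h : ℕ) : ℝ) * P).eval x * x ^ s k + (h : ℕ) * c k) =
        ∑ n ∈ range N, e (h * (P.eval x * x ^ s n + c n)) := by
      refine sum_congr rfl fun k _ => ?_
      congr 1
      rw [Polynomial.eval_mul, Polynomial.eval_C]
      ring
    show 1 / ((m : ℝ) + 1) * N ≤ ‖∑ k ∈ range N, e ((Polynomial.C ((h : ℕ) : ℝ) * P).eval x * x ^ s k + (h : ℕ) * c k)‖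
    rw [h1]
    have h2 : 1 / ((m : ℝ) + 1) * N ≤ δ * N := by gcongr
    exact h2.trans hN.le

/-- the almost sure form, for every measure that gives no mass to sets of dimension less than one -/
theorem ae_equi {μ : Measure ℝ} (hμ : ∀ E : Set ℝ, dimH E < 1 → μ E = 0) {P : ℝ[X]} (hP : P ≠ 0) {s : ℕ → ℕ}
    (hs : StrictMono s) {A : ℝ} (hsA : ∀ k, (s k : ℝ) ≤ A * (k + 1)) (c : ℕ → ℝ) :
    ∀ᵐ x ∂μ, 1 < x → Equi (fun k => P.eval x * x ^ s k + c k) := by
  obtain ⟨E, hE, hsub⟩ := exc_cover hP hs hsA c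
  rw [ae_iff]
  refine measure_mono_null (t := ⋃ j, E j) ?_ (measure_iUnion_null fun j => hμ _ (hE j))
  intro x hx
  apply hsub
  simp only [mem_setOf_eq, Classical.not_imp] at hx
  exact hx

end Pool.Agent.Helper82.FK
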