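import Pool.Agent.Helper82.FK.Dom

/-!
# Large deviations for lacunary phases, by Riesz products
-/

set_option autoImplicit false

namespace Pool.Agent.Helper82.FK

open MeasureTheory Set Polynomial Finset

theorem e_re (y : ℝ) : (e y).re = Real.cos (2 * Real.pi * y) := by
  unfold e
  rw [Complex.exp_ofReal_mul_I_re]

theorem e_im (y : ℝ) : (e y).im = Real.sin (2 * Real.pi * y) := by
  unfold e
  rw [Complex.exp_ofReal_mul_I_im]

theorem cos_eq (y : ℝ) : ((Real.cos (2 * Real.pi * y) : ℝ) : ℂ) = (e y + e (-y)) / 2 := by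
  unfold e
  rw [Complex.ofReal_cos, Complex.cos]
  congr 2
  push_cast
  ring_nf

/-- the Riesz product -/
noncomputable def rp (ρ : ℝ) (g : ℕ → ℝ → ℝ) (φ : ℕ → ℝ) (J : ℕ) (x : ℝ) : ℝ :=
  ∏ i ∈ range J, (1 + ρ * Real.cos (2 * Real.pi * (g i x - φ i)))

theorem rp_succ (ρ : ℝ) (g : ℕ → ℝ → ℝ) (φ : ℕ → ℝ) (J : ℕ) (x : ℝ) :
    rp ρ g φ (J + 1) x = rp ρ g φ J x * (1 + ρ * Real.cos (2 * Real.pi * (g J x - φ J))) := by
  unfold rp
  rw [prod_range_succ]

theorem continuousOn_rp {ρ : ℝ} {g : ℕ → ℝ → ℝ} {φ : ℕ → ℝ} {s : Set ℝ} (hg : ∀ i, ContinuousOn (g i) s) (J : ℕ) :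
    ContinuousOn (rp ρ g φ J) s := by
  unfold rp
  refine continuousOn_finsetProd _ fun i _ => ?_
  have := hg i
  fun_prop

theorem rp_pos {ρ : ℝ} (h0 : 0 ≤ ρ) (h1 : ρ < 1) (g : ℕ → ℝ → ℝ) (φ : ℕ → ℝ) (J : ℕ) (x : ℝ) : 0 < rp ρ g φ J x := by
  unfold rp
  refine prod_pos fun i _ => ?_
  have := Real.neg_one_le_cos (2 * Real.pi * (g i x - φ i))
  nlinarith

section
variable {a b : ℝ} {g : ℕ → ℝ → ℝ} {B : ℕ → ℝ}

theorem rp_osc (hab : a ≤ b) (hg : ∀ i, ContinuousOn (g i) (Icc a b))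
    (hB : ∀ (J : ℕ) (σ : ℕ → ℝ), (∀ i, |σ i| ≤ 1) → |σ J| = 1 → ∀ c : ℝ,
      ‖∫ x in a..b, e (∑ i ∈ range (J + 1), σ i * g i x + c)‖ ≤ B J)
    {ρ : ℝ} (hρ : 0 ≤ ρ) (φ : ℕ → ℝ) (J : ℕ) (j : ℕ) (hj : j ≤ J) :
    ∀ σ : ℕ → ℝ, (∀ i, |σ i| ≤ 1) → |σ J| = 1 → (∀ i < j, σ i = 0) → ∀ c : ℝ,
      ‖∫ x in a..b, ((rp ρ g φ j x : ℝ) : ℂ) * e (∑ i ∈ range (J + 1), σ i * g i x + c)‖ ≤ (1 + ρ) ^ j * B J := by
  induction j with
  | zero =>
    intro σ h1 h2 _ c
    simpa [rp] using hB J σ h1 h2 c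
  | succ j ih =>
    intro σ h1 h2 h3 c
    have hjJ : j < J := hj
    have hu : uIcc a b = Icc a b := uIcc_of_le hab
    have hint : ∀ (τ : ℕ → ℝ) (c : ℝ), IntervalIntegrable
        (fun x => ((rp ρ g φ j x : ℝ) : ℂ) * e (∑ i ∈ range (J + 1), τ i * g i x + c)) volume a b := by
      intro τ c
      apply ContinuousOn.intervalIntegrable
      rw [hu]
      refine ContinuousOn.mul (Complex.continuous_ofReal.comp_continuousOn (continuousOn_rp hg j)) ?_
      refine continuous_e.comp_continuousOn ?_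
      refine ContinuousOn.add (continuousOn_finsetSum _ fun i _ => continuousOn_const.mul (hg i)) continuousOn_const
    -- the three phases
    have hupd : ∀ (s : ℝ) (x : ℝ), ∑ i ∈ range (J + 1), Function.update σ j s i * g i x =
        ∑ i ∈ range (J + 1), σ i * g i x + s * g j x := by
      intro s x
      have hjm : j ∈ range (J + 1) := by rw [Finset.mem_range]; omega
      rw [← Finset.add_sum_erase _ _ hjm, ← Finset.add_sum_erase (range (J + 1)) (fun i => σ i * g i x) hjm]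
      rw [Function.update_self, h3 j (Nat.lt_succ_self j), zero_mul, zero_add, add_comm]
      congr 1
      refine Finset.sum_congr rfl fun i hi => ?_
      rw [Function.update_of_ne (Finset.ne_of_mem_erase hi)]
    have hsplit : ∀ x, ((rp ρ g φ (j + 1) x : ℝ) : ℂ) * e (∑ i ∈ range (J + 1), σ i * g i x + c) =
        ((rp ρ g φ j x : ℝ) : ℂ) * e (∑ i ∈ range (J + 1), σ i * g i x + c) +
        ((ρ / 2 : ℝ) : ℂ) * (((rp ρ g φ j x : ℝ) : ℂ) * e (∑ i ∈ range (J + 1), Function.update σ j 1 i * g i x + (c - φ j))) +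
        ((ρ / 2 : ℝ) : ℂ) * (((rp ρ g φ j x : ℝ) : ℂ) * e (∑ i ∈ range (J + 1), Function.update σ j (-1) i * g i x + (c + φ j))) := by
      intro x
      rw [hupd 1 x, hupd (-1) x, rp_succ]
      have e1 : e (∑ i ∈ range (J + 1), σ i * g i x + 1 * g j x + (c - φ j)) =
          e (∑ i ∈ range (J + 1), σ i * g i x + c) * e (g j x - φ j) := by
        rw [← e_add]
        congr 1
        ring
      have e2 : e (∑ i ∈ range (J + 1), σ i * g i x + -1 * g j x + (c + φ j)) =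
          e (∑ i ∈ range (J + 1), σ i * g i x + c) * e (-(g j x - φ j)) := by
        rw [← e_add]
        congr 1
        ring
      rw [e1, e2]
      push_cast
      have h5 := cos_eq (g j x - φ j)
      push_cast at h5
      rw [h5]
      ring
    have hJne : J ≠ j := by omega
    have hσ1 : ∀ s : ℝ, |s| ≤ 1 → (∀ i, |Function.update σ j s i| ≤ 1) := by
      intro s hs i
      by_cases hi : i = j
      · subst hi
        rwa [Function.update_self]
      · rw [Function.update_of_ne hi]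
        exact h1 i
    have hσ2 : ∀ s : ℝ, |Function.update σ j s J| = 1 := by
      intro s
      rw [Function.update_of_ne hJne]
      exact h2
    have hσ3 : ∀ s : ℝ, ∀ i < j, Function.update σ j s i = 0 := by
      intro s i hi
      rw [Function.update_of_ne (by omega)]
      exact h3 i (by omega)
    have i0 := ih hjJ.le σ h1 h2 (fun i hi => h3 i (by omega)) c
    have i1 := ih hjJ.le (Function.update σ j 1) (hσ1 1 (by simp)) (hσ2 1) (hσ3 1) (c - φ j)
    have i2 := ih hjJ.le (Function.update σ j (-1)) (hσ1 (-1) (by simp)) (hσ2 (-1)) (hσ3 (-1)) (c + φ j)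
    have hI : ∫ x in a..b, ((rp ρ g φ (j + 1) x : ℝ) : ℂ) * e (∑ i ∈ range (J + 1), σ i * g i x + c) =
        (∫ x in a..b, ((rp ρ g φ j x : ℝ) : ℂ) * e (∑ i ∈ range (J + 1), σ i * g i x + c)) +
        ((ρ / 2 : ℝ) : ℂ) * (∫ x in a..b, ((rp ρ g φ j x : ℝ) : ℂ) * e (∑ i ∈ range (J + 1), Function.update σ j 1 i * g i x + (c - φ j))) +
        ((ρ / 2 : ℝ) : ℂ) * (∫ x in a..b, ((rp ρ g φ j x : ℝ) : ℂ) * e (∑ i ∈ range (J + 1), Function.update σ j (-1) i * g i x + (c + φ j))) := by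
      simp_rw [hsplit]
      rw [intervalIntegral.integral_add ((hint _ _).add ((hint _ _).const_mul _)) ((hint _ _).const_mul _),
        intervalIntegral.integral_add (hint _ _) ((hint _ _).const_mul _),
        intervalIntegral.integral_const_mul, intervalIntegral.integral_const_mul]
    rw [hI]
    refine (norm_add_le _ _).trans ((add_le_add (norm_add_le _ _) le_rfl).trans ?_)
    rw [norm_mul, norm_mul, Complex.norm_real, Real.norm_eq_abs, abs_of_nonneg (by positivity : 0 ≤ ρ / 2), pow_succ]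
    have h6 : ρ / 2 * ‖∫ x in a..b, ((rp ρ g φ j x : ℝ) : ℂ) * e (∑ i ∈ range (J + 1), Function.update σ j 1 i * g i x + (c - φ j))‖ ≤
        ρ / 2 * ((1 + ρ) ^ j * B J) := mul_le_mul_of_nonneg_left i1 (by positivity)
    have h7 : ρ / 2 * ‖∫ x in a..b, ((rp ρ g φ j x : ℝ) : ℂ) * e (∑ i ∈ range (J + 1), Function.update σ j (-1) i * g i x + (c + φ j))‖ ≤
        ρ / 2 * ((1 + ρ) ^ j * B J) := mul_le_mul_of_nonneg_left i2 (by positivity)
    nlinarith

theorem rp_cos (hab : a ≤ b) (hg : ∀ i, ContinuousOn (g i) (Icc a b))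
    (hB : ∀ (J : ℕ) (σ : ℕ → ℝ), (∀ i, |σ i| ≤ 1) → |σ J| = 1 → ∀ c : ℝ,
      ‖∫ x in a..b, e (∑ i ∈ range (J + 1), σ i * g i x + c)‖ ≤ B J)
    {ρ : ℝ} (hρ : 0 ≤ ρ) (φ : ℕ → ℝ) (J : ℕ) :
    |∫ x in a..b, rp ρ g φ J x * Real.cos (2 * Real.pi * (g J x - φ J))| ≤ (1 + ρ) ^ J * B J := by
  have hu : uIcc a b = Icc a b := uIcc_of_le hab
  have h := rp_osc hab hg hB hρ φ J J le_rfl (fun i => if i = J then 1 else 0)
    (fun i => by split_ifs <;> simp) (by simp) (fun i hi => by simp [hi.ne]) (-φ J)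
  have h1 : ∀ x, ∑ i ∈ range (J + 1), (if i = J then (1 : ℝ) else 0) * g i x + -φ J = g J x - φ J := by
    intro x
    simp
    ring
  simp_rw [h1] at h
  have hint : IntervalIntegrable (fun x => ((rp ρ g φ J x : ℝ) : ℂ) * e (g J x - φ J)) volume a b := by
    apply ContinuousOn.intervalIntegrable
    rw [hu]
    refine ContinuousOn.mul (Complex.continuous_ofReal.comp_continuousOn (continuousOn_rp hg J)) ?_
    exact continuous_e.comp_continuousOn ((hg J).sub continuousOn_const)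
  have h2 : ∫ x in a..b, rp ρ g φ J x * Real.cos (2 * Real.pi * (g J x - φ J)) =
      (∫ x in a..b, ((rp ρ g φ J x : ℝ) : ℂ) * e (g J x - φ J)).re := by
    have h3 := intervalIntegral.intervalIntegral_eq_integral_uIoc
      (fun x => ((rp ρ g φ J x : ℝ) : ℂ) * e (g J x - φ J)) a b volume
    have h4 := Complex.reCLM.intervalIntegral_comp_comm hint
    rw [← Complex.reCLM_apply, ← h4]
    apply intervalIntegral.integral_congr
    intro x _
    show _ = (((rp ρ g φ J x : ℝ) : ℂ) * e (g J x - φ J)).re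
    rw [Complex.re_ofReal_mul, e_re]
  rw [h2]
  exact (Complex.abs_re_le_norm _).trans h

theorem rp_integral (hab : a ≤ b) (hg : ∀ i, ContinuousOn (g i) (Icc a b))
    (hB : ∀ (J : ℕ) (σ : ℕ → ℝ), (∀ i, |σ i| ≤ 1) → |σ J| = 1 → ∀ c : ℝ,
      ‖∫ x in a..b, e (∑ i ∈ range (J + 1), σ i * g i x + c)‖ ≤ B J)
    {ρ : ℝ} (hρ : 0 ≤ ρ) (φ : ℕ → ℝ) (J : ℕ) :
    ∫ x in a..b, rp ρ g φ J x ≤ (b - a) + ∑ j ∈ range J, ρ * ((1 + ρ) ^ j * B j) := by
  have hu : uIcc a b = Icc a b := uIcc_of_le hab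
  induction J with
  | zero => simp [rp]
  | succ J ih =>
    have hc1 : ContinuousOn (rp ρ g φ J) (uIcc a b) := by
      rw [hu]
      exact continuousOn_rp hg J
    have hc2 : ContinuousOn (fun x => rp ρ g φ J x * Real.cos (2 * Real.pi * (g J x - φ J))) (uIcc a b) := by
      refine hc1.mul ?_
      rw [hu]
      have := hg J
      fun_prop
    have h1 : ∫ x in a..b, rp ρ g φ (J + 1) x = (∫ x in a..b, rp ρ g φ J x) +
        ρ * ∫ x in a..b, rp ρ g φ J x * Real.cos (2 * Real.pi * (g J x - φ J)) := by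
      rw [← intervalIntegral.integral_const_mul, ← intervalIntegral.integral_add hc1.intervalIntegrable
        (hc2.intervalIntegrable.const_mul _)]
      apply intervalIntegral.integral_congr
      intro x _
      show rp ρ g φ (J + 1) x = _
      rw [rp_succ]
      ring
    rw [h1, sum_range_succ]
    have h2 := (le_abs_self _).trans (rp_cos hab hg hB hρ φ J)
    have h3 := mul_le_mul_of_nonneg_left h2 hρ
    linarith

/-- exponential Markov inequality -/
theorem rp_markov (hab : a ≤ b) (hg : ∀ i, ContinuousOn (g i) (Icc a b))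
    (hB : ∀ (J : ℕ) (σ : ℕ → ℝ), (∀ i, |σ i| ≤ 1) → |σ J| = 1 → ∀ c : ℝ,
      ‖∫ x in a..b, e (∑ i ∈ range (J + 1), σ i * g i x + c)‖ ≤ B J) {A : ℝ}
    (hA : ∀ J, ∑ j ∈ range J, 2 ^ j * B j ≤ A) (hB0 : ∀ j, 0 ≤ B j)
    (φ : ℕ → ℝ) (J : ℕ) {δ : ℝ} (hδ : 0 < δ) (hδ1 : δ ≤ 1) :
    volume {x ∈ Icc a b | δ * J ≤ ∑ i ∈ range J, Real.cos (2 * Real.pi * (g i x - φ i))} ≤
      ENNReal.ofReal ((b - a + A) * Real.exp (-(δ ^ 2 * J / 8))) := by
  set ρ : ℝ := δ / 4 with hρ_def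
  have hρ0 : 0 < ρ := by positivity
  have hρ1 : ρ ≤ 1 / 4 := by rw [hρ_def]; linarith
  have hint : ∫ x in a..b, rp ρ g φ J x ≤ b - a + A := by
    refine (rp_integral hab hg hB hρ0.le φ J).trans ?_
    have h1 : ∑ j ∈ range J, ρ * ((1 + ρ) ^ j * B j) ≤ ∑ j ∈ range J, 2 ^ j * B j := by
      refine Finset.sum_le_sum fun j _ => ?_
      have h2 : (1 + ρ) ^ j ≤ 2 ^ j := pow_le_pow_left₀ (by linarith) (by linarith) j
      have h3 : (1 + ρ) ^ j * B j ≤ 2 ^ j * B j := mul_le_mul_of_nonneg_right h2 (hB0 j)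
      have h4 : 0 ≤ (1 + ρ) ^ j * B j := mul_nonneg (by positivity) (hB0 j)
      nlinarith
    linarith [hA J]
  set E : Set ℝ := {x ∈ Icc a b | δ * J ≤ ∑ i ∈ range J, Real.cos (2 * Real.pi * (g i x - φ i))} with hE
  have hsub : E ⊆ {x ∈ Icc a b | Real.exp (δ ^ 2 * J / 8) ≤ rp ρ g φ J x} := by
    rintro x ⟨hx, h1⟩
    refine ⟨hx, ?_⟩
    have h2 : ∀ i ∈ range J, Real.exp (ρ * Real.cos (2 * Real.pi * (g i x - φ i)) - 2 * ρ ^ 2) ≤
        1 + ρ * Real.cos (2 * Real.pi * (g i x - φ i)) := by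
      intro i _
      set y := Real.cos (2 * Real.pi * (g i x - φ i)) with hy
      have hy1 : -1 ≤ y := Real.neg_one_le_cos _
      have hy2 : y ≤ 1 := Real.cos_le_one _
      have h3 : -(1 / 4) ≤ ρ * y := by nlinarith
      have hpos : 0 < 1 + ρ * y := by linarith
      rw [← Real.le_log_iff_exp_le hpos]
      have h4 := Real.one_sub_inv_le_log_of_pos hpos
      refine le_trans ?_ h4
      have h5 : 1 - (1 + ρ * y)⁻¹ = ρ * y - (ρ * y) ^ 2 / (1 + ρ * y) := by
        field_simp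
        ring
      rw [h5]
      have h6 : (ρ * y) ^ 2 / (1 + ρ * y) ≤ 2 * ρ ^ 2 := by
        rw [div_le_iff₀ hpos]
        have h7 : (ρ * y) ^ 2 ≤ ρ ^ 2 := by
          rw [mul_pow]
          have : y ^ 2 ≤ 1 := by nlinarith
          nlinarith [sq_nonneg ρ]
        nlinarith [sq_nonneg ρ]
      linarith
    have h3 : Real.exp (∑ i ∈ range J, (ρ * Real.cos (2 * Real.pi * (g i x - φ i)) - 2 * ρ ^ 2)) ≤ rp ρ g φ J x := by
      rw [Real.exp_sum]
      exact Finset.prod_le_prod (fun i _ => (Real.exp_pos _).le) h2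
    refine le_trans ?_ h3
    apply Real.exp_le_exp.2
    rw [Finset.sum_sub_distrib, ← Finset.mul_sum, Finset.sum_const, card_range, nsmul_eq_mul]
    have h4 := mul_le_mul_of_nonneg_left h1 hρ0.le
    have h5 : δ ^ 2 * J / 8 = ρ * (δ * J) - J * (2 * ρ ^ 2) := by
      rw [hρ_def]
      ring
    rw [h5]
    linarith
  refine (measure_mono hsub).trans ?_
  -- Markov
  have hc1 : ContinuousOn (rp ρ g φ J) (Icc a b) := continuousOn_rp hg J
  have hI1 : IntegrableOn (rp ρ g φ J) (Icc a b) volume := hc1.integrableOn_Icc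
  have hlin : ∫⁻ x in Icc a b, ENNReal.ofReal (rp ρ g φ J x) ≤ ENNReal.ofReal (b - a + A) := by
    rw [← ofReal_integral_eq_lintegral_ofReal hI1 (Filter.Eventually.of_forall fun x =>
      (rp_pos hρ0.le (by linarith) g φ J x).le)]
    apply ENNReal.ofReal_le_ofReal
    rw [integral_Icc_eq_integral_Ioc, ← intervalIntegral.integral_of_le hab]
    exact hint
  have hmk : ENNReal.ofReal (Real.exp (δ ^ 2 * J / 8)) *
      (volume.restrict (Icc a b)) {x | ENNReal.ofReal (Real.exp (δ ^ 2 * J / 8)) ≤ ENNReal.ofReal (rp ρ g φ J x)} ≤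
      ∫⁻ x in Icc a b, ENNReal.ofReal (rp ρ g φ J x) := by
    apply mul_meas_ge_le_lintegral₀
    exact (hc1.aemeasurable measurableSet_Icc).ennreal_ofReal
  have hset : volume {x ∈ Icc a b | Real.exp (δ ^ 2 * J / 8) ≤ rp ρ g φ J x} ≤
      (volume.restrict (Icc a b)) {x | ENNReal.ofReal (Real.exp (δ ^ 2 * J / 8)) ≤ ENNReal.ofReal (rp ρ g φ J x)} := by
    rw [Measure.restrict_apply' measurableSet_Icc]
    apply measure_mono
    rintro x ⟨hx, h1⟩
    exact ⟨ENNReal.ofReal_le_ofReal h1, hx⟩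
  refine hset.trans ?_
  have hpos : 0 < Real.exp (δ ^ 2 * J / 8) := Real.exp_pos _
  have h1 := hmk.trans hlin
  rw [mul_comm, ← ENNReal.le_div_iff_mul_le (Or.inl (by simpa using hpos)) (Or.inl ENNReal.ofReal_ne_top)] at h1
  refine h1.trans ?_
  rw [← ENNReal.ofReal_div_of_pos hpos, Real.exp_neg, div_eq_mul_inv]

end

end Pool.Agent.Helper82.FK
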