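import Pool.Agent.Helper82.FK.Ld

/-!
# Large deviations for the exponential sums of `P(x) x^(s k) + c k`
-/

set_option autoImplicit false

namespace Pool.Agent.Helper82.FK

open MeasureTheory Set Polynomial Finset

theorem sum_blocks (f : ℕ → ℂ) (L J : ℕ) :
    ∑ k ∈ range (L * J), f k = ∑ r ∈ range L, ∑ i ∈ range J, f (L * i + r) := by
  induction J with
  | zero => simp
  | succ J ih =>
    rw [Nat.mul_succ, sum_range_add, ih, ← sum_add_distrib]
    exact sum_congr rfl fun r _ => by rw [sum_range_succ]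

theorem cos_phase (y : ℝ) : Real.cos (2 * Real.pi * (y - 1 / 4)) = (e y).im ∧
    Real.cos (2 * Real.pi * (y - 1 / 2)) = -(e y).re ∧ Real.cos (2 * Real.pi * (y - 3 / 4)) = -(e y).im := by
  rw [e_re, e_im]
  refine ⟨?_, ?_, ?_⟩
  · rw [← Real.cos_sub_pi_div_two]
    congr 1
    ring
  · rw [← Real.cos_sub_pi]
    congr 1
    ring
  · rw [← Real.cos_add_pi_div_two, ← Real.cos_add_two_pi (2 * Real.pi * (y - 3 / 4))]
    congr 1
    ring

/-- one of the four phases sees half of the modulus -/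
theorem exists_phase (y : ℕ → ℝ) (J : ℕ) : ∃ q ∈ range 4,
    ‖∑ i ∈ range J, e (y i)‖ / 2 ≤ ∑ i ∈ range J, Real.cos (2 * Real.pi * (y i - (q : ℝ) / 4)) := by
  set z := ∑ i ∈ range J, e (y i) with hz
  have h0 : ∑ i ∈ range J, Real.cos (2 * Real.pi * (y i - ((0 : ℕ) : ℝ) / 4)) = z.re := by
    rw [hz, Complex.re_sum]
    exact sum_congr rfl fun i _ => by rw [e_re]; simp
  have h1 : ∑ i ∈ range J, Real.cos (2 * Real.pi * (y i - ((1 : ℕ) : ℝ) / 4)) = z.im := by
    rw [hz, Complex.im_sum]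
    exact sum_congr rfl fun i _ => by rw [← (cos_phase (y i)).1]; norm_num
  have h2 : ∑ i ∈ range J, Real.cos (2 * Real.pi * (y i - ((2 : ℕ) : ℝ) / 4)) = -z.re := by
    rw [hz, Complex.re_sum, ← sum_neg_distrib]
    exact sum_congr rfl fun i _ => by rw [← (cos_phase (y i)).2.1]; norm_num
  have h3 : ∑ i ∈ range J, Real.cos (2 * Real.pi * (y i - ((3 : ℕ) : ℝ) / 4)) = -z.im := by
    rw [hz, Complex.im_sum, ← sum_neg_distrib]
    exact sum_congr rfl fun i _ => by rw [← (cos_phase (y i)).2.2]; norm_num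
  have h4 := Complex.norm_le_abs_re_add_abs_im z
  by_contra hcon
  push Not at hcon
  have k0 := hcon 0 (by simp)
  have k1 := hcon 1 (by simp)
  have k2 := hcon 2 (by simp)
  have k3 := hcon 3 (by simp)
  rw [h0] at k0
  rw [h1] at k1
  rw [h2] at k2
  rw [h3] at k3
  have h5 : |z.re| < ‖z‖ / 2 := abs_lt.2 ⟨by linarith, k0⟩
  have h6 : |z.im| < ‖z‖ / 2 := abs_lt.2 ⟨by linarith, k1⟩
  linarith

theorem strictMono_add {s : ℕ → ℕ} (hs : StrictMono s) (m L : ℕ) : s m + L ≤ s (m + L) := by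
  induction L with
  | zero => exact le_rfl
  | succ L ih =>
    have := hs (Nat.lt_succ_self (m + L))
    have h : s (m + (L + 1)) = s (m + L).succ := rfl
    omega

theorem geo_sum (J : ℕ) {C : ℝ} (hC : 0 ≤ C) : ∑ j ∈ range J, 2 ^ j * (C / 9 ^ j) ≤ 2 * C := by
  have h1 : ∑ j ∈ range J, 2 ^ j * (C / 9 ^ j) = C * ∑ j ∈ range J, (2 / 9 : ℝ) ^ j := by
    rw [Finset.mul_sum]
    refine sum_congr rfl fun j _ => ?_
    rw [div_pow]
    ring
  have h2 : ∑ j ∈ range J, (2 / 9 : ℝ) ^ j ≤ 2 := by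
    rw [geom_sum_eq (by norm_num)]
    have h3 : (0 : ℝ) < (2 / 9 : ℝ) ^ J := by positivity
    rw [div_le_iff_of_neg (by norm_num)]
    linarith
  rw [h1]
  nlinarith

/-- large deviations along a progression of indices -/
theorem ld_one {a b : ℝ} (ha : 1 < a) (hab : a ≤ b) (P : ℝ[X]) (hP : ∀ x ∈ Icc a b, P.eval x ≠ 0) {L : ℕ}
    (hL : 9 ≤ a ^ L) : ∃ C : ℝ, 0 < C ∧ ∃ n₀ : ℕ, ∀ s : ℕ → ℕ, StrictMono s → ∀ (c : ℕ → ℝ) (r J : ℕ) (q : ℝ) (δ : ℝ),
      n₀ ≤ r → 0 < δ → δ ≤ 1 →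
      volume {x ∈ Icc a b | δ * J ≤ ∑ i ∈ range J, Real.cos (2 * Real.pi * (P.eval x * x ^ s (r + L * i) + c i - q))} ≤
        ENNReal.ofReal ((b - a + 2 * C) * Real.exp (-(δ ^ 2 * J / 8))) := by
  obtain ⟨C, hC, n₀, h⟩ := dom ha hab P hP (M := 1) le_rfl (L := L) (by linarith)
  refine ⟨C, hC, n₀, ?_⟩
  intro s hs c r J q δ hr hδ hδ1
  set t : ℕ → ℕ := fun i => s (r + L * i) with ht
  have ht0 : n₀ ≤ t 0 := by
    have := hs.le_apply (x := r + L * 0)
    show n₀ ≤ s (r + L * 0)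
    omega
  have htL : ∀ i, t i + L ≤ t (i + 1) := by
    intro i
    have := strictMono_add hs (r + L * i) L
    show s (r + L * i) + L ≤ s (r + L * (i + 1))
    rw [Nat.mul_succ, ← add_assoc]
    exact this
  have htj : ∀ j, L * j ≤ t j := by
    intro j
    have := hs.le_apply (x := r + L * j)
    show L * j ≤ s (r + L * j)
    omega
  set g : ℕ → ℝ → ℝ := fun i x => P.eval x * x ^ t i + c i with hg
  have hB : ∀ (J : ℕ) (σ : ℕ → ℝ), (∀ i, |σ i| ≤ 1) → |σ J| = 1 → ∀ c' : ℝ,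
      ‖∫ x in a..b, e (∑ i ∈ range (J + 1), σ i * g i x + c')‖ ≤ C / 9 ^ J := by
    intro J σ h1 h2 c'
    have h3 := h t ht0 htL J σ h1 h2.ge (∑ i ∈ range (J + 1), σ i * c i + c') a b le_rfl hab le_rfl
    have h4 : ∀ x, ∑ i ∈ range (J + 1), σ i * g i x + c' =
        ∑ i ∈ range (J + 1), σ i * (P.eval x * x ^ t i) + (∑ i ∈ range (J + 1), σ i * c i + c') := by
      intro x
      rw [← add_assoc, ← sum_add_distrib]
      congr 1
      refine sum_congr rfl fun i _ => ?_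
      show σ i * (P.eval x * x ^ t i + c i) = _
      ring
    simp_rw [h4]
    refine h3.trans ?_
    apply div_le_div_of_nonneg_left hC.le (by positivity)
    calc (9 : ℝ) ^ J ≤ (a ^ L) ^ J := pow_le_pow_left₀ (by norm_num) hL J
      _ = a ^ (L * J) := (pow_mul a L J).symm
      _ ≤ a ^ t J := pow_le_pow_right₀ ha.le (htj J)
  have hgc : ∀ i, ContinuousOn (g i) (Icc a b) := fun i =>
    ((P.continuous.mul (continuous_pow (t i))).add continuous_const).continuousOn
  exact rp_markov hab hgc hB (A := 2 * C) (fun J => geo_sum J hC.le) (fun j => by positivity) (fun _ => q) J hδ hδ1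

/-- **Large deviations.** -/
theorem ld {a : ℝ} (ha : 1 < a) : ∃ κ : ℝ, 0 < κ ∧ ∀ b : ℝ, a ≤ b → ∀ P : ℝ[X], (∀ x ∈ Icc a b, P.eval x ≠ 0) →
    ∃ C : ℝ, 0 < C ∧ ∀ s : ℕ → ℕ, StrictMono s → ∀ c : ℕ → ℝ, ∀ δ : ℝ, 0 < δ → δ ≤ 1 → ∀ N : ℕ,
      volume {x ∈ Icc a b | δ * N ≤ ‖∑ k ∈ range N, e (P.eval x * x ^ s k + c k)‖} ≤
        ENNReal.ofReal (C * Real.exp (-(κ * δ ^ 2 * N))) := by
  obtain ⟨L, hL⟩ := pow_unbounded_of_one_lt 9 ha
  have hL0 : 0 < L := by
    rcases Nat.eq_zero_or_pos L with h | h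
    · rw [h, pow_zero] at hL
      norm_num at hL
    · exact h
  have hL0' : (0 : ℝ) < L := by exact_mod_cast hL0
  set κ : ℝ := 1 / (128 * L) with hκ
  have hκ0 : 0 < κ := by positivity
  refine ⟨κ, hκ0, ?_⟩
  intro b hab P hP
  obtain ⟨C, hC, n₀, h⟩ := ld_one ha hab P hP hL.le
  have hba : 0 ≤ b - a := by linarith
  set D : ℝ := Real.exp (2 * κ * (n₀ + L)) with hD
  have hD0 : 0 < D := Real.exp_pos _
  refine ⟨(b - a + 1) * D + 4 * L * (b - a + 2 * C) * D, by positivity, ?_⟩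
  intro s hs c δ hδ hδ1 N
  have hexp : Real.exp (-(κ * δ ^ 2 * N)) > 0 := Real.exp_pos _
  by_cases hN : δ * N < 2 * (n₀ + L)
  · have h1 : volume {x ∈ Icc a b | δ * N ≤ ‖∑ k ∈ range N, e (P.eval x * x ^ s k + c k)‖} ≤ ENNReal.ofReal (b - a) := by
      refine (measure_mono (fun x hx => hx.1)).trans ?_
      rw [Real.volume_Icc]
    refine h1.trans (ENNReal.ofReal_le_ofReal ?_)
    have h2 : 1 ≤ D * Real.exp (-(κ * δ ^ 2 * N)) := by
      rw [hD, ← Real.exp_add]
      apply Real.one_le_exp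
      have h3 : δ ^ 2 * N ≤ 2 * (n₀ + L) := by
        have h4 : δ * (δ * N) ≤ 1 * (δ * N) := mul_le_mul_of_nonneg_right hδ1 (by positivity)
        nlinarith
      nlinarith [mul_le_mul_of_nonneg_left h3 hκ0.le]
    have h5 : 0 ≤ 4 * L * (b - a + 2 * C) * D * Real.exp (-(κ * δ ^ 2 * N)) := by positivity
    calc b - a ≤ (b - a + 1) * 1 := by linarith
      _ ≤ (b - a + 1) * (D * Real.exp (-(κ * δ ^ 2 * N))) := mul_le_mul_of_nonneg_left h2 (by linarith)
      _ ≤ _ := by nlinarith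
  · push Not at hN
    have hNn : (n₀ : ℝ) + L ≤ N := by
      have h4 : δ * N ≤ N := by
        have : (0 : ℝ) ≤ N := by positivity
        nlinarith
      have : (0 : ℝ) ≤ (n₀ : ℝ) + L := by positivity
      linarith
    have hNn' : n₀ + L ≤ N := by exact_mod_cast hNn
    set J : ℕ := (N - n₀) / L with hJ
    have hJ1 : L * J ≤ N - n₀ := Nat.mul_div_le _ _
    have hJ2 : N - n₀ < L * J + L := by
      have := Nat.lt_mul_div_succ (N - n₀) hL0
      rw [Nat.mul_succ] at this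
      exact this
    obtain ⟨r0, hr0⟩ : ∃ r0, N = n₀ + (L * J + r0) := ⟨N - n₀ - L * J, by omega⟩
    have hr0L : r0 < L := by omega
    set E : ℕ → ℕ → Set ℝ := fun r q => {x ∈ Icc a b | δ / 4 * J ≤ ∑ i ∈ range J,
      Real.cos (2 * Real.pi * (P.eval x * x ^ s ((n₀ + r) + L * i) + c ((n₀ + r) + L * i) - (q : ℝ) / 4))} with hE
    have hsub : {x ∈ Icc a b | δ * N ≤ ‖∑ k ∈ range N, e (P.eval x * x ^ s k + c k)‖} ⊆
        ⋃ r ∈ range L, ⋃ q ∈ range 4, E r q := by
      rintro x ⟨hx, h1⟩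
      set f : ℕ → ℂ := fun k => e (P.eval x * x ^ s k + c k) with hf
      have h2 : ∑ k ∈ range N, f k = ∑ k ∈ range n₀, f k +
          (∑ r ∈ range L, ∑ i ∈ range J, f (n₀ + (L * i + r)) + ∑ k ∈ range r0, f (n₀ + (L * J + k))) := by
        rw [hr0, sum_range_add, sum_range_add, sum_blocks (fun k => f (n₀ + k))]
      have h3 : ‖∑ k ∈ range n₀, f k‖ ≤ n₀ := by
        refine (norm_sum_le _ _).trans (le_of_eq ?_)
        simp [hf, norm_e]
      have h4 : ‖∑ k ∈ range r0, f (n₀ + (L * J + k))‖ ≤ L := by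
        refine (norm_sum_le _ _).trans ?_
        simp only [hf, norm_e, sum_const, card_range, nsmul_eq_mul, mul_one]
        exact_mod_cast hr0L.le
      have h5 : ∃ r ∈ range L, δ / 2 * J ≤ ‖∑ i ∈ range J, f (n₀ + (L * i + r))‖ := by
        by_contra hcon
        push Not at hcon
        have h6 : ‖∑ r ∈ range L, ∑ i ∈ range J, f (n₀ + (L * i + r))‖ < L * (δ / 2 * J) := by
          refine lt_of_le_of_lt (norm_sum_le _ _) ?_
          have h7 := Finset.sum_lt_sum_of_nonempty (s := range L) ⟨0, by simpa using hL0⟩ hcon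
          rwa [sum_const, card_range, nsmul_eq_mul] at h7
        have h8 : (L : ℝ) * (δ / 2 * J) ≤ δ / 2 * N := by
          have h9 : (L : ℝ) * J ≤ N := by
            have : L * J ≤ N := by omega
            exact_mod_cast this
          nlinarith
        have h10 : ‖∑ k ∈ range N, f k‖ < n₀ + (δ / 2 * N + L) := by
          rw [h2]
          refine lt_of_le_of_lt (norm_add_le _ _) ?_
          have h11 := norm_add_le (∑ r ∈ range L, ∑ i ∈ range J, f (n₀ + (L * i + r))) (∑ k ∈ range r0, f (n₀ + (L * J + k)))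
          linarith
        linarith
      obtain ⟨r, hr, h6⟩ := h5
      obtain ⟨q, hq, h7⟩ := exists_phase (fun i => P.eval x * x ^ s (n₀ + (L * i + r)) + c (n₀ + (L * i + r))) J
      rw [mem_iUnion₂]
      refine ⟨r, hr, ?_⟩
      rw [mem_iUnion₂]
      refine ⟨q, hq, hx, ?_⟩
      have h8 : ∀ i, (n₀ + r) + L * i = n₀ + (L * i + r) := fun i => by ring
      simp only [h8]
      linarith
    refine (measure_mono hsub).trans ?_
    refine (measure_biUnion_finset_le _ _).trans ?_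
    have h1 : ∀ r ∈ range L, volume (⋃ q ∈ range 4, E r q) ≤
        ENNReal.ofReal (4 * ((b - a + 2 * C) * Real.exp (-((δ / 4) ^ 2 * J / 8)))) := by
      intro r _
      refine (measure_biUnion_finset_le _ _).trans ?_
      have h2 : ∀ q ∈ range 4, volume (E r q) ≤ ENNReal.ofReal ((b - a + 2 * C) * Real.exp (-((δ / 4) ^ 2 * J / 8))) := by
        intro q _
        exact h s hs (fun i => c ((n₀ + r) + L * i)) (n₀ + r) J ((q : ℝ) / 4) (δ / 4) (by omega) (by linarith) (by linarith)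
      refine (Finset.sum_le_card_nsmul _ _ _ h2).trans (le_of_eq ?_)
      rw [card_range, nsmul_eq_mul, ENNReal.ofReal_mul (by norm_num : (0 : ℝ) ≤ 4)]
      norm_num
    refine (Finset.sum_le_card_nsmul _ _ _ h1).trans ?_
    rw [card_range, nsmul_eq_mul, ← ENNReal.ofReal_natCast, ← ENNReal.ofReal_mul (by positivity)]
    apply ENNReal.ofReal_le_ofReal
    have h3 : Real.exp (-((δ / 4) ^ 2 * J / 8)) ≤ D * Real.exp (-(κ * δ ^ 2 * N)) := by
      rw [hD, ← Real.exp_add]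
      apply Real.exp_le_exp.2
      have h4 : (N : ℝ) ≤ n₀ + L + L * J := by
        have : N ≤ n₀ + L + L * J := by omega
        exact_mod_cast this
      have h5 : (δ / 4) ^ 2 * J / 8 = κ * δ ^ 2 * (L * J) := by
        rw [hκ]
        field_simp
        ring
      rw [h5]
      have h6 : κ * δ ^ 2 * N ≤ κ * δ ^ 2 * (n₀ + L + L * J) := mul_le_mul_of_nonneg_left h4 (by positivity)
      have h7 : κ * δ ^ 2 * (n₀ + L) ≤ 2 * κ * (n₀ + L) := by
        have h8 : δ ^ 2 ≤ 1 := by nlinarith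
        have h9 : (0 : ℝ) ≤ (n₀ : ℝ) + L := by positivity
        have h10 : κ * δ ^ 2 ≤ 2 * κ := by nlinarith
        exact mul_le_mul_of_nonneg_right h10 h9
      nlinarith
    have h4 : 0 ≤ b - a + 2 * C := by positivity
    have h5 : (L : ℝ) * (4 * ((b - a + 2 * C) * Real.exp (-((δ / 4) ^ 2 * J / 8)))) ≤
        4 * L * (b - a + 2 * C) * (D * Real.exp (-(κ * δ ^ 2 * N))) := by
      have := mul_le_mul_of_nonneg_left h3 (by positivity : 0 ≤ 4 * L * (b - a + 2 * C))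
      linarith
    refine h5.trans ?_
    have h6 : 0 ≤ (b - a + 1) * D * Real.exp (-(κ * δ ^ 2 * N)) := by positivity
    nlinarith

end Pool.Agent.Helper82.FK
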