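import Pool.Agent.Helper82.FK.Lim

/-!
# A law of large numbers from exponentially small correlations
-/

set_option autoImplicit false

namespace Pool.Agent.Helper82.FK

open MeasureTheory Set Filter Topology Finset

section
variable {μ : Measure ℝ} [IsProbabilityMeasure μ] {Y : ℕ → ℝ → ℝ} {B C : ℝ}

theorem second_moment (hY : ∀ k, Continuous (Y k)) (hB : ∀ k x, |Y k x| ≤ B) (hC0 : 0 ≤ C)
    (hC : ∀ k l, l < k → |∫ x, Y k x * Y l x ∂μ| ≤ C * (1 / 6) ^ k) (K : ℕ) :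
    ∫ x, (∑ k ∈ range K, Y k x) ^ 2 ∂μ ≤ (2 * C + B ^ 2) * K := by
  have hB0 : 0 ≤ B := (abs_nonneg _).trans (hB 0 0)
  have hint : ∀ {f : ℝ → ℝ}, Continuous f → (∃ D, ∀ x, |f x| ≤ D) → Integrable f μ := by
    rintro f hf ⟨D, hD⟩
    exact Integrable.of_bound hf.aestronglyMeasurable (C := D) (Eventually.of_forall fun x => hD x)
  have hS : ∀ K x, |∑ k ∈ range K, Y k x| ≤ K * B := by
    intro K x
    refine (abs_sum_le_sum_abs _ _).trans ((sum_le_card_nsmul _ _ _ fun k _ => hB k x).trans (le_of_eq ?_))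
    rw [card_range, nsmul_eq_mul]
  have hSc : ∀ K, Continuous fun x => ∑ k ∈ range K, Y k x := fun K => continuous_finsetSum _ fun k _ => hY k
  induction K with
  | zero => simp
  | succ K ih =>
    have h1 : ∀ x, (∑ k ∈ range (K + 1), Y k x) ^ 2 = (∑ k ∈ range K, Y k x) ^ 2 +
        (2 * ∑ l ∈ range K, Y K x * Y l x + (Y K x) ^ 2) := by
      intro x
      rw [sum_range_succ, ← mul_sum]
      ring
    simp_rw [h1]
    have i1 : Integrable (fun x => (∑ k ∈ range K, Y k x) ^ 2) μ := hint ((hSc K).pow 2) ⟨(K * B) ^ 2, fun x => by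
      rw [abs_pow]
      exact pow_le_pow_left₀ (abs_nonneg _) (hS K x) 2⟩
    have i3 : Integrable (fun x => (Y K x) ^ 2) μ := hint ((hY K).pow 2) ⟨B ^ 2, fun x => by
      rw [abs_pow]
      exact pow_le_pow_left₀ (abs_nonneg _) (hB K x) 2⟩
    have i4 : ∀ l ∈ range K, Integrable (fun x => Y K x * Y l x) μ := fun l _ => hint ((hY K).mul (hY l)) ⟨B * B, fun x => by
      rw [abs_mul]
      exact mul_le_mul (hB K x) (hB l x) (abs_nonneg _) hB0⟩
    have i2 : Integrable (fun x => 2 * ∑ l ∈ range K, Y K x * Y l x) μ := (integrable_finsetSum _ i4).const_mul 2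
    have i5 : Integrable (fun x => 2 * ∑ l ∈ range K, Y K x * Y l x + (Y K x) ^ 2) μ := i2.add i3
    rw [integral_add i1 i5, integral_add i2 i3, integral_const_mul, integral_finsetSum _ i4]
    have h2 : ∑ l ∈ range K, ∫ x, Y K x * Y l x ∂μ ≤ C := by
      have h3 : ∀ l ∈ range K, ∫ x, Y K x * Y l x ∂μ ≤ C * (1 / 6) ^ K := fun l hl =>
        (le_abs_self _).trans (hC K l (Finset.mem_range.1 hl))
      refine (sum_le_card_nsmul _ _ _ h3).trans ?_
      rw [card_range, nsmul_eq_mul]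
      have h4 : (K : ℝ) * (1 / 6) ^ K ≤ 1 := by
        have h5 : (K : ℝ) ≤ 6 ^ K := by
          have : K < 6 ^ K := Nat.lt_pow_self (by norm_num)
          exact_mod_cast this.le
        rw [one_div, inv_pow, ← div_eq_mul_inv, div_le_one (by positivity)]
        exact h5
      nlinarith
    have h3 : ∫ x, (Y K x) ^ 2 ∂μ ≤ B ^ 2 := by
      have h4 : ∫ x, (Y K x) ^ 2 ∂μ ≤ ∫ _, B ^ 2 ∂μ := integral_mono i3 (integrable_const _) fun x => by
        rw [← sq_abs]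
        exact pow_le_pow_left₀ (abs_nonneg _) (hB K x) 2
      simpa using h4
    push_cast
    linarith

theorem ae_mean_zero (hY : ∀ k, Continuous (Y k)) (hB : ∀ k x, |Y k x| ≤ B) (hC0 : 0 ≤ C)
    (hC : ∀ K : ℕ, ∫ x, (∑ k ∈ range K, Y k x) ^ 2 ∂μ ≤ C * K) :
    ∀ᵐ x ∂μ, Tendsto (fun K : ℕ => (∑ k ∈ range K, Y k x) / K) atTop (𝓝 0) := by
  have hB0 : 0 ≤ B := (abs_nonneg _).trans (hB 0 0)
  have hS : ∀ K x, |∑ k ∈ range K, Y k x| ≤ K * B := by
    intro K x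
    refine (abs_sum_le_sum_abs _ _).trans ((sum_le_card_nsmul _ _ _ fun k _ => hB k x).trans (le_of_eq ?_))
    rw [card_range, nsmul_eq_mul]
  have hSc : ∀ K, Continuous fun x => ∑ k ∈ range K, Y k x := fun K => continuous_finsetSum _ fun k _ => hY k
  set f : ℕ → ℝ → ℝ := fun n x => ((∑ k ∈ range ((n + 1) ^ 2), Y k x) / ((n : ℝ) + 1) ^ 2) ^ 2 with hf
  have hfc : ∀ n, Continuous (f n) := fun n => ((hSc _).div_const _).pow 2
  have hfi : ∀ n, ∫ x, f n x ∂μ ≤ C * (1 / ((n : ℝ) + 1) ^ 2) := by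
    intro n
    have h1 : ∀ x, f n x = (1 / ((n : ℝ) + 1) ^ 4) * (∑ k ∈ range ((n + 1) ^ 2), Y k x) ^ 2 := by
      intro x
      rw [hf]
      simp only
      rw [div_pow]
      ring
    simp_rw [h1]
    rw [integral_const_mul]
    have h2 := hC ((n + 1) ^ 2)
    push_cast at h2
    calc 1 / ((n : ℝ) + 1) ^ 4 * ∫ x, (∑ k ∈ range ((n + 1) ^ 2), Y k x) ^ 2 ∂μ ≤
        1 / ((n : ℝ) + 1) ^ 4 * (C * ((n : ℝ) + 1) ^ 2) := by gcongr
      _ = C * (1 / ((n : ℝ) + 1) ^ 2) := by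
        field_simp
  have hfn : ∀ n x, 0 ≤ f n x := fun n x => sq_nonneg _
  have hfint : ∀ n, Integrable (f n) μ := fun n => by
    refine Integrable.of_bound (hfc n).aestronglyMeasurable (C := B ^ 2) (Eventually.of_forall fun x => ?_)
    rw [Real.norm_eq_abs, abs_of_nonneg (hfn n x)]
    rw [hf]
    simp only
    rw [← sq_abs]
    apply pow_le_pow_left₀ (abs_nonneg _)
    rw [abs_div, abs_of_pos (by positivity : (0 : ℝ) < ((n : ℝ) + 1) ^ 2), div_le_iff₀ (by positivity)]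
    have := hS ((n + 1) ^ 2) x
    push_cast at this
    linarith
  have hsum : ∑' n, ∫⁻ x, ENNReal.ofReal (f n x) ∂μ ≠ ⊤ := by
    have h1 : ∀ n, ∫⁻ x, ENNReal.ofReal (f n x) ∂μ ≤ ENNReal.ofReal (C * (1 / ((n : ℝ) + 1) ^ 2)) := by
      intro n
      rw [← ofReal_integral_eq_lintegral_ofReal (hfint n) (Eventually.of_forall (hfn n))]
      exact ENNReal.ofReal_le_ofReal (hfi n)
    refine ne_top_of_le_ne_top ?_ (ENNReal.tsum_le_tsum h1)
    have hs : Summable fun n : ℕ => C * (1 / ((n : ℝ) + 1) ^ 2) := by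
      refine Summable.mul_left C ?_
      have := (summable_nat_add_iff 1).2 (Real.summable_one_div_nat_pow.2 (show 1 < 2 by norm_num))
      exact_mod_cast this
    rw [← ENNReal.ofReal_tsum_of_nonneg (fun n => by positivity) hs]
    exact ENNReal.ofReal_ne_top
  have hmeas : ∀ n, AEMeasurable (fun x => ENNReal.ofReal (f n x)) μ := fun n =>
    (hfc n).measurable.ennreal_ofReal.aemeasurable
  rw [← lintegral_tsum hmeas] at hsum
  have hae := ae_lt_top' (AEMeasurable.tsum hmeas) hsum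
  filter_upwards [hae] with x hx
  have hx1 : Tendsto (fun n => ENNReal.ofReal (f n x)) atTop (𝓝 0) := ENNReal.tendsto_atTop_zero_of_tsum_ne_top hx.ne
  have hx2 : Tendsto (fun n => f n x) atTop (𝓝 0) := by
    have h1 := (ENNReal.tendsto_toReal ENNReal.zero_ne_top).comp hx1
    simp only [ENNReal.toReal_zero] at h1
    refine h1.congr fun n => ?_
    show (ENNReal.ofReal (f n x)).toReal = f n x
    rw [ENNReal.toReal_ofReal (hfn n x)]
  have hx3 : Tendsto (fun n : ℕ => |(∑ k ∈ range ((n + 1) ^ 2), Y k x) / ((n : ℝ) + 1) ^ 2|) atTop (𝓝 0) := by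
    have h1 := (Real.continuous_sqrt.tendsto 0).comp hx2
    rw [Real.sqrt_zero] at h1
    refine h1.congr fun n => ?_
    show Real.sqrt (((∑ k ∈ range ((n + 1) ^ 2), Y k x) / ((n : ℝ) + 1) ^ 2) ^ 2) = _
    rw [Real.sqrt_sq_eq_abs]
  rw [Metric.tendsto_atTop]
  intro ε hε
  have h4 : ∀ᶠ n : ℕ in atTop, |(∑ k ∈ range ((n + 1) ^ 2), Y k x) / ((n : ℝ) + 1) ^ 2| < ε / 2 :=
    hx3.eventually (gt_mem_nhds (by positivity))
  obtain ⟨n₀, hn₀⟩ := eventually_atTop.1 h4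
  obtain ⟨n₁, hn₁⟩ := exists_nat_gt (8 * B / ε + 1)
  refine ⟨(max n₀ n₁ + 1) ^ 2, fun K hK => ?_⟩
  -- the square root
  set m := Nat.sqrt K with hm
  have hm1 : max n₀ n₁ + 1 ≤ m := by
    rw [hm, Nat.le_sqrt]
    rw [sq] at hK
    exact hK
  obtain ⟨n, hmn⟩ : ∃ n, m = n + 1 := ⟨m - 1, by omega⟩
  have hmle : (n + 1) ^ 2 ≤ K := by
    have := Nat.sqrt_le' K
    rw [← hm, hmn] at this
    exact this
  have hmlt : K < (n + 2) ^ 2 := by
    have := Nat.lt_succ_sqrt' K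
    rw [← hm, hmn] at this
    exact this
  rw [hmn] at hm1
  have hn0 : n₀ ≤ n := by have := le_max_left n₀ n₁; omega
  have hn1 : n₁ ≤ n := by have := le_max_right n₀ n₁; omega
  have hKr : ((n : ℝ) + 1) ^ 2 ≤ K := by exact_mod_cast hmle
  have hK0 : (0 : ℝ) < K := lt_of_lt_of_le (by positivity) hKr
  rw [Real.dist_eq, sub_zero, abs_div, abs_of_pos hK0, div_lt_iff₀ hK0]
  have h5 : ∑ k ∈ range K, Y k x = ∑ k ∈ range ((n + 1) ^ 2), Y k x + ∑ k ∈ Finset.Ico ((n + 1) ^ 2) K, Y k x := by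
    rw [range_eq_Ico, range_eq_Ico, Finset.sum_Ico_consecutive _ (Nat.zero_le _) hmle]
  have h6 : |∑ k ∈ Finset.Ico ((n + 1) ^ 2) K, Y k x| ≤ (2 * n + 3) * B := by
    refine (abs_sum_le_sum_abs _ _).trans ((sum_le_card_nsmul _ _ _ fun k _ => hB k x).trans ?_)
    rw [Nat.card_Ico, nsmul_eq_mul]
    have h7 : K - (n + 1) ^ 2 ≤ 2 * n + 3 := by
      have : (n + 2) ^ 2 = (n + 1) ^ 2 + (2 * n + 3) := by ring
      omega
    have h8 : ((K - (n + 1) ^ 2 : ℕ) : ℝ) ≤ 2 * n + 3 := by exact_mod_cast h7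
    gcongr
  have h7 := hn₀ n hn0
  rw [abs_div, abs_of_pos (by positivity : (0 : ℝ) < ((n : ℝ) + 1) ^ 2), div_lt_iff₀ (by positivity)] at h7
  rw [h5]
  refine (abs_add_le _ _).trans_lt ?_
  have h8 : (2 * (n : ℝ) + 3) * B ≤ ε / 2 * ((n : ℝ) + 1) ^ 2 := by
    have h9 : 8 * B / ε + 1 < n := hn₁.trans_le (by exact_mod_cast hn1)
    have h10 : 8 * B < ε * n := by
      have : 8 * B / ε < n := by linarith
      rw [div_lt_iff₀ hε] at this
      linarith
    have h11 : (2 * (n : ℝ) + 3) ≤ 4 * (n + 1) := by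
      have : (0 : ℝ) ≤ n := by positivity
      linarith
    have h12 : (2 * (n : ℝ) + 3) * B ≤ 4 * (n + 1) * B := mul_le_mul_of_nonneg_right h11 hB0
    have h13 : 4 * ((n : ℝ) + 1) * B ≤ (n + 1) * (ε / 2 * n) := by nlinarith
    have h14 : ((n : ℝ) + 1) * (ε / 2 * n) ≤ ε / 2 * ((n : ℝ) + 1) ^ 2 := by
      have : (0 : ℝ) ≤ n := by positivity
      nlinarith
    linarith
  have h9 : ε / 2 * ((n : ℝ) + 1) ^ 2 ≤ ε / 2 * K := by gcongr
  linarith

end

end Pool.Agent.Helper82.FK
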