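import Pool.Agent.Helper82.FK.Fd
import Pool.Agent.Helper82.FK.Cov1
import Pool.Agent.Helper82.FK.Lln
import Pool.Agent.Helper82.FK.Dec

/-!
# The limit measure of the Riesz products
-/

set_option autoImplicit false

namespace Pool.Agent.Helper82.FK

open MeasureTheory Set Filter Topology Finset

theorem sum_blocks' (f : ℕ → ℝ) (L J : ℕ) :
    ∑ k ∈ range (L * J), f k = ∑ r ∈ range L, ∑ i ∈ range J, f (L * i + r) := by
  induction J with
  | zero => simp
  | succ J ih =>
    rw [Nat.mul_succ, sum_range_add, ih, ← sum_add_distrib]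
    exact sum_congr rfl fun r _ => by rw [sum_range_succ]

/-- from the residue classes to all exponents -/
theorem mean_of_classes {L j₀ : ℕ} (hL : 1 ≤ L) {x : ℝ}
    (h : ∀ r < L, Tendsto (fun K : ℕ => (∑ k ∈ range K, Y L j₀ r k x) / K) atTop (𝓝 0)) :
    Tendsto (fun N : ℕ => (∑ n ∈ range N, Real.cos (2 * Real.pi * x ^ n)) / N) atTop (𝓝 (1 / (4 * L))) := by
  set t₀ := L * j₀ with ht₀
  have hLr : (1 : ℝ) ≤ L := by exact_mod_cast hL
  set c : ℕ → ℝ := fun n => Real.cos (2 * Real.pi * x ^ n) with hc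
  have hc1 : ∀ n, |c n| ≤ 1 := fun n => Real.abs_cos_le_one _
  set S : ℕ → ℝ := fun K => ∑ r ∈ range L, |(∑ k ∈ range K, Y L j₀ r k x) / K| with hS
  have hS0 : Tendsto S atTop (𝓝 0) := by
    have h1 : Tendsto S atTop (𝓝 (∑ r ∈ range L, (0 : ℝ))) := by
      refine tendsto_finsetSum _ fun r hr => ?_
      have := (h r (Finset.mem_range.1 hr)).abs
      rwa [abs_zero] at this
    simpa using h1
  have hK : Tendsto (fun N : ℕ => (N - t₀) / L) atTop atTop := by
    refine tendsto_atTop.2 fun M => ?_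
    filter_upwards [eventually_ge_atTop (t₀ + L * M)] with N hN
    rw [Nat.le_div_iff_mul_le (by omega)]
    have : M * L = L * M := mul_comm _ _
    omega
  have hmain : ∀ᶠ N : ℕ in atTop, ‖(∑ n ∈ range N, c n) / N - 1 / (4 * L)‖ ≤ 2 * ((t₀ : ℝ) + L) / N + S ((N - t₀) / L) := by
    filter_upwards [eventually_ge_atTop (t₀ + L)] with N hN
    set K := (N - t₀) / L with hKd
    have hK1 : L * K ≤ N - t₀ := Nat.mul_div_le _ _
    have hK2 : N - t₀ < L * K + L := by
      have := Nat.lt_mul_div_succ (N - t₀) (show 0 < L by omega)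
      rwa [Nat.mul_succ] at this
    have hKpos : 1 ≤ K := by
      rw [hKd, Nat.one_le_div_iff (by omega)]
      omega
    obtain ⟨d, hd⟩ : ∃ d, N = t₀ + (L * K + d) := ⟨N - t₀ - L * K, by omega⟩
    have hdL : d < L := by omega
    have hN0 : (0 : ℝ) < N := by
      have : 0 < N := by omega
      exact_mod_cast this
    have hK0 : (0 : ℝ) < K := by exact_mod_cast hKpos
    have h1 : ∑ n ∈ range N, c n = ∑ n ∈ range t₀, c n + (∑ r ∈ range L, ∑ k ∈ range K, c (t₀ + (L * k + r)) +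
        ∑ i ∈ range d, c (t₀ + (L * K + i))) := by
      rw [hd, sum_range_add, sum_range_add, sum_blocks' (fun i => c (t₀ + i))]
    have h2 : ∑ r ∈ range L, ∑ k ∈ range K, c (t₀ + (L * k + r)) = (∑ r ∈ range L, ∑ k ∈ range K, Y L j₀ r k x) + K / 4 := by
      have h3 : ∀ r ∈ range L, ∑ k ∈ range K, c (t₀ + (L * k + r)) = (∑ k ∈ range K, Y L j₀ r k x) + if r = 0 then (K : ℝ) / 4 else 0 := by
        intro r _
        have h4 : ∀ k ∈ range K, c (t₀ + (L * k + r)) = Y L j₀ r k x + if r = 0 then 1 / 4 else 0 := by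
          intro k _
          show Real.cos (2 * Real.pi * x ^ (t₀ + (L * k + r))) = Y L j₀ r k x + _
          have h5 : t₀ + (L * k + r) = tt L j₀ k + r := by
            unfold tt
            rw [ht₀]
            ring
          rw [h5]
          unfold Y
          ring
        rw [sum_congr rfl h4, sum_add_distrib]
        congr 1
        split_ifs
        · simp
          ring
        · simp
      rw [sum_congr rfl h3, sum_add_distrib]
      congr 1
      rw [sum_ite_eq' (range L) 0 (fun _ => (K : ℝ) / 4), if_pos (Finset.mem_range.2 (by omega))]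
    have h3 : |∑ n ∈ range t₀, c n| ≤ t₀ := by
      refine (abs_sum_le_sum_abs _ _).trans ((sum_le_card_nsmul _ _ _ fun n _ => hc1 n).trans (le_of_eq ?_))
      simp
    have h4 : |∑ i ∈ range d, c (t₀ + (L * K + i))| ≤ L := by
      refine (abs_sum_le_sum_abs _ _).trans ((sum_le_card_nsmul _ _ _ fun n _ => hc1 _).trans ?_)
      simp only [card_range, nsmul_eq_mul, mul_one]
      exact_mod_cast hdL.le
    have h5 : |∑ r ∈ range L, ∑ k ∈ range K, Y L j₀ r k x| ≤ S K * N := by
      refine (abs_sum_le_sum_abs _ _).trans ?_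
      have h6 : ∀ r ∈ range L, |∑ k ∈ range K, Y L j₀ r k x| ≤ |(∑ k ∈ range K, Y L j₀ r k x) / K| * N := by
        intro r _
        rw [abs_div, abs_of_pos hK0, div_mul_eq_mul_div, le_div_iff₀ hK0]
        have h7 : (K : ℝ) ≤ N := by
          have : K ≤ N := by nlinarith
          exact_mod_cast this
        exact mul_le_mul_of_nonneg_left h7 (abs_nonneg _)
      refine (sum_le_sum h6).trans (le_of_eq ?_)
      rw [← sum_mul]
    have h6 : |(L : ℝ) * K - N| ≤ t₀ + L := by
      have h7 : (N : ℝ) = t₀ + (L * K + d) := by exact_mod_cast hd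
      have h8 : (d : ℝ) ≤ L := by exact_mod_cast hdL.le
      rw [h7, abs_le]
      constructor <;> nlinarith [(Nat.cast_nonneg d : (0 : ℝ) ≤ d), (Nat.cast_nonneg t₀ : (0 : ℝ) ≤ t₀)]
    rw [Real.norm_eq_abs]
    have h7 : (∑ n ∈ range N, c n) / N - 1 / (4 * L) = (∑ n ∈ range t₀, c n + ∑ i ∈ range d, c (t₀ + (L * K + i)) +
        (∑ r ∈ range L, ∑ k ∈ range K, Y L j₀ r k x) + ((L : ℝ) * K - N) / (4 * L)) / N := by
      rw [h1, h2]
      field_simp
      ring
    rw [h7, abs_div, abs_of_pos hN0, div_le_iff₀ hN0]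
    have h8 : |((L : ℝ) * K - N) / (4 * L)| ≤ t₀ + L := by
      rw [abs_div, abs_of_pos (by positivity : (0 : ℝ) < 4 * L)]
      refine (div_le_self (abs_nonneg _) (by linarith)).trans h6
    have h9 : (2 * ((t₀ : ℝ) + L) / N + S K) * N = 2 * (t₀ + L) + S K * N := by
      field_simp
    rw [h9]
    refine (abs_add_le _ _).trans ((add_le_add ((abs_add_le _ _).trans (add_le_add (abs_add_le _ _) le_rfl)) le_rfl).trans ?_)
    linarith
  rw [tendsto_iff_norm_sub_tendsto_zero]
  refine squeeze_zero' (Eventually.of_forall fun _ => norm_nonneg _) hmain ?_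
  have h1 : Tendsto (fun N : ℕ => 2 * ((t₀ : ℝ) + L) / N) atTop (𝓝 0) := tendsto_const_div_atTop_nhds_zero_nat _
  have h2 := h1.add (hS0.comp hK)
  simpa using h2

/-- dyadic cell -/
def Qd (a b : ℝ) (n j : ℕ) : Set ℝ := Ico (a + (b - a) * (j / 2 ^ n)) (a + (b - a) * ((j + 1) / 2 ^ n))

theorem exists_mu {a b β : ℝ} (ha : 1 < a) (hab : a < b) (hβ : 0 ≤ β) (hβ' : β ≤ 1 / 2) {L j₀ : ℕ}
    (hL17 : 17 ≤ a ^ L) (hLa : 1 + 8 * (a / (a - 1)) ≤ a ^ L) (hθ : (b ^ β / Real.sqrt a) ^ L ≤ 1 / 3)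
    (hθ1 : b ^ β / Real.sqrt a ≤ 1) (hj : 2 ≤ L * j₀)
    (hm : 2 * (b / (L * j₀) + (b - a)) / a ^ (L * j₀) ≤ (b - a) / 2) :
    ∃ μ : Measure ℝ, IsProbabilityMeasure μ ∧ μ (Ico a b)ᶜ = 0 ∧
      (∃ C : ℝ, 0 < C ∧ ∀ τ : ℝ, 1 ≤ |τ| → ‖∫ x, e (τ * x) ∂μ‖ ≤ C * |τ| ^ (-β)) ∧
      (∀ᵐ x ∂μ, Tendsto (fun N : ℕ => (∑ n ∈ range N, Real.cos (2 * Real.pi * x ^ n)) / N) atTop (𝓝 (1 / (4 * L)))) ∧
      (∃ C : ℝ, 0 < C ∧ ∀ n j : ℕ, j < 2 ^ n → ∀ y r : ℝ, 0 < r →
        μ (Qd a b n j ∩ {x | |x - y| < r}) ≤ ENNReal.ofReal (C * (r / ((b - a) / 2 ^ n)) ^ (1 / 2 : ℝ)) * μ (Qd a b n j)) := by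
  have hba : 0 < b - a := by linarith
  have ha1 : 1 ≤ a := ha.le
  have hL9 : 9 ≤ a ^ L := by linarith
  have hL1 : 1 ≤ L := by
    rcases Nat.eq_zero_or_pos L with h | h
    · rw [h, pow_zero] at hL17
      norm_num at hL17
    · exact h
  have hj1 : 1 ≤ L * j₀ := by omega
  set f : ℕ → ℝ → ℝ := fun J => F L j₀ J with hf
  have hfc : ∀ J, Continuous (f J) := fun J => continuous_F _ _ _
  have hf0 : ∀ J x, 0 < f J x := fun J x => F_pos _ _ _ _
  set m : ℕ → ℝ := fun J => ∫ x in a..b, f J x with hmd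
  have hmlow : ∀ J, (b - a) / 2 ≤ m J := fun J => by
    have := (abs_le.1 ((mass ha1 hab.le hL9 hj1 J).trans hm)).1
    show _ ≤ ∫ x in a..b, F L j₀ J x
    linarith
  have hmup : ∀ J, m J ≤ 3 * (b - a) / 2 := fun J => by
    have := (abs_le.1 ((mass ha1 hab.le hL9 hj1 J).trans hm)).2
    show ∫ x in a..b, F L j₀ J x ≤ _
    linarith
  have hm0 : ∀ J, 0 < m J := fun J => by linarith [hmlow J]
  have hminv : ∀ J, (m J)⁻¹ ≤ 2 / (b - a) := fun J => by
    rw [← one_div, div_le_div_iff₀ (hm0 J) hba]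
    linarith [hmlow J]
  have hminv' : ∀ J, 2 / (3 * (b - a)) ≤ (m J)⁻¹ := fun J => by
    rw [← one_div, div_le_div_iff₀ (by positivity) (hm0 J)]
    linarith [hmup J]
  have hprob : ∀ J, IsProbabilityMeasure (dn a b (f J)) := fun J => dn_prob (hfc J) (hf0 J) hab
  set ν : ℕ → ProbabilityMeasure ℝ := fun J => ⟨dn a b (f J), hprob J⟩ with hν
  have hνs : ∀ J, (ν J : Measure ℝ) (Icc a b)ᶜ = 0 := fun J => dn_support (hfc J) (hf0 J)
  obtain ⟨μ, l, hl0, hl, hlim⟩ := exists_lim ν hνs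
  have hμs : (μ : Measure ℝ) (Icc a b)ᶜ = 0 := lim_support hlim hl hνs
  -- integrals of continuous functions
  have hint : ∀ {w : ℝ → ℂ} {B D : ℝ}, Continuous w → (∀ x, ‖w x‖ ≤ B) →
      (∀ᶠ J : ℕ in atTop, ‖∫ x in a..b, ((F L j₀ J x : ℝ) : ℂ) * w x‖ ≤ D) → ‖∫ x, w x ∂(μ : Measure ℝ)‖ ≤ 2 / (b - a) * D := by
    intro w B D hw hB hD
    refine lim_norm_le hlim hl hw hB ?_
    filter_upwards [hD] with J hJ
    have h1 : ∫ x, w x ∂(ν J : Measure ℝ) = (((m J)⁻¹ : ℝ) : ℂ) * ∫ x in a..b, (f J x : ℂ) * w x :=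
      integral_dn (hfc J) (hf0 J) hab w
    rw [h1, norm_mul, Complex.norm_real, Real.norm_eq_abs, abs_of_pos (inv_pos.2 (hm0 J))]
    exact mul_le_mul (hminv J) hJ (norm_nonneg _) (by positivity)
  -- decay
  obtain ⟨C, hC0, hdec⟩ := dec1 (L := L) (j₀ := j₀) ha1 hab hL9 hj1
  have hD1 : ∀ {p q p' q' : ℝ}, a ≤ p → p < q → q ≤ b → p ≤ p' → p' < q' → q' ≤ q → ∀ U : Set ℝ, IsOpen U →
      U ∩ Icc a b ⊆ Icc p' q' → (μ : Measure ℝ) U ≤ ENNReal.ofReal (3 * C * Real.sqrt ((q' - p') / (q - p))) * (μ : Measure ℝ) (Icc p q) := by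
    intro p q p' q' hap hpq hqb hpp' hpq' hqq' U hU hUs
    obtain ⟨X, hX0, hX1, hX2⟩ := hdec p q p' q' hap hpq hqb hpp' hpq' hqq'
    have h1 : ENNReal.ofReal (2 / (3 * (b - a)) * X) ≤ (μ : Measure ℝ) (Icc p q) := by
      refine lim_closed hlim hl isClosed_Icc ?_
      filter_upwards [hX1] with J hJ
      have h2 : (ν J : Measure ℝ) (Icc p q) = ENNReal.ofReal ((m J)⁻¹ * ∫ x in p..q, f J x) :=
        dn_Icc (hfc J) (hf0 J) hab hap hpq.le hqb
      rw [h2]
      apply ENNReal.ofReal_le_ofReal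
      exact mul_le_mul (hminv' J) hJ hX0.le (inv_pos.2 (hm0 J)).le
    have h2 : (μ : Measure ℝ) U ≤ ENNReal.ofReal (2 / (b - a) * (C * Real.sqrt ((q' - p') / (q - p)) * X)) := by
      refine lim_open hlim hl hU ?_
      filter_upwards [hX2] with J hJ
      have h3 : (ν J : Measure ℝ) U ≤ (ν J : Measure ℝ) (Icc p' q') := by
        have h4 : (ν J : Measure ℝ) U ≤ (ν J : Measure ℝ) (Icc p' q' ∪ (Icc a b)ᶜ) := by
          apply measure_mono
          intro x hx
          by_cases hxI : x ∈ Icc a b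
          · exact Or.inl (hUs ⟨hx, hxI⟩)
          · exact Or.inr hxI
        refine h4.trans ((measure_union_le _ _).trans ?_)
        rw [hνs J, add_zero]
      refine h3.trans ?_
      have h5 : (ν J : Measure ℝ) (Icc p' q') = ENNReal.ofReal ((m J)⁻¹ * ∫ x in p'..q', f J x) :=
        dn_Icc (hfc J) (hf0 J) hab (hap.trans hpp') hpq'.le (hqq'.trans hqb)
      rw [h5]
      apply ENNReal.ofReal_le_ofReal
      have h6 : 0 ≤ ∫ x in p'..q', f J x := intervalIntegral.integral_nonneg hpq'.le fun x _ => (hf0 J x).le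
      exact mul_le_mul (hminv J) hJ h6 (by positivity)
    refine h2.trans ?_
    have h3 : 2 / (b - a) * (C * Real.sqrt ((q' - p') / (q - p)) * X) = 3 * C * Real.sqrt ((q' - p') / (q - p)) * (2 / (3 * (b - a)) * X) := by
      field_simp
    rw [h3, ENNReal.ofReal_mul (by positivity)]
    gcongr
  -- no atoms
  have hatom : ∀ x₀ ∈ Icc a b, (μ : Measure ℝ) {x₀} = 0 := by
    intro x₀ hx₀
    have h1 : ∀ h : ℝ, 0 < h → (μ : Measure ℝ) {x₀} ≤ ENNReal.ofReal (3 * C * Real.sqrt (2 * h / (b - a))) := by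
      intro h hh
      set p' := max a (x₀ - h) with hp'
      set q' := min b (x₀ + h) with hq'
      have hpq' : p' < q' := by
        rw [hp', hq']
        refine max_lt (lt_min hab (by linarith [hx₀.1])) (lt_min (by linarith [hx₀.2]) (by linarith))
      have h2 := hD1 le_rfl hab le_rfl (le_max_left a (x₀ - h)) hpq' (min_le_left b (x₀ + h)) (Ioo (x₀ - h) (x₀ + h)) isOpen_Ioo (by
        rintro x ⟨⟨hx1, hx2⟩, hx3, hx4⟩
        exact ⟨max_le hx3 hx1.le, le_min hx4 hx2.le⟩)
      have h3 : (μ : Measure ℝ) {x₀} ≤ (μ : Measure ℝ) (Ioo (x₀ - h) (x₀ + h)) := by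
        apply measure_mono
        intro x hx
        rw [mem_singleton_iff] at hx
        rw [hx]
        exact ⟨by linarith, by linarith⟩
      refine h3.trans (h2.trans ?_)
      have h4 : (μ : Measure ℝ) (Icc a b) ≤ 1 := prob_le_one
      calc ENNReal.ofReal (3 * C * Real.sqrt ((q' - p') / (b - a))) * (μ : Measure ℝ) (Icc a b) ≤
          ENNReal.ofReal (3 * C * Real.sqrt ((q' - p') / (b - a))) * 1 := by gcongr
        _ = ENNReal.ofReal (3 * C * Real.sqrt ((q' - p') / (b - a))) := mul_one _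
        _ ≤ _ := by
          apply ENNReal.ofReal_le_ofReal
          have h5 : q' - p' ≤ 2 * h := by
            have := min_le_right b (x₀ + h)
            have := le_max_right a (x₀ - h)
            linarith
          gcongr
    have h2 : Tendsto (fun h : ℝ => ENNReal.ofReal (3 * C * Real.sqrt (2 * h / (b - a)))) (nhdsWithin 0 (Ioi 0)) (𝓝 0) := by
      have h3 : Tendsto (fun h : ℝ => 3 * C * Real.sqrt (2 * h / (b - a))) (nhdsWithin 0 (Ioi 0)) (𝓝 (3 * C * Real.sqrt (2 * 0 / (b - a)))) := by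
        have hcont : Continuous fun h : ℝ => 3 * C * Real.sqrt (2 * h / (b - a)) := by fun_prop
        exact (hcont.tendsto 0).mono_left nhdsWithin_le_nhds
      rw [mul_zero, zero_div, Real.sqrt_zero, mul_zero] at h3
      have h4 := (ENNReal.continuous_ofReal.tendsto 0).comp h3
      rwa [ENNReal.ofReal_zero] at h4
    refine le_antisymm (ge_of_tendsto h2 ?_) zero_le
    filter_upwards [self_mem_nhdsWithin] with h hh
    exact h1 h hh
  refine ⟨(μ : Measure ℝ), inferInstance, ?_, ?_, ?_, ?_⟩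
  · -- support
    have h1 : (Ico a b)ᶜ ⊆ (Icc a b)ᶜ ∪ {b} := by
      intro x hx
      by_cases hxb : x = b
      · exact Or.inr hxb
      · left
        intro h
        exact hx ⟨h.1, lt_of_le_of_ne h.2 hxb⟩
    refine measure_mono_null h1 ?_
    rw [measure_union_null_iff]
    exact ⟨hμs, hatom b (right_mem_Icc.2 hab.le)⟩
  · -- Fourier decay
    obtain ⟨D, hD0, hD⟩ := fd (L := L) (j₀ := j₀) ha1 hab.le hβ hβ' hL9 hθ hθ1 hj
    refine ⟨2 / (b - a) * D, by positivity, fun τ hτ => ?_⟩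
    rw [mul_assoc]
    exact hint (continuous_e.comp (by fun_prop)) (B := 1) (fun x => (norm_e _).le) (Eventually.of_forall fun J => hD J τ hτ)
  · -- law of large numbers
    obtain ⟨D₀, hD₀0, hD₀⟩ := cov0 (L := L) (j₀ := j₀) ha1 hab.le hL17 hj1
    obtain ⟨D₁, hD₁0, hD₁⟩ := cov1 (L := L) (j₀ := j₀) ha hab.le hLa hj1
    have hcov : ∀ r < L, ∀ k l : ℕ, l < k → |∫ x, Y L j₀ r k x * Y L j₀ r l x ∂(μ : Measure ℝ)| ≤
        2 / (b - a) * (D₀ + D₁) * (1 / 6) ^ k := by
      intro r hr k l hlk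
      have h1 : ((∫ x, Y L j₀ r k x * Y L j₀ r l x ∂(μ : Measure ℝ) : ℝ) : ℂ) =
          ∫ x, ((Y L j₀ r k x : ℝ) : ℂ) * ((Y L j₀ r l x : ℝ) : ℂ) ∂(μ : Measure ℝ) := by
        rw [← integral_complex_ofReal]
        congr 1
        funext x
        push_cast
        rfl
      rw [← Real.norm_eq_abs, ← Complex.norm_real, h1, mul_assoc]
      refine hint ?_ (B := 5 / 4 * (5 / 4)) (fun x => ?_) ?_
      · have h2 := continuous_Y L j₀ r k
        have h3 := continuous_Y L j₀ r l
        fun_prop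
      · rw [norm_mul, Complex.norm_real, Complex.norm_real, Real.norm_eq_abs, Real.norm_eq_abs]
        exact mul_le_mul (abs_Y_le _ _ _ _ _) (abs_Y_le _ _ _ _ _) (abs_nonneg _) (by norm_num)
      · filter_upwards [eventually_gt_atTop k] with J hJ
        have h6 : (0 : ℝ) < (1 / 6) ^ k := by positivity
        rcases Nat.eq_zero_or_pos r with rfl | hr0
        · refine (hD₀ J k l hlk hJ).trans ?_
          nlinarith
        · refine (hD₁ J k l r hlk hJ hr0 hr).trans ?_
          nlinarith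
    have hall : ∀ r < L, ∀ᵐ x ∂(μ : Measure ℝ), Tendsto (fun K : ℕ => (∑ k ∈ range K, Y L j₀ r k x) / K) atTop (𝓝 0) := by
      intro r hr
      have h1 := second_moment (μ := (μ : Measure ℝ)) (Y := fun k => Y L j₀ r k) (B := 5 / 4) (C := 2 / (b - a) * (D₀ + D₁))
        (fun k => continuous_Y L j₀ r k) (fun k x => abs_Y_le L j₀ r k x) (by positivity) (hcov r hr)
      exact ae_mean_zero (fun k => continuous_Y L j₀ r k) (fun k x => abs_Y_le L j₀ r k x) (by positivity) h1
    have hall' : ∀ᵐ x ∂(μ : Measure ℝ), ∀ r ∈ Finset.range L, Tendsto (fun K : ℕ => (∑ k ∈ range K, Y L j₀ r k x) / K) atTop (𝓝 0) := by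
      rw [Finset.eventually_all]
      intro r hr
      exact hall r (Finset.mem_range.1 hr)
    filter_upwards [hall'] with x hx
    exact mean_of_classes hL1 fun r hr => hx r (Finset.mem_range.2 hr)
  · -- decay in dyadic cells
    refine ⟨3 * C * Real.sqrt 2, by positivity, ?_⟩
    intro n j hjn y r hr
    unfold Qd
    set p := a + (b - a) * ((j : ℝ) / 2 ^ n) with hp
    set q := a + (b - a) * (((j : ℝ) + 1) / 2 ^ n) with hq
    have h2n : (0 : ℝ) < 2 ^ n := by positivity
    have hqp : q - p = (b - a) / 2 ^ n := by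
      rw [hp, hq]
      field_simp
      ring
    have hqp0 : 0 < q - p := by rw [hqp]; positivity
    have hap : a ≤ p := by
      rw [hp]
      have : 0 ≤ (b - a) * ((j : ℝ) / 2 ^ n) := by positivity
      linarith
    have hqb : q ≤ b := by
      have h1 : ((j : ℝ) + 1) / 2 ^ n ≤ 1 := by
        rw [div_le_one h2n]
        exact_mod_cast hjn
      rw [hq]
      nlinarith
    set p' := max p (y - r) with hp'
    set q' := min q (y + r) with hq'
    rcases le_or_gt q' p' with hcase | hcase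
    · have h1 : Ico p q ∩ {x | |x - y| < r} = ∅ := by
        rw [Set.eq_empty_iff_forall_notMem]
        rintro x ⟨⟨hx1, hx2⟩, hx3⟩
        have hx4 := abs_lt.1 (show |x - y| < r from hx3)
        have h2 : p' ≤ x := max_le hx1 (by linarith)
        have h3 : x < q' := lt_min hx2 (by linarith)
        linarith
      rw [h1, measure_empty]
      exact zero_le
    · have hp'I : p' ∈ Icc a b := ⟨hap.trans (le_max_left _ _), by have := min_le_left q (y + r); linarith⟩
      have h1 : (μ : Measure ℝ) (Ico p q ∩ {x | |x - y| < r}) ≤ (μ : Measure ℝ) (Ioo p' q') := by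
        have h2 : Ico p q ∩ {x | |x - y| < r} ⊆ Ioo p' q' ∪ {p'} := by
          rintro x ⟨⟨hx1, hx2⟩, hx3⟩
          have hx4 := abs_lt.1 (show |x - y| < r from hx3)
          have h2 : p' ≤ x := max_le hx1 (by linarith)
          have h3 : x < q' := lt_min hx2 (by linarith)
          rcases h2.eq_or_lt with h4 | h4
          · exact Or.inr h4.symm
          · exact Or.inl ⟨h4, h3⟩
        refine (measure_mono h2).trans ((measure_union_le _ _).trans ?_)
        rw [hatom p' hp'I, add_zero]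
      have h2 := hD1 hap (by linarith : p < q) hqb (le_max_left p (y - r)) hcase (min_le_left q (y + r)) (Ioo p' q') isOpen_Ioo
        (fun x hx => Ioo_subset_Icc_self hx.1)
      have h3 : (μ : Measure ℝ) (Icc p q) = (μ : Measure ℝ) (Ico p q) := by
        refine le_antisymm ?_ (measure_mono Ico_subset_Icc_self)
        have h4 : Icc p q ⊆ Ico p q ∪ {q} := by
          intro x hx
          rcases hx.2.eq_or_lt with h5 | h5
          · exact Or.inr h5
          · exact Or.inl ⟨hx.1, h5⟩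
        refine (measure_mono h4).trans ((measure_union_le _ _).trans ?_)
        rw [hatom q ⟨by linarith, hqb⟩, add_zero]
      rw [h3] at h2
      refine h1.trans (h2.trans (mul_le_mul' (ENNReal.ofReal_le_ofReal ?_) le_rfl))
      have h5 : q' - p' ≤ 2 * r := by
        have := min_le_right q (y + r)
        have := le_max_right p (y - r)
        linarith
      rw [← hqp, ← Real.sqrt_eq_rpow]
      calc 3 * C * Real.sqrt ((q' - p') / (q - p)) ≤ 3 * C * Real.sqrt (2 * (r / (q - p))) := by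
            gcongr
            rw [← mul_div_assoc]
            gcongr
        _ = 3 * C * Real.sqrt 2 * Real.sqrt (r / (q - p)) := by
            rw [Real.sqrt_mul (by norm_num)]
            ring

end Pool.Agent.Helper82.FK
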