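import Pool.Agent.Helper82.FK.Dom
import Pool.Agent.Helper82.FK.VC2

/-!
# Oscillatory integrals of sums of monomials
-/

set_option autoImplicit false

namespace Pool.Agent.Helper82.FK

open MeasureTheory Set Finset

/-- `G` is twice differentiable on `I` with `|G'| ≤ A`, `|G''| ≤ B` -/
def Bd (I : Set ℝ) (G A B : ℝ → ℝ) : Prop :=
  ∃ G' G'' : ℝ → ℝ, (∀ x ∈ I, HasDerivAt G (G' x) x) ∧ (∀ x ∈ I, HasDerivAt G' (G'' x) x) ∧
    ContinuousOn G'' I ∧ (∀ x ∈ I, |G' x| ≤ A x) ∧ (∀ x ∈ I, |G'' x| ≤ B x)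

namespace Bd

variable {I : Set ℝ} {G H A B A' B' : ℝ → ℝ}

theorem mono (h : Bd I G A B) (hA : ∀ x ∈ I, A x ≤ A' x) (hB : ∀ x ∈ I, B x ≤ B' x) : Bd I G A' B' := by
  obtain ⟨G', G'', h1, h2, h3, h4, h5⟩ := h
  exact ⟨G', G'', h1, h2, h3, fun x hx => (h4 x hx).trans (hA x hx), fun x hx => (h5 x hx).trans (hB x hx)⟩

theorem const (c : ℝ) : Bd I (fun _ => c) (fun _ => 0) (fun _ => 0) :=
  ⟨fun _ => 0, fun _ => 0, fun x _ => hasDerivAt_const x c, fun x _ => hasDerivAt_const x 0, continuousOn_const,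
    fun x _ => by simp, fun x _ => by simp⟩

theorem linear (τ : ℝ) : Bd I (fun x => τ * x) (fun _ => |τ|) (fun _ => 0) :=
  ⟨fun _ => τ, fun _ => 0, fun x _ => by simpa using (hasDerivAt_id x).const_mul τ,
    fun x _ => hasDerivAt_const x τ, continuousOn_const, fun x _ => le_rfl, fun x _ => by simp⟩

theorem add (h : Bd I G A B) (h' : Bd I H A' B') :
    Bd I (fun x => G x + H x) (fun x => A x + A' x) (fun x => B x + B' x) := by
  obtain ⟨G', G'', h1, h2, h3, h4, h5⟩ := h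
  obtain ⟨H', H'', k1, k2, k3, k4, k5⟩ := h'
  exact ⟨fun x => G' x + H' x, fun x => G'' x + H'' x, fun x hx => (h1 x hx).add (k1 x hx),
    fun x hx => (h2 x hx).add (k2 x hx), h3.add k3,
    fun x hx => (abs_add_le _ _).trans (add_le_add (h4 x hx) (k4 x hx)),
    fun x hx => (abs_add_le _ _).trans (add_le_add (h5 x hx) (k5 x hx))⟩

theorem sum {ι : Type*} (S : Finset ι) {g : ι → ℝ → ℝ} {α β : ι → ℝ → ℝ} (h : ∀ i ∈ S, Bd I (g i) (α i) (β i)) :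
    Bd I (fun x => ∑ i ∈ S, g i x) (fun x => ∑ i ∈ S, α i x) (fun x => ∑ i ∈ S, β i x) := by
  classical
  induction S using Finset.induction_on with
  | empty => simpa using (const 0 : Bd I (fun _ => 0) (fun _ => 0) (fun _ => 0))
  | insert i S hi ih =>
    simp only [sum_insert hi]
    exact (h i (mem_insert_self i S)).add (ih fun j hj => h j (mem_insert_of_mem hj))

end Bd

/-- second derivative of a monomial -/
theorem hasDerivAt_mono2 {x : ℝ} (hx : 0 < x) (t : ℕ) :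
    HasDerivAt (fun x : ℝ => (t : ℝ) * x ^ t / x) (t * (t - 1) * x ^ t / x ^ 2) x := by
  have h3 := ((hasDerivAt_pow_div hx t).const_mul (t : ℝ)).div (hasDerivAt_id' x) hx.ne'
  refine h3.congr_deriv ?_
  field_simp

theorem continuousOn_mono2 {I : Set ℝ} (hI : ∀ x ∈ I, 0 < x) (t : ℕ) :
    ContinuousOn (fun x : ℝ => (t : ℝ) * (t - 1) * x ^ t / x ^ 2) I :=
  ContinuousOn.div (by fun_prop) (by fun_prop) fun x hx => pow_ne_zero 2 (hI x hx).ne'

theorem mono2_le {x : ℝ} (hx : 0 < x) (t : ℕ) : |(t : ℝ) * (t - 1) * x ^ t / x ^ 2| ≤ (t : ℝ) ^ 2 * x ^ t / x ^ 2 := by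
  rcases Nat.eq_zero_or_pos t with rfl | ht
  · simp
  have ht' : (1 : ℝ) ≤ t := by exact_mod_cast ht
  have h1 : 0 ≤ (t : ℝ) * (t - 1) * x ^ t / x ^ 2 := by
    have : (0 : ℝ) ≤ (t : ℝ) - 1 := by linarith
    positivity
  rw [abs_of_nonneg h1]
  have h2 : (t : ℝ) * (t - 1) ≤ (t : ℝ) ^ 2 := by nlinarith
  gcongr

theorem Bd.monomial {I : Set ℝ} (hI : ∀ x ∈ I, 0 < x) (σ : ℝ) (t : ℕ) :
    Bd I (fun x => σ * x ^ t) (fun x => |σ| * (t * x ^ t / x)) (fun x => |σ| * ((t : ℝ) ^ 2 * x ^ t / x ^ 2)) := by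
  refine ⟨fun x => σ * (t * x ^ t / x), fun x => σ * ((t : ℝ) * (t - 1) * x ^ t / x ^ 2),
    fun x hx => (hasDerivAt_pow_div (hI x hx) t).const_mul σ, fun x hx => (hasDerivAt_mono2 (hI x hx) t).const_mul σ,
    continuousOn_const.mul (continuousOn_mono2 hI t), fun x hx => ?_, fun x hx => ?_⟩
  · have := hI x hx
    rw [abs_mul, abs_of_nonneg (by positivity : 0 ≤ (t : ℝ) * x ^ t / x)]
  · rw [abs_mul]
    exact mul_le_mul_of_nonneg_left (mono2_le (hI x hx) t) (abs_nonneg _)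

/-- oscillation with a dominating top monomial -/
theorem osc {a' b' : ℝ} (h0 : 0 < a') (hab : a' ≤ b') {t : ℕ} (ht : 1 ≤ t) {σ η M : ℝ} (hη : 0 < η)
    (hσ : 1 ≤ |σ|) (hσM : |σ| ≤ M) {R A B : ℝ → ℝ} (hR : Bd (Icc a' b') R A B)
    (hA : ∀ x ∈ Icc a' b', A x ≤ (1 - η) * (t * x ^ t / x))
    (hB : ∀ x ∈ Icc a' b', B x ≤ M * ((t : ℝ) ^ 2 * x ^ t / x ^ 2)) :
    ‖∫ x in a'..b', e (σ * x ^ t + R x)‖ ≤ (2 * b' / (η * t) + 2 * M / η ^ 2 * (b' - a')) / a' ^ t := by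
  obtain ⟨R', R'', h1, h2, h3, h4, h5⟩ := hR
  have ht' : (1 : ℝ) ≤ t := by exact_mod_cast ht
  have hb0 : 0 < b' := h0.trans_le hab
  have hM : 1 ≤ M := hσ.trans hσM
  have hI : ∀ x ∈ Icc a' b', 0 < x := fun x hx => h0.trans_le hx.1
  have hat : 0 < a' ^ t := pow_pos h0 t
  have hlow : ∀ x ∈ Icc a' b', η * (t * x ^ t / x) ≤ |σ * (t * x ^ t / x) + R' x| := by
    intro x hx
    have hx0 := hI x hx
    have h6 : 0 ≤ (t : ℝ) * x ^ t / x := by positivity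
    have h7 : |σ * (t * x ^ t / x)| - |R' x| ≤ |σ * (t * x ^ t / x) + R' x| := by
      have := abs_sub_abs_le_abs_sub (σ * (t * x ^ t / x)) (-(R' x))
      rwa [abs_neg, sub_neg_eq_add] at this
    rw [abs_mul, abs_of_nonneg h6] at h7
    have h8 := (h4 x hx).trans (hA x hx)
    nlinarith
  have hmain := vc1 hab (G := fun x => σ * x ^ t + R x) (G' := fun x => σ * (t * x ^ t / x) + R' x)
    (G'' := fun x => σ * ((t : ℝ) * (t - 1) * x ^ t / x ^ 2) + R'' x)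
    (fun x hx => ((hasDerivAt_pow_div (hI x hx) t).const_mul σ).add (h1 x hx))
    (fun x hx => ((hasDerivAt_mono2 (hI x hx) t).const_mul σ).add (h2 x hx))
    ((continuousOn_const.mul (continuousOn_mono2 hI t)).add h3) (m := η * (t * a' ^ t / b'))
    (V := 2 * M / (η ^ 2 * a' ^ t)) (by positivity) ?_ ?_
  · refine hmain.trans ?_
    have hnn : 0 ≤ 2 / (η * (t * a' ^ t / b')) + 2 * M / (η ^ 2 * a' ^ t) * (b' - a') := by
      have : 0 ≤ b' - a' := by linarith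
      positivity
    have hpi := Real.pi_gt_three
    refine (div_le_self hnn (by linarith)).trans (le_of_eq ?_)
    field_simp
  · intro x hx
    refine le_trans ?_ (hlow x hx)
    have hx0 := hI x hx
    have h6 : a' ^ t ≤ x ^ t := pow_le_pow_left₀ h0.le hx.1 t
    have h7 : (t : ℝ) * a' ^ t / b' ≤ t * x ^ t / x := div_le_div₀ (by positivity) (by gcongr) hx0 hx.2
    gcongr
  · intro x hx
    have hx0 := hI x hx
    have hxt : 0 < x ^ t := pow_pos hx0 t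
    have h6 : a' ^ t ≤ x ^ t := pow_le_pow_left₀ h0.le hx.1 t
    have h7 : |σ * ((t : ℝ) * (t - 1) * x ^ t / x ^ 2) + R'' x| ≤ 2 * M * ((t : ℝ) ^ 2 * x ^ t / x ^ 2) := by
      refine (abs_add_le _ _).trans ?_
      rw [abs_mul]
      have h8 := mono2_le hx0 t
      have h9 : |σ| * |(t : ℝ) * (t - 1) * x ^ t / x ^ 2| ≤ M * ((t : ℝ) ^ 2 * x ^ t / x ^ 2) :=
        mul_le_mul hσM h8 (abs_nonneg _) (by linarith)
      have h10 := (h5 x hx).trans (hB x hx)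
      linarith
    refine h7.trans ?_
    have h8 : (η * (t * x ^ t / x)) ^ 2 ≤ (σ * (t * x ^ t / x) + R' x) ^ 2 := by
      rw [← sq_abs (σ * (t * x ^ t / x) + R' x)]
      exact pow_le_pow_left₀ (by positivity) (hlow x hx) 2
    have h9 : 2 * M * ((t : ℝ) ^ 2 * x ^ t / x ^ 2) = 2 * M / (η ^ 2 * x ^ t) * (η * (t * x ^ t / x)) ^ 2 := by
      field_simp
    rw [h9]
    have h10 : 2 * M / (η ^ 2 * x ^ t) ≤ 2 * M / (η ^ 2 * a' ^ t) := by
      apply div_le_div_of_nonneg_left (by positivity) (by positivity)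
      gcongr
    exact mul_le_mul h10 h8 (by positivity) (by positivity)

/-- second-derivative bound with a dominating top monomial -/
theorem osc2 {a' b' : ℝ} (h0 : 0 < a') (hab : a' ≤ b') {t : ℕ} (ht : 2 ≤ t) {σ : ℝ}
    (hσ : 1 ≤ |σ|) {R A B : ℝ → ℝ} (hR : Bd (Icc a' b') R A B)
    (hB : ∀ x ∈ Icc a' b', B x ≤ 1 / 4 * ((t : ℝ) ^ 2 * x ^ t / x ^ 2)) :
    ‖∫ x in a'..b', e (σ * x ^ t + R x)‖ ≤ 8 * b' / (t * Real.sqrt (a' ^ t)) := by
  obtain ⟨R', R'', h1, h2, h3, h4, h5⟩ := hR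
  have ht' : (2 : ℝ) ≤ t := by exact_mod_cast ht
  have hb0 : 0 < b' := h0.trans_le hab
  have hI : ∀ x ∈ Icc a' b', 0 < x := fun x hx => h0.trans_le hx.1
  have hat : 0 < a' ^ t := pow_pos h0 t
  have hlam : ∀ x ∈ Icc a' b', 1 / 4 * ((t : ℝ) ^ 2 * a' ^ t / b' ^ 2) ≤ 1 / 4 * ((t : ℝ) ^ 2 * x ^ t / x ^ 2) := by
    intro x hx
    have hx0 := hI x hx
    have h6 : a' ^ t ≤ x ^ t := pow_le_pow_left₀ h0.le hx.1 t
    have h7 : x ^ 2 ≤ b' ^ 2 := pow_le_pow_left₀ hx0.le hx.2 2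
    have h8 : (t : ℝ) ^ 2 * a' ^ t / b' ^ 2 ≤ (t : ℝ) ^ 2 * x ^ t / x ^ 2 :=
      div_le_div₀ (by positivity) (by gcongr) (by positivity) h7
    linarith
  have hbig : ∀ x ∈ Icc a' b', 1 / 2 * ((t : ℝ) ^ 2 * x ^ t / x ^ 2) ≤ (t : ℝ) * (t - 1) * x ^ t / x ^ 2 := by
    intro x hx
    have hx0 := hI x hx
    have h6 : 1 / 2 * (t : ℝ) ^ 2 ≤ (t : ℝ) * (t - 1) := by nlinarith
    have h7 : 0 ≤ x ^ t / x ^ 2 := by positivity
    calc 1 / 2 * ((t : ℝ) ^ 2 * x ^ t / x ^ 2) = (1 / 2 * (t : ℝ) ^ 2) * (x ^ t / x ^ 2) := by ring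
      _ ≤ ((t : ℝ) * (t - 1)) * (x ^ t / x ^ 2) := mul_le_mul_of_nonneg_right h6 h7
      _ = _ := by ring
  have hsq : 4 / Real.sqrt (1 / 4 * ((t : ℝ) ^ 2 * a' ^ t / b' ^ 2)) = 8 * b' / (t * Real.sqrt (a' ^ t)) := by
    have h6 : 1 / 4 * ((t : ℝ) ^ 2 * a' ^ t / b' ^ 2) = (t / (2 * b')) ^ 2 * a' ^ t := by
      field_simp
      ring
    rw [h6, Real.sqrt_mul (sq_nonneg _), Real.sqrt_sq (by positivity)]
    field_simp
    ring
  rw [← hsq]
  refine vc2 hab (G := fun x => σ * x ^ t + R x) (G' := fun x => σ * (t * x ^ t / x) + R' x)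
    (G'' := fun x => σ * ((t : ℝ) * (t - 1) * x ^ t / x ^ 2) + R'' x)
    (fun x hx => ((hasDerivAt_pow_div (hI x hx) t).const_mul σ).add (h1 x hx))
    (fun x hx => ((hasDerivAt_mono2 (hI x hx) t).const_mul σ).add (h2 x hx))
    ((continuousOn_const.mul (continuousOn_mono2 hI t)).add h3) (by positivity) ?_
  have hR2 : ∀ x ∈ Icc a' b', |R'' x| ≤ 1 / 4 * ((t : ℝ) ^ 2 * x ^ t / x ^ 2) := fun x hx => (h5 x hx).trans (hB x hx)
  rcases le_abs.1 hσ with hs | hs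
  · left
    intro x hx
    have h6 := hlam x hx
    have h7 := hbig x hx
    have h8 := (abs_le.1 (hR2 x hx)).1
    have h9 : 0 ≤ (t : ℝ) ^ 2 * x ^ t / x ^ 2 := by
      have := hI x hx
      positivity
    have h10 : (t : ℝ) * (t - 1) * x ^ t / x ^ 2 ≤ σ * ((t : ℝ) * (t - 1) * x ^ t / x ^ 2) := by nlinarith
    show _ ≤ σ * ((t : ℝ) * (t - 1) * x ^ t / x ^ 2) + R'' x
    linarith
  · right
    intro x hx
    have h6 := hlam x hx
    have h7 := hbig x hx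
    have h8 := (abs_le.1 (hR2 x hx)).2
    have h9 : 0 ≤ (t : ℝ) ^ 2 * x ^ t / x ^ 2 := by
      have := hI x hx
      positivity
    have h10 : (t : ℝ) * (t - 1) * x ^ t / x ^ 2 ≤ -σ * ((t : ℝ) * (t - 1) * x ^ t / x ^ 2) := by nlinarith
    show _ ≤ -(σ * ((t : ℝ) * (t - 1) * x ^ t / x ^ 2) + R'' x)
    linarith

/-- a linear phase dominates -/
theorem osc3 {a' b' : ℝ} (hab : a' ≤ b') {τ B₀ : ℝ} (hτ : τ ≠ 0) {R A B : ℝ → ℝ} (hR : Bd (Icc a' b') R A B)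
    (hA : ∀ x ∈ Icc a' b', A x ≤ |τ| / 2) (hB : ∀ x ∈ Icc a' b', B x ≤ B₀) :
    ‖∫ x in a'..b', e (R x + τ * x)‖ ≤ 4 / |τ| + 4 * B₀ / τ ^ 2 * (b' - a') := by
  obtain ⟨R', R'', h1, h2, h3, h4, h5⟩ := hR
  have hτ0 : 0 < |τ| := abs_pos.2 hτ
  have hlow : ∀ x ∈ Icc a' b', |τ| / 2 ≤ |R' x + τ| := by
    intro x hx
    have h7 : |τ| - |R' x| ≤ |τ + R' x| := by
      have := abs_sub_abs_le_abs_sub τ (-(R' x))
      rwa [abs_neg, sub_neg_eq_add] at this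
    rw [add_comm τ] at h7
    have := (h4 x hx).trans (hA x hx)
    linarith
  have hB0 : 0 ≤ B₀ := ((abs_nonneg _).trans (h5 a' (left_mem_Icc.2 hab))).trans (hB a' (left_mem_Icc.2 hab))
  have hmain := vc1 hab (G := fun x => R x + τ * x) (G' := fun x => R' x + τ) (G'' := fun x => R'' x)
    (fun x hx => (h1 x hx).add (by simpa using (hasDerivAt_id x).const_mul τ))
    (fun x hx => (h2 x hx).add_const τ) h3 (m := |τ| / 2) (V := 4 * B₀ / τ ^ 2) (by positivity) hlow ?_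
  · refine hmain.trans ?_
    have hnn : 0 ≤ 2 / (|τ| / 2) + 4 * B₀ / τ ^ 2 * (b' - a') := by
      have : 0 ≤ b' - a' := by linarith
      positivity
    have hpi := Real.pi_gt_three
    refine (div_le_self hnn (by linarith)).trans (le_of_eq ?_)
    field_simp
    ring
  · intro x hx
    refine (h5 x hx).trans ((hB x hx).trans ?_)
    have h8 : (|τ| / 2) ^ 2 ≤ (R' x + τ) ^ 2 := by
      rw [← sq_abs (R' x + τ)]
      exact pow_le_pow_left₀ (by positivity) (hlow x hx) 2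
    have h9 : B₀ = 4 * B₀ / τ ^ 2 * (|τ| / 2) ^ 2 := by
      rw [div_pow, sq_abs]
      field_simp
      ring
    rw [h9]
    have h10 : 4 * B₀ / τ ^ 2 * (|τ| / 2) ^ 2 = B₀ := h9.symm
    rw [h10]
    calc B₀ = 4 * B₀ / τ ^ 2 * (|τ| / 2) ^ 2 := h9
      _ ≤ 4 * B₀ / τ ^ 2 * (R' x + τ) ^ 2 := mul_le_mul_of_nonneg_left h8 (by positivity)

/-- lower order terms of a lacunary sum -/
theorem Bd.lac {a' b' : ℝ} (h0 : 1 ≤ a') {M : ℝ} (hM : 1 ≤ M) {L : ℕ} (hL : 1 + 8 * M ≤ a' ^ L) {t : ℕ → ℕ}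
    (ht : ∀ i, t i + L ≤ t (i + 1)) (J : ℕ) {σ : ℕ → ℝ} (hσ : ∀ i, |σ i| ≤ M) :
    Bd (Icc a' b') (fun x => ∑ i ∈ range J, σ i * x ^ t i) (fun x => 1 / 8 * (t J * x ^ t J / x))
      (fun x => 1 / 8 * ((t J : ℝ) ^ 2 * x ^ t J / x ^ 2)) := by
  have hI : ∀ x ∈ Icc a' b', 0 < x := fun x hx => by linarith [hx.1]
  refine (Bd.sum (range J) fun i _ => Bd.monomial hI (σ i) (t i)).mono ?_ ?_
  · intro x hx
    have hx0 := hI x hx
    have hLx : 1 + 8 * M ≤ x ^ L := hL.trans (pow_le_pow_left₀ (by linarith) hx.1 L)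
    have h6 := geo1 (h0.trans hx.1) hM hLx ht 1 J
    simp only [pow_one] at h6
    have h7 : ∀ i ∈ range J, |σ i| * (t i * x ^ t i / x) ≤ 1 / x * (M * (t i * x ^ t i)) := by
      intro i _
      calc |σ i| * (t i * x ^ t i / x) ≤ M * (t i * x ^ t i / x) :=
            mul_le_mul_of_nonneg_right (hσ i) (by positivity)
        _ = _ := by ring
    refine (sum_le_sum h7).trans ?_
    rw [← mul_sum, ← mul_sum]
    calc 1 / x * (M * ∑ i ∈ range J, (t i : ℝ) * x ^ t i) ≤ 1 / x * (1 / 8 * (t J * x ^ t J)) :=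
          mul_le_mul_of_nonneg_left h6 (by positivity)
      _ = _ := by ring
  · intro x hx
    have hx0 := hI x hx
    have hLx : 1 + 8 * M ≤ x ^ L := hL.trans (pow_le_pow_left₀ (by linarith) hx.1 L)
    have h6 := geo1 (h0.trans hx.1) hM hLx ht 2 J
    have h7 : ∀ i ∈ range J, |σ i| * ((t i : ℝ) ^ 2 * x ^ t i / x ^ 2) ≤ 1 / x ^ 2 * (M * ((t i : ℝ) ^ 2 * x ^ t i)) := by
      intro i _
      calc |σ i| * ((t i : ℝ) ^ 2 * x ^ t i / x ^ 2) ≤ M * ((t i : ℝ) ^ 2 * x ^ t i / x ^ 2) :=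
            mul_le_mul_of_nonneg_right (hσ i) (by positivity)
        _ = _ := by ring
    refine (sum_le_sum h7).trans ?_
    rw [← mul_sum, ← mul_sum]
    calc 1 / x ^ 2 * (M * ∑ i ∈ range J, (t i : ℝ) ^ 2 * x ^ t i) ≤ 1 / x ^ 2 * (1 / 8 * ((t J : ℝ) ^ 2 * x ^ t J)) :=
          mul_le_mul_of_nonneg_left h6 (by positivity)
      _ = _ := by ring

end Pool.Agent.Helper82.FK
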