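import Pool.Agent.Helper82.FK.Osc
import Pool.Agent.Helper82.FK.Comb
import Pool.Agent.Helper82.FK.Ld

/-!
# The Riesz product `∏ (1 + cos(2π x^(L (j₀ + i))) / 2)`
-/

set_option autoImplicit false

namespace Pool.Agent.Helper82.FK

open MeasureTheory Set Finset

/-- the exponents -/
def tt (L j₀ i : ℕ) : ℕ := L * (j₀ + i)

/-- the Riesz product -/
noncomputable def F (L j₀ J : ℕ) (x : ℝ) : ℝ := ∏ i ∈ range J, (1 + 1 / 2 * Real.cos (2 * Real.pi * x ^ tt L j₀ i))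

theorem tt_succ (L j₀ i : ℕ) : tt L j₀ i + L = tt L j₀ (i + 1) := by unfold tt; ring

theorem tt_le (L j₀ i : ℕ) : tt L j₀ i + L ≤ tt L j₀ (i + 1) := (tt_succ L j₀ i).le

theorem tt_zero (L j₀ : ℕ) : tt L j₀ 0 = L * j₀ := by unfold tt; ring

theorem tt_add (L j₀ i k : ℕ) : tt L (j₀ + i) k = tt L j₀ (i + k) := by unfold tt; ring

theorem F_zero (L j₀ : ℕ) (x : ℝ) : F L j₀ 0 x = 1 := by simp [F]

theorem F_succ (L j₀ J : ℕ) (x : ℝ) :
    F L j₀ (J + 1) x = F L j₀ J x * (1 + 1 / 2 * Real.cos (2 * Real.pi * x ^ tt L j₀ J)) := by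
  unfold F
  rw [prod_range_succ]

theorem F_add (L j₀ k J : ℕ) (x : ℝ) : F L j₀ (k + J) x = F L j₀ k x * F L (j₀ + k) J x := by
  unfold F
  rw [prod_range_add]
  simp only [tt_add]

theorem factor_bounds (y : ℝ) : 1 / 2 ≤ 1 + 1 / 2 * Real.cos y ∧ 1 + 1 / 2 * Real.cos y ≤ 3 / 2 :=
  ⟨by linarith [Real.neg_one_le_cos y], by linarith [Real.cos_le_one y]⟩

theorem F_pos (L j₀ J : ℕ) (x : ℝ) : 0 < F L j₀ J x :=
  prod_pos fun _ _ => lt_of_lt_of_le (by norm_num) (factor_bounds _).1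

theorem F_le (L j₀ J : ℕ) (x : ℝ) : F L j₀ J x ≤ (3 / 2) ^ J := by
  unfold F
  refine (prod_le_prod (fun i _ => ?_) fun i _ => (factor_bounds _).2).trans (le_of_eq ?_)
  · exact le_trans (by norm_num) (factor_bounds _).1
  · rw [prod_const, card_range]

theorem le_F (L j₀ J : ℕ) (x : ℝ) : (1 / 2) ^ J ≤ F L j₀ J x := by
  unfold F
  have h := prod_le_prod (s := range J) (f := fun _ => (1 / 2 : ℝ))
    (g := fun i => 1 + 1 / 2 * Real.cos (2 * Real.pi * x ^ tt L j₀ i)) (fun i _ => by norm_num) fun i _ => (factor_bounds _).1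
  simpa using h

theorem continuous_F (L j₀ J : ℕ) : Continuous (F L j₀ J) := by
  unfold F
  refine continuous_finsetProd _ fun i _ => ?_
  fun_prop

/-- phases with exponents `tt i`, `i < J`, and coefficients at most `M` -/
def Ph (M : ℝ) (L j₀ J : ℕ) : Set (ℝ → ℝ) :=
  {φ | ∃ σ : ℕ → ℝ, (∀ i, |σ i| ≤ M) ∧ ∀ x, φ x = ∑ i ∈ range J, σ i * x ^ tt L j₀ i}

/-- phases with top exponent `tt J` -/
def PhT (M : ℝ) (L j₀ J : ℕ) : Set (ℝ → ℝ) :=
  {φ | ∃ σ : ℕ → ℝ, ∃ τ : ℝ, (∀ i, |σ i| ≤ M) ∧ 1 ≤ |τ| ∧ |τ| ≤ M ∧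
    ∀ x, φ x = τ * x ^ tt L j₀ J + ∑ i ∈ range J, σ i * x ^ tt L j₀ i}

theorem cos_comb {Φ : Set (ℝ → ℝ)} {φ : ℝ → ℝ} (h1 : φ ∈ Φ) (h2 : (fun x => -φ x) ∈ Φ) :
    Comb Φ 1 (fun x => ((Real.cos (2 * Real.pi * φ x) : ℝ) : ℂ)) := by
  refine ((Comb.phase h1).plus (Comb.phase h2)).smul (1 / 2) |>.congr ?_ fun x => ?_
  · norm_num
  · rw [cos_eq]
    ring

theorem Ph_add_top {L j₀ J : ℕ} {φ : ℝ → ℝ} (hφ : φ ∈ Ph 1 L j₀ J) {c : ℝ} (hc : |c| ≤ 1) :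
    (fun x => φ x + c * x ^ tt L j₀ J) ∈ Ph 1 L j₀ (J + 1) := by
  obtain ⟨σ, hσ, h⟩ := hφ
  refine ⟨Function.update σ J c, fun i => ?_, fun x => ?_⟩
  · by_cases hi : i = J
    · subst hi
      rwa [Function.update_self]
    · rw [Function.update_of_ne hi]
      exact hσ i
  · show φ x + c * x ^ tt L j₀ J = _
    rw [sum_range_succ, Function.update_self, h]
    congr 1
    refine sum_congr rfl fun i hi => ?_
    rw [Function.update_of_ne (Finset.mem_range.1 hi).ne]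

theorem F_comb (L j₀ J : ℕ) : Comb (Ph 1 L j₀ J) ((3 / 2) ^ J) (fun x => ((F L j₀ J x : ℝ) : ℂ)) := by
  induction J with
  | zero =>
    have hz : (fun _ => (0 : ℝ)) ∈ Ph 1 L j₀ 0 := ⟨fun _ => 0, by simp, by simp⟩
    refine (Comb.phase hz).congr (by simp) fun x => ?_
    rw [F_zero, e_zero]
    simp
  | succ J ih =>
    have h0 : Comb {φ : ℝ → ℝ | ∃ c : ℝ, |c| ≤ 1 ∧ ∀ x, φ x = c * x ^ tt L j₀ J} (3 / 2)
        (fun x => ((1 + 1 / 2 * Real.cos (2 * Real.pi * x ^ tt L j₀ J) : ℝ) : ℂ)) := by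
      have h1 : Comb {φ : ℝ → ℝ | ∃ c : ℝ, |c| ≤ 1 ∧ ∀ x, φ x = c * x ^ tt L j₀ J} 1 (fun x => e ((fun _ => (0 : ℝ)) x)) :=
        Comb.phase ⟨0, by simp, by simp⟩
      have h2 : Comb {φ : ℝ → ℝ | ∃ c : ℝ, |c| ≤ 1 ∧ ∀ x, φ x = c * x ^ tt L j₀ J} 1
          (fun x => ((Real.cos (2 * Real.pi * (fun x => x ^ tt L j₀ J) x) : ℝ) : ℂ)) :=
        cos_comb ⟨1, by simp, by simp⟩ ⟨-1, by simp, by simp⟩
      refine (h1.plus (h2.smul (1 / 2))).congr (by norm_num) fun x => ?_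
      simp only [e_zero]
      push_cast
      ring
    refine (ih.mul h0 (Θ := Ph 1 L j₀ (J + 1)) ?_).congr (by rw [pow_succ]) fun x => ?_
    · rintro φ hφ ψ ⟨c, hc, hψ⟩
      have := Ph_add_top hφ hc
      have h3 : (fun x => φ x + ψ x) = fun x => φ x + c * x ^ tt L j₀ J := by
        funext x
        rw [hψ]
      rw [h3]
      exact this
    · rw [F_succ]
      push_cast
      ring

/-- the product times the cosine of the next frequency -/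
theorem FT_comb (L j₀ J : ℕ) : Comb (PhT 1 L j₀ J) ((3 / 2) ^ J)
    (fun x => ((F L j₀ J x * Real.cos (2 * Real.pi * x ^ tt L j₀ J) : ℝ) : ℂ)) := by
  have h2 : Comb {φ : ℝ → ℝ | ∃ c : ℝ, |c| = 1 ∧ ∀ x, φ x = c * x ^ tt L j₀ J} 1
      (fun x => ((Real.cos (2 * Real.pi * (fun x => x ^ tt L j₀ J) x) : ℝ) : ℂ)) :=
    cos_comb ⟨1, by simp, by simp⟩ ⟨-1, by simp, by simp⟩
  refine ((F_comb L j₀ J).mul h2 (Θ := PhT 1 L j₀ J) ?_).congr (mul_one _) fun x => ?_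
  · rintro φ ⟨σ, hσ, h⟩ ψ ⟨c, hc, hψ⟩
    exact ⟨σ, c, hσ, hc.ge, hc.le, fun x => by
      show φ x + ψ x = _
      rw [h, hψ, add_comm]⟩
  · push_cast
    ring

theorem F_succ' (L j₀ J : ℕ) (x : ℝ) :
    F L j₀ (J + 1) x = F L j₀ J x + 1 / 2 * (F L j₀ J x * Real.cos (2 * Real.pi * x ^ tt L j₀ J)) := by
  rw [F_succ]
  ring

/-- telescoping against a weight -/
theorem F_tele {a' b' : ℝ} (L j₀ : ℕ) {w : ℝ → ℂ} (hw : Continuous w) (k J : ℕ) (hkJ : k ≤ J) :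
    ∫ x in a'..b', ((F L j₀ J x : ℝ) : ℂ) * w x = (∫ x in a'..b', ((F L j₀ k x : ℝ) : ℂ) * w x) +
      ∑ j ∈ Finset.Ico k J, 1 / 2 * ∫ x in a'..b', ((F L j₀ j x * Real.cos (2 * Real.pi * x ^ tt L j₀ j) : ℝ) : ℂ) * w x := by
  induction J, hkJ using Nat.le_induction with
  | base => simp
  | succ J hJ ih =>
    rw [Finset.sum_Ico_succ_top hJ, ← add_assoc, ← ih]
    have hc : ∀ j, Continuous fun x => ((F L j₀ j x * Real.cos (2 * Real.pi * x ^ tt L j₀ j) : ℝ) : ℂ) * w x := by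
      intro j
      have := continuous_F L j₀ j
      fun_prop
    have hc' : Continuous fun x => ((F L j₀ J x : ℝ) : ℂ) * w x := by
      have := continuous_F L j₀ J
      fun_prop
    rw [← intervalIntegral.integral_const_mul, ← intervalIntegral.integral_add (hc'.intervalIntegrable _ _)
      ((hc J).intervalIntegrable _ _ |>.const_mul _)]
    apply intervalIntegral.integral_congr
    intro x _
    show ((F L j₀ (J + 1) x : ℝ) : ℂ) * w x = _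
    rw [F_succ']
    push_cast
    ring

theorem PhT_continuous {M : ℝ} {L j₀ J : ℕ} {φ : ℝ → ℝ} (hφ : φ ∈ PhT M L j₀ J) : Continuous φ := by
  obtain ⟨σ, τ, -, -, -, h⟩ := hφ
  rw [show φ = _ from funext h]
  fun_prop

/-- oscillation of the phases with top exponent `tt J` -/
theorem PhT_osc {a' b' : ℝ} (h1 : 1 ≤ a') (hab : a' ≤ b') {M : ℝ} (hM : 1 ≤ M) {L : ℕ} (hL : 1 + 8 * M ≤ a' ^ L) {j₀ : ℕ}
    (hj : 1 ≤ L * j₀) (J : ℕ) {φ : ℝ → ℝ} (hφ : φ ∈ PhT M L j₀ J) :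
    ‖∫ x in a'..b', e (φ x)‖ ≤ 3 * M * (b' / (L * j₀) + (b' - a')) / a' ^ tt L j₀ J := by
  obtain ⟨σ, τ, hσ, hτ, hτM, h⟩ := hφ
  simp_rw [h]
  have hT : 1 ≤ tt L j₀ J := by
    unfold tt
    nlinarith
  have hR := Bd.lac (b' := b') h1 hM hL (tt_le L j₀) J hσ
  have h2 := osc (by linarith) hab hT (η := 7 / 8) (by norm_num) hτ hτM hR (fun x _ => by linarith) (fun x hx => by
    have hx0 : 0 < x := by linarith [hx.1]
    have : 0 ≤ (tt L j₀ J : ℝ) ^ 2 * x ^ tt L j₀ J / x ^ 2 := by positivity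
    nlinarith)
  refine h2.trans ?_
  have ha0 : 0 < a' := by linarith
  have hb0 : 0 < b' := by linarith
  apply div_le_div_of_nonneg_right _ (by positivity)
  have hj' : (1 : ℝ) ≤ (L : ℝ) * j₀ := by exact_mod_cast hj
  have h3 : (L : ℝ) * j₀ ≤ (tt L j₀ J : ℝ) := by
    have : L * j₀ ≤ tt L j₀ J := by unfold tt; exact Nat.mul_le_mul_left L (Nat.le_add_right j₀ J)
    exact_mod_cast this
  have h4 : 2 * b' / (7 / 8 * (tt L j₀ J : ℝ)) ≤ 3 * M * (b' / (L * j₀)) := by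
    have h5 : b' / (tt L j₀ J : ℝ) ≤ b' / (L * j₀) := div_le_div_of_nonneg_left hb0.le (by linarith) h3
    have h6 : 2 * b' / (7 / 8 * (tt L j₀ J : ℝ)) = 16 / 7 * (b' / (tt L j₀ J : ℝ)) := by
      have : (tt L j₀ J : ℝ) ≠ 0 := by linarith
      field_simp
      ring
    rw [h6]
    have h7 : 0 ≤ b' / (L * j₀ : ℝ) := by positivity
    nlinarith
  have h8 : 2 * M / (7 / 8) ^ 2 * (b' - a') ≤ 3 * M * (b' - a') := by
    have : 0 ≤ M * (b' - a') := mul_nonneg (by linarith) (by linarith)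
    have h9 : 2 * M / (7 / 8) ^ 2 * (b' - a') = 128 / 49 * (M * (b' - a')) := by ring
    rw [h9]
    linarith
  rw [mul_add]
  exact add_le_add h4 h8

theorem pow_tt {a' : ℝ} {L : ℕ} (hL : 9 ≤ a' ^ L) (h1 : 1 ≤ a') (j₀ J : ℕ) : a' ^ (L * j₀) * 9 ^ J ≤ a' ^ tt L j₀ J := by
  unfold tt
  rw [mul_add, pow_add, pow_mul a' L J]
  gcongr

theorem geo6 (k : ℕ) (J : ℕ) : ∑ j ∈ Finset.Ico k J, (1 / 6 : ℝ) ^ j ≤ 6 / 5 * (1 / 6) ^ k := by
  rcases le_total k J with h | h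
  · rw [geom_sum_Ico (by norm_num) h]
    have h1 : (0 : ℝ) < (1 / 6 : ℝ) ^ J := by positivity
    rw [div_le_iff_of_neg (by norm_num)]
    linarith
  · rw [Finset.Ico_eq_empty_of_le h, sum_empty]
    positivity

/-- the mass of an interval -/
theorem mass {a' b' : ℝ} (h1 : 1 ≤ a') (hab : a' ≤ b') {L : ℕ} (hL : 9 ≤ a' ^ L) {j₀ : ℕ} (hj : 1 ≤ L * j₀) (J : ℕ) :
    |(∫ x in a'..b', F L j₀ J x) - (b' - a')| ≤ 2 * (b' / (L * j₀) + (b' - a')) / a' ^ (L * j₀) := by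
  have ha0 : 0 < a' := by linarith
  have hb0 : 0 < b' := by linarith
  have hjr : (1 : ℝ) ≤ (L : ℝ) * j₀ := by exact_mod_cast hj
  have h2 := F_tele (a' := a') (b' := b') L j₀ (w := fun _ => 1) continuous_const 0 J (Nat.zero_le J)
  simp only [mul_one, F_zero] at h2
  have h3 : ∫ x in a'..b', ((F L j₀ J x : ℝ) : ℂ) = ((∫ x in a'..b', F L j₀ J x : ℝ) : ℂ) :=
    intervalIntegral.integral_ofReal
  have h4 : ∫ x in a'..b', ((1 : ℝ) : ℂ) = ((b' - a' : ℝ) : ℂ) := by simp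
  rw [h3, h4] at h2
  have h5 : (((∫ x in a'..b', F L j₀ J x) - (b' - a') : ℝ) : ℂ) =
      ∑ j ∈ Finset.Ico 0 J, 1 / 2 * ∫ x in a'..b', ((F L j₀ j x * Real.cos (2 * Real.pi * x ^ tt L j₀ j) : ℝ) : ℂ) := by
    rw [Complex.ofReal_sub, h2]
    ring
  rw [← Real.norm_eq_abs, ← Complex.norm_real, h5]
  refine (norm_sum_le _ _).trans ?_
  set D : ℝ := b' / (L * j₀) + (b' - a') with hD
  have hD0 : 0 ≤ D := by
    have : 0 ≤ b' - a' := by linarith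
    positivity
  have h6 : ∀ j ∈ Finset.Ico 0 J, ‖(1 / 2 : ℂ) * ∫ x in a'..b', ((F L j₀ j x * Real.cos (2 * Real.pi * x ^ tt L j₀ j) : ℝ) : ℂ)‖ ≤
      3 / 2 * D / a' ^ (L * j₀) * (1 / 6) ^ j := by
    intro j _
    rw [norm_mul]
    have h7 := (FT_comb L j₀ j).norm_integral_le (a := a') (b := b')
      (fun φ hφ => (PhT_continuous hφ).continuousOn) (fun φ hφ => PhT_osc h1 hab le_rfl (by linarith) hj j hφ)
    have h8 : 3 * 1 * D / a' ^ tt L j₀ j ≤ 3 * D / (a' ^ (L * j₀) * 9 ^ j) := by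
      rw [mul_one]
      apply div_le_div_of_nonneg_left (by positivity) (by positivity)
      exact pow_tt hL h1 j₀ j
    have h9 : ‖(1 / 2 : ℂ)‖ = 1 / 2 := by norm_num
    rw [h9]
    calc 1 / 2 * ‖∫ x in a'..b', ((F L j₀ j x * Real.cos (2 * Real.pi * x ^ tt L j₀ j) : ℝ) : ℂ)‖
        ≤ 1 / 2 * ((3 / 2) ^ j * (3 * D / (a' ^ (L * j₀) * 9 ^ j))) := by
          gcongr
          exact h7.trans (mul_le_mul_of_nonneg_left h8 (by positivity))
      _ = 3 / 2 * D / a' ^ (L * j₀) * (1 / 6) ^ j := by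
          have h10 : ((3 : ℝ) / 2) ^ j = 9 ^ j * (1 / 6) ^ j := by
            rw [← mul_pow]
            norm_num
          rw [h10]
          field_simp
  refine (sum_le_sum h6).trans ?_
  rw [← mul_sum]
  have h7 := geo6 0 J
  rw [pow_zero, mul_one] at h7
  calc 3 / 2 * D / a' ^ (L * j₀) * ∑ j ∈ Finset.Ico 0 J, (1 / 6 : ℝ) ^ j ≤ 3 / 2 * D / a' ^ (L * j₀) * (6 / 5) :=
        mul_le_mul_of_nonneg_left h7 (by positivity)
    _ ≤ 2 * D / a' ^ (L * j₀) := by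
        rw [div_mul_eq_mul_div]
        apply div_le_div_of_nonneg_right _ (by positivity)
        linarith

end Pool.Agent.Helper82.FK
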